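import Pool.Agent.Run7.h914.IFm.S3
import Pool.Agent.R105.GD.Tri

/-! The family theorem for the recursion of `MP_3f8e47_nt` (copied from `Results/MP_3f8e47_nt/ValuesAtPrimes` of helper844). -/

set_option autoImplicit false
set_option linter.all false

open Finset Filter

namespace Run7.h914.IFm.G3

/-- The 3-periodic sequence `2, 6, 0, 2, 6, 0, …` (indexed from 1). -/
def b (n : ℕ) : ℕ := if n % 3 = 1 then 2 else if n % 3 = 2 then 6 else 0

/-- the recursion `a_N`: `a_N(1) = N - 6`, `a_N(n) = a_N(n-1) - gcd(a_N(n-1), n + b(n))` for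
`n ≥ 2` (and `a_N(0) = 0`, not used) -/
noncomputable def a (N : ℕ) : ℕ → ℤ
  | 0 => 0
  | 1 => (N : ℤ) - 6
  | (n + 2) => a N (n + 1) - ((Int.gcd (a N (n + 1)) ((n + 2 + b (n + 2) : ℕ) : ℤ) : ℕ) : ℤ)

/-- `f(N)`: the least `n ≥ 1` with `a_N(n) = 0` -/
noncomputable def f (N : ℕ) : ℕ := sInf {n : ℕ | 1 ≤ n ∧ a N n = 0}

lemma a_eq (N n : ℕ) : a N n = Pool.Agent.R105.GD.aa N n := by
  induction n using Nat.strong_induction_on with
  | _ n ih =>
    match n with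
    | 0 => rw [a, Pool.Agent.R105.GD.aa]
    | 1 => rw [a, Pool.Agent.R105.GD.aa]
    | n + 2 =>
      rw [a, Pool.Agent.R105.GD.aa, ih (n + 1) (by omega)]
      rfl

lemma f_eq (N : ℕ) : f N = Pool.Agent.R105.GD.ff N := by
  unfold f Pool.Agent.R105.GD.ff
  simp only [a_eq]

lemma triple_inj (j : ℤ) (p : ℕ) (hp : p.Prime) (h5 : 5 ≤ p) (l l' : Fin 3)
    (hd : (p : ℤ) ∣ (![1 - j, 3 - j, 7 - j] : Fin 3 → ℤ) l - (![1 - j, 3 - j, 7 - j] : Fin 3 → ℤ) l') : l = l' := by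
  by_contra hne
  have e1 : ((![1 - j, 3 - j, 7 - j] : Fin 3 → ℤ) l - (![1 - j, 3 - j, 7 - j] : Fin 3 → ℤ) l').natAbs = 2 ∨
      ((![1 - j, 3 - j, 7 - j] : Fin 3 → ℤ) l - (![1 - j, 3 - j, 7 - j] : Fin 3 → ℤ) l').natAbs = 4 ∨
      ((![1 - j, 3 - j, 7 - j] : Fin 3 → ℤ) l - (![1 - j, 3 - j, 7 - j] : Fin 3 → ℤ) l').natAbs = 6 := by
    fin_cases l <;> fin_cases l' <;> simp at hne ⊢ <;> omega
  have e2 := Int.natCast_dvd.1 hd
  rcases e1 with h | h | h <;> rw [h] at e2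
  · have := Nat.le_of_dvd (by norm_num) e2
    omega
  · have := Nat.le_of_dvd (by norm_num) e2
    omega
  · have h6 := Nat.le_of_dvd (by norm_num) e2
    have h56 : p = 5 ∨ p = 6 := by omega
    rcases h56 with rfl | rfl
    · revert e2; decide
    · revert hp; decide

open Classical in
/-- families of integers with small exponential sums -/
theorem fam : ∃ C : ℝ, 1 ≤ C ∧ ∃ T₀ : ℝ, ∀ T : ℝ, T₀ ≤ T → ∀ (ι : Type) (s : Finset ι) (v : ι → ℤ),
    Run7.h914.IFm.RP.IF T s v → ∀ H : ℕ, 1 ≤ H →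
    ((s.filter fun i => 6 ≤ v i ∧ (v i).toNat ≤ f (v i).toNat + H).card : ℝ) ≤ C * H * (s.card / Real.log T ^ 3) := by
  obtain ⟨C, hC, T₁, h1⟩ := Run7.h914.IFm.RP.up_primes 3 (by norm_num)
  have hlim : ∀ᶠ T : ℝ in atTop, 1 ≤ T ∧ 1 ≤ Real.log T ∧ 7000 * Real.log T ^ 3 ≤ T ^ (1 / 8 : ℝ) := by
    have e1 : (fun x : ℝ => Real.log x ^ 3) =o[atTop] (fun x : ℝ => x ^ (1 / 8 : ℝ)) := by
      have := isLittleO_log_rpow_rpow_atTop (s := 1 / 8) ((3 : ℕ) : ℝ) (by norm_num)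
      refine this.congr' ?_ (Eventually.of_forall fun _ => rfl)
      filter_upwards [eventually_ge_atTop (1 : ℝ)] with x hx
      rw [Real.rpow_natCast]
    have e2 := e1.def (show (0 : ℝ) < 1 / 7000 by norm_num)
    filter_upwards [eventually_ge_atTop (1 : ℝ), Real.tendsto_log_atTop.eventually_ge_atTop 1, e2] with T g1 g2 g3
    refine ⟨g1, g2, ?_⟩
    rw [Real.norm_of_nonneg (by positivity), Real.norm_of_nonneg (by positivity)] at g3
    linarith
  obtain ⟨T₂, hT₂⟩ := eventually_atTop.1 hlim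
  refine ⟨2 * C + 1, by linarith, max T₁ T₂, fun T hT ι s v hv H hH => ?_⟩
  obtain ⟨g1, g2, g3⟩ := hT₂ T ((le_max_right _ _).trans hT)
  have hT0 : 0 < T := by linarith
  have hs0 : (0 : ℝ) ≤ s.card := Nat.cast_nonneg _
  have hH1 : (1 : ℝ) ≤ H := by exact_mod_cast hH
  have hl : 0 < Real.log T ^ 3 := by positivity
  have hsl : 0 ≤ (s.card : ℝ) / Real.log T ^ 3 := by positivity
  by_cases hbig : Real.log T ^ 3 ≤ H
  · -- the trivial bound
    have e1 : ((s.filter fun i => 6 ≤ v i ∧ (v i).toNat ≤ f (v i).toNat + H).card : ℝ) ≤ s.card := by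
      exact_mod_cast card_filter_le _ _
    refine e1.trans ?_
    have e2 : (s.card : ℝ) ≤ H * (s.card / Real.log T ^ 3) := by
      rw [mul_div_assoc', le_div_iff₀ hl, mul_comm]
      exact mul_le_mul_of_nonneg_right hbig hs0
    have e3 : 0 ≤ (H : ℝ) * (s.card / Real.log T ^ 3) := by positivity
    nlinarith
  push Not at hbig
  have hHT : (H : ℝ) + 7 ≤ T ^ (1 / 8 : ℝ) := by nlinarith [pow_le_pow_left₀ (by norm_num : (0:ℝ) ≤ 1) g2 3]
  -- the small members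
  obtain ⟨m, hm⟩ : ∃ m : ℕ, m = ⌈T ^ (1 / 2 : ℝ)⌉₊ := ⟨_, rfl⟩
  have hT2 : 1 ≤ T ^ (1 / 2 : ℝ) := Real.one_le_rpow g1 (by norm_num)
  have hm1 : T ^ (1 / 2 : ℝ) ≤ m := by rw [hm]; exact Nat.le_ceil _
  have hm2 : (m : ℝ) ≤ 2 * T ^ (1 / 2 : ℝ) := by
    have : (m : ℝ) < T ^ (1 / 2 : ℝ) + 1 := by rw [hm]; exact Nat.ceil_lt_add_one (by positivity)
    linarith
  have hm0 : 1 ≤ m := by exact_mod_cast hT2.trans hm1
  have h2 := Run7.h914.IFm.RP.IF_small hT0 hv m hm0 6 (2100 + 5 * H)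
  have hsub : s.filter (fun i => 6 ≤ v i ∧ (v i).toNat ≤ f (v i).toNat + H) ⊆
      s.filter (fun i => (6 : ℤ) ≤ v i ∧ v i < 6 + (2100 + 5 * H : ℕ)) ∪
      (range (H + 1)).biUnion (fun j => s.filter fun i => ∀ l : Fin 3,
        (v i + (![1 - (j : ℤ), 3 - (j : ℤ), 7 - (j : ℤ)] : Fin 3 → ℤ) l).toNat.Prime) := by
    intro i hi
    rw [mem_filter] at hi
    obtain ⟨hi1, hi2, hi3⟩ := hi
    rw [mem_union, mem_filter, mem_biUnion]
    by_cases hs : v i < 6 + (2100 + 5 * H : ℕ)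
    · exact Or.inl ⟨hi1, hi2, hs⟩
    · right
      push Not at hs
      obtain ⟨N, hN⟩ : ∃ N : ℕ, v i = N := ⟨(v i).toNat, by omega⟩
      rw [hN, Int.toNat_natCast] at hi3
      rw [hN] at hs hi2
      have hfle := Pool.Agent.R105.GD.ff_le N (by omega)
      rw [← f_eq] at hfle
      have hp := Pool.Agent.R105.GD.ff_primes N (by omega) (by rw [← f_eq]; omega)
      rw [← f_eq] at hp
      refine ⟨N - f N, by rw [mem_range]; omega, ?_⟩
      rw [mem_filter]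
      refine ⟨hi1, ?_⟩
      rw [Fin.forall_fin_succ, Fin.forall_fin_succ, Fin.forall_fin_succ]
      simp only [Matrix.cons_val_zero, Matrix.cons_val_succ, IsEmpty.forall_iff, and_true]
      have e1 : (v i + (1 - ((N - f N : ℕ) : ℤ))).toNat = f N + 1 := by omega
      have e2 : (v i + (3 - ((N - f N : ℕ) : ℤ))).toNat = f N + 3 := by omega
      have e3 : (v i + (7 - ((N - f N : ℕ) : ℤ))).toNat = f N + 7 := by omega
      rw [e1, e2, e3]
      exact hp
  have hcard : ((s.filter fun i => 6 ≤ v i ∧ (v i).toNat ≤ f (v i).toNat + H).card : ℝ) ≤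
      ((s.filter (fun i => (6 : ℤ) ≤ v i ∧ v i < 6 + (2100 + 5 * H : ℕ))).card : ℝ) +
      ∑ j ∈ range (H + 1), ((s.filter fun i => ∀ l : Fin 3,
        (v i + (![1 - (j : ℤ), 3 - (j : ℤ), 7 - (j : ℤ)] : Fin 3 → ℤ) l).toNat.Prime).card : ℝ) := by
    have e1 := (card_le_card hsub).trans ((card_union_le _ _).trans (Nat.add_le_add_left card_biUnion_le _))
    exact_mod_cast e1
  have hA : ((s.filter (fun i => (6 : ℤ) ≤ v i ∧ v i < 6 + (2100 + 5 * H : ℕ))).card : ℝ) ≤ H * (s.card / Real.log T ^ 3) := by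
    refine h2.trans ?_
    have e1 : (T : ℝ) ^ (1 / 2 : ℝ) * T ^ (1 / 2 : ℝ) = T := by
      rw [← Real.rpow_add hT0]; norm_num
    have hT20 : 0 < T ^ (1 / 2 : ℝ) := by positivity
    have e2 : (s.card : ℝ) / m ≤ s.card / T ^ (1 / 2 : ℝ) := div_le_div_of_nonneg_left hs0 hT20 hm1
    have e3 : (s.card : ℝ) * m / T ≤ 2 * (s.card / T ^ (1 / 2 : ℝ)) := by
      rw [mul_div_assoc', div_le_div_iff₀ hT0 hT20]
      calc (s.card : ℝ) * m * T ^ (1 / 2 : ℝ) ≤ s.card * (2 * T ^ (1 / 2 : ℝ)) * T ^ (1 / 2 : ℝ) := by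
            apply mul_le_mul_of_nonneg_right _ hT20.le
            exact mul_le_mul_of_nonneg_left hm2 hs0
        _ = 2 * s.card * (T ^ (1 / 2 : ℝ) * T ^ (1 / 2 : ℝ)) := by ring
        _ = 2 * s.card * T := by rw [e1]
    have e4 : ((2100 + 5 * H : ℕ) : ℝ) ≤ 2105 * H := by
      push_cast
      linarith
    have e5 : T ^ (1 / 8 : ℝ) ≤ T ^ (1 / 2 : ℝ) := Real.rpow_le_rpow_of_exponent_le g1 (by norm_num)
    calc ((2100 + 5 * H : ℕ) : ℝ) * (s.card / m + s.card * m / T) ≤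
          (2105 * H) * (s.card / T ^ (1 / 2 : ℝ) + 2 * (s.card / T ^ (1 / 2 : ℝ))) :=
          mul_le_mul e4 (add_le_add e2 e3) (by positivity) (by positivity)
      _ = H * ((s.card * 6315) / T ^ (1 / 2 : ℝ)) := by ring
      _ ≤ H * (s.card / Real.log T ^ 3) := by
          apply mul_le_mul_of_nonneg_left _ (by linarith)
          rw [div_le_div_iff₀ hT20 hl]
          calc (s.card : ℝ) * 6315 * Real.log T ^ 3 ≤ s.card * (7000 * Real.log T ^ 3) := by nlinarith [mul_nonneg hs0 hl.le]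
            _ ≤ s.card * T ^ (1 / 2 : ℝ) := mul_le_mul_of_nonneg_left (g3.trans e5) hs0
  have hB : ∀ j ∈ range (H + 1), ((s.filter fun i => ∀ l : Fin 3,
        (v i + (![1 - (j : ℤ), 3 - (j : ℤ), 7 - (j : ℤ)] : Fin 3 → ℤ) l).toNat.Prime).card : ℝ) ≤ C * (s.card / Real.log T ^ 3) := by
    intro j hj
    rw [mem_range] at hj
    have hjr : (j : ℝ) ≤ H := by exact_mod_cast (by omega : j ≤ H)
    have hj0 : (0 : ℝ) ≤ j := Nat.cast_nonneg _
    have e1 := h1 T ((le_max_left _ _).trans hT) ι s v hv ![1 - (j : ℤ), 3 - (j : ℤ), 7 - (j : ℤ)] (by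
      rw [Fin.forall_fin_succ, Fin.forall_fin_succ, Fin.forall_fin_succ]
      simp only [Matrix.cons_val_zero, Matrix.cons_val_succ, IsEmpty.forall_iff, and_true]
      push_cast
      refine ⟨?_, ?_, ?_⟩ <;> rw [abs_le] <;> constructor <;> linarith) 1 one_ne_zero (by
      intro p hp _ hp3 l l' hd
      have h4 : 5 ≤ p := by
        by_contra hcon
        have : p = 4 := by omega
        rw [this] at hp
        exact absurd hp (by norm_num)
      exact triple_inj _ p hp h4 l l' hd)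
    have e2 : Run7.h914.IFm.RP.sgm 1 = 0 := by
      unfold Run7.h914.IFm.RP.sgm
      simp
    rw [e2, mul_zero, Real.exp_zero, mul_one] at e1
    exact e1
  have hsum : ∑ j ∈ range (H + 1), ((s.filter fun i => ∀ l : Fin 3,
        (v i + (![1 - (j : ℤ), 3 - (j : ℤ), 7 - (j : ℤ)] : Fin 3 → ℤ) l).toNat.Prime).card : ℝ) ≤
      (2 * H) * (C * (s.card / Real.log T ^ 3)) := by
    refine (sum_le_sum hB).trans ?_
    rw [sum_const, card_range, nsmul_eq_mul]
    push_cast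
    apply mul_le_mul_of_nonneg_right (by linarith) (by positivity)
  refine hcard.trans ((add_le_add hA hsum).trans (le_of_eq ?_))
  ring


end Run7.h914.IFm.G3
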