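import Pool.Agent.Run7.h914.IFm.S3
import Pool.Agent.R105.GD.Gol
import Pool.Agent.R105.GD.Pairs

/-! The family theorem for the recursion of `MP_b5e119_nt` (copied from `Results/MP_b5e119_nt/ValuesAtPrimes` of helper844). -/

set_option autoImplicit false
set_option linter.all false

open Finset Filter

namespace Run7.h914.IFm.GG

/-- the recursion of the problem: `a_1 = N - 2`, and
`a_n = a_{n-1} - gcd(a_{n-1}, N - (-1)^n (N - n))` for `n ≥ 2` (and `a_0 = 0`, not used) -/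
noncomputable def a (N : ℕ) : ℕ → ℤ
  | 0 => 0
  | 1 => (N : ℤ) - 2
  | (n + 2) => a N (n + 1) - ((Int.gcd (a N (n + 1))
      ((N : ℤ) - (-1) ^ (n + 2) * ((N : ℤ) - ((n + 2 : ℕ) : ℤ))) : ℕ) : ℤ)

/-- `g_N`: the least `n ≥ 2` with `a_n = 0` -/
noncomputable def g (N : ℕ) : ℕ := sInf {n : ℕ | 2 ≤ n ∧ a N n = 0}

lemma a_eq (N n : ℕ) : a N n = Pool.Agent.R105.GD.Gol.aa N n := by
  induction n using Nat.strong_induction_on with
  | _ n ih =>
    match n with
    | 0 => rw [a, Pool.Agent.R105.GD.Gol.aa]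
    | 1 => rw [a, Pool.Agent.R105.GD.Gol.aa]
    | n + 2 => rw [a, Pool.Agent.R105.GD.Gol.aa, ih (n + 1) (by omega)]

lemma g_eq (N : ℕ) : g N = Pool.Agent.R105.GD.Gol.gg N := by
  unfold g Pool.Agent.R105.GD.Gol.gg
  simp only [a_eq]

lemma pair_inj (j : ℕ) (p : ℕ) (hM : ¬ p ∣ 2 * j) (l l' : Fin 2)
    (hd : (p : ℤ) ∣ (![-(j : ℤ), (j : ℤ)] : Fin 2 → ℤ) l - (![-(j : ℤ), (j : ℤ)] : Fin 2 → ℤ) l') : l = l' := by
  by_contra hne
  have e1 : ((![-(j : ℤ), (j : ℤ)] : Fin 2 → ℤ) l - (![-(j : ℤ), (j : ℤ)] : Fin 2 → ℤ) l').natAbs = 2 * j := by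
    fin_cases l <;> fin_cases l' <;> simp at hne ⊢ <;> omega
  have e2 := Int.natCast_dvd.1 hd
  rw [e1] at e2
  exact hM e2

open Classical in
/-- families of integers with small exponential sums -/
theorem fam : ∃ C : ℝ, 1 ≤ C ∧ ∃ T₀ : ℝ, ∀ T : ℝ, T₀ ≤ T → ∀ (ι : Type) (s : Finset ι) (v : ι → ℤ),
    Run7.h914.IFm.RP.IF T s v → ∀ H : ℕ, 1 ≤ H →
    ((s.filter fun i => 3 ≤ v i ∧ (v i).toNat ≤ g (v i).toNat + H).card : ℝ) ≤
      C * (s.card / Real.log T + H * (s.card / Real.log T ^ 2)) := by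
  obtain ⟨C, hC, T₁, h1⟩ := Run7.h914.IFm.RP.up_primes 2 (by norm_num)
  obtain ⟨D, hD, T₃, h3⟩ := Run7.h914.IFm.RP.up_primes 1 (by norm_num)
  obtain ⟨E, hE, h4⟩ := Pool.Agent.R105.GD.exp_avg 4 (by norm_num)
  have hlim : ∀ᶠ T : ℝ in atTop, 1 ≤ T ∧ 1 ≤ Real.log T ∧ 7000 * Real.log T ^ 2 ≤ T ^ (1 / 8 : ℝ) := by
    have e1 : (fun x : ℝ => Real.log x ^ 2) =o[atTop] (fun x : ℝ => x ^ (1 / 8 : ℝ)) := by
      have := isLittleO_log_rpow_rpow_atTop (s := 1 / 8) ((2 : ℕ) : ℝ) (by norm_num)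
      refine this.congr' ?_ (Eventually.of_forall fun _ => rfl)
      filter_upwards [eventually_ge_atTop (1 : ℝ)] with x hx
      rw [Real.rpow_natCast]
    have e2 := e1.def (show (0 : ℝ) < 1 / 7000 by norm_num)
    filter_upwards [eventually_ge_atTop (1 : ℝ), Real.tendsto_log_atTop.eventually_ge_atTop 1, e2] with T g1 g2 g3
    refine ⟨g1, g2, ?_⟩
    rw [Real.norm_of_nonneg (by positivity), Real.norm_of_nonneg (by positivity)] at g3
    linarith
  obtain ⟨T₂, hT₂⟩ := eventually_atTop.1 hlim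
  refine ⟨C * Real.exp 2 * E + D + 1, by nlinarith [show (0 : ℝ) ≤ C * Real.exp 2 * E from by positivity], max (max T₁ T₃) T₂, fun T hT ι s v hv H hH => ?_⟩
  obtain ⟨g1, g2, g3⟩ := hT₂ T ((le_max_right _ _).trans hT)
  have hTT1 : T₁ ≤ T := ((le_max_left _ _).trans (le_max_left _ _)).trans hT
  have hTT3 : T₃ ≤ T := ((le_max_right _ _).trans (le_max_left _ _)).trans hT
  have hT0 : 0 < T := by linarith
  have hs0 : (0 : ℝ) ≤ s.card := Nat.cast_nonneg _
  have hH1 : (1 : ℝ) ≤ H := by exact_mod_cast hH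
  have hl : 0 < Real.log T ^ 2 := by positivity
  have hl1 : 0 < Real.log T := by linarith
  have hsl : 0 ≤ (s.card : ℝ) / Real.log T ^ 2 := by positivity
  have hsl1 : 0 ≤ (s.card : ℝ) / Real.log T := by positivity
  have hCE : 0 ≤ C * Real.exp 2 * E := by positivity
  by_cases hbig : Real.log T ^ 2 ≤ H
  · -- the trivial bound
    have e1 : ((s.filter fun i => 3 ≤ v i ∧ (v i).toNat ≤ g (v i).toNat + H).card : ℝ) ≤ s.card := by
      exact_mod_cast card_filter_le _ _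
    refine e1.trans ?_
    have e2 : (s.card : ℝ) ≤ H * (s.card / Real.log T ^ 2) := by
      rw [mul_div_assoc', le_div_iff₀ hl, mul_comm]
      exact mul_le_mul_of_nonneg_right hbig hs0
    have e3 : 0 ≤ (H : ℝ) * (s.card / Real.log T ^ 2) := by positivity
    nlinarith
  push Not at hbig
  have hHT : (H : ℝ) + 7 ≤ T ^ (1 / 8 : ℝ) := by nlinarith [pow_le_pow_left₀ (by norm_num : (0:ℝ) ≤ 1) g2 2]
  -- the small members
  obtain ⟨m, hm⟩ : ∃ m : ℕ, m = ⌈T ^ (1 / 2 : ℝ)⌉₊ := ⟨_, rfl⟩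
  have hT2 : 1 ≤ T ^ (1 / 2 : ℝ) := Real.one_le_rpow g1 (by norm_num)
  have hm1 : T ^ (1 / 2 : ℝ) ≤ m := by rw [hm]; exact Nat.le_ceil _
  have hm2 : (m : ℝ) ≤ 2 * T ^ (1 / 2 : ℝ) := by
    have : (m : ℝ) < T ^ (1 / 2 : ℝ) + 1 := by rw [hm]; exact Nat.ceil_lt_add_one (by positivity)
    linarith
  have hm0 : 1 ≤ m := by exact_mod_cast hT2.trans hm1
  have h2 := Run7.h914.IFm.RP.IF_small hT0 hv m hm0 3 (2208 + 5 * H)
  have hsub : s.filter (fun i => 3 ≤ v i ∧ (v i).toNat ≤ g (v i).toNat + H) ⊆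
      (s.filter (fun i => (3 : ℤ) ≤ v i ∧ v i < 3 + (2208 + 5 * H : ℕ)) ∪
      s.filter (fun i => ∀ l : Fin 1, (v i + (fun _ : Fin 1 => (0 : ℤ)) l).toNat.Prime)) ∪
      (Icc 1 H).biUnion (fun j => s.filter fun i => ∀ l : Fin 2,
        (v i + (![-(j : ℤ), (j : ℤ)] : Fin 2 → ℤ) l).toNat.Prime) := by
    intro i hi
    rw [mem_filter] at hi
    obtain ⟨hi1, hi2, hi3⟩ := hi
    rw [mem_union, mem_union, mem_filter, mem_filter, mem_biUnion]
    by_cases hs : v i < 3 + (2208 + 5 * H : ℕ)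
    · exact Or.inl (Or.inl ⟨hi1, hi2, hs⟩)
    · push Not at hs
      obtain ⟨N, hN⟩ : ∃ N : ℕ, v i = N := ⟨(v i).toNat, by omega⟩
      rw [hN, Int.toNat_natCast] at hi3
      rw [hN] at hs hi2
      have hgle := Pool.Agent.R105.GD.Gol.gg_le N (by omega)
      rw [← g_eq] at hgle
      have hp := Pool.Agent.R105.GD.Gol.gg_primes N (by omega) (by rw [← g_eq]; omega)
      rw [← g_eq] at hp
      by_cases hj1 : N - g N = 1
      · left; right
        refine ⟨hi1, fun l => ?_⟩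
        have e1 : (v i + 0).toNat = g N + 1 := by omega
        rw [e1]
        exact hp.1
      · right
        refine ⟨N - g N - 1, by rw [mem_Icc]; omega, ?_⟩
        rw [mem_filter]
        refine ⟨hi1, ?_⟩
        rw [Fin.forall_fin_succ, Fin.forall_fin_succ]
        simp only [Matrix.cons_val_zero, Matrix.cons_val_succ, IsEmpty.forall_iff, and_true]
        have e1 : (v i + -((N - g N - 1 : ℕ) : ℤ)).toNat = g N + 1 := by omega
        have e2 : (v i + ((N - g N - 1 : ℕ) : ℤ)).toNat = 2 * N - g N - 1 := by omega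
        rw [e1, e2]
        exact hp
  have hcard : ((s.filter fun i => 3 ≤ v i ∧ (v i).toNat ≤ g (v i).toNat + H).card : ℝ) ≤
      ((s.filter (fun i => (3 : ℤ) ≤ v i ∧ v i < 3 + (2208 + 5 * H : ℕ))).card : ℝ) +
      ((s.filter fun i => ∀ l : Fin 1, (v i + (fun _ : Fin 1 => (0 : ℤ)) l).toNat.Prime).card : ℝ) +
      ∑ j ∈ Icc 1 H, ((s.filter fun i => ∀ l : Fin 2,
        (v i + (![-(j : ℤ), (j : ℤ)] : Fin 2 → ℤ) l).toNat.Prime).card : ℝ) := by
    have e1 := (card_le_card hsub).trans ((card_union_le _ _).trans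
      (Nat.add_le_add (card_union_le _ _) card_biUnion_le))
    exact_mod_cast e1
  have hA : ((s.filter (fun i => (3 : ℤ) ≤ v i ∧ v i < 3 + (2208 + 5 * H : ℕ))).card : ℝ) ≤ H * (s.card / Real.log T ^ 2) := by
    refine h2.trans ?_
    have e1 : (T : ℝ) ^ (1 / 2 : ℝ) * T ^ (1 / 2 : ℝ) = T := by
      rw [← Real.rpow_add hT0]; norm_num
    have hT20 : 0 < T ^ (1 / 2 : ℝ) := by positivity
    have e2 : (s.card : ℝ) / m ≤ s.card / T ^ (1 / 2 : ℝ) := div_le_div_of_nonneg_left hs0 hT20 hm1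
    have e3 : (s.card : ℝ) * m / T ≤ 2 * (s.card / T ^ (1 / 2 : ℝ)) := by
      rw [mul_div_assoc', div_le_div_iff₀ hT0 hT20]
      calc (s.card : ℝ) * m * T ^ (1 / 2 : ℝ) ≤ s.card * (2 * T ^ (1 / 2 : ℝ)) * T ^ (1 / 2 : ℝ) := by
            apply mul_le_mul_of_nonneg_right _ hT20.le
            exact mul_le_mul_of_nonneg_left hm2 hs0
        _ = 2 * s.card * (T ^ (1 / 2 : ℝ) * T ^ (1 / 2 : ℝ)) := by ring
        _ = 2 * s.card * T := by rw [e1]
    have e4 : ((2208 + 5 * H : ℕ) : ℝ) ≤ 2213 * H := by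
      push_cast
      linarith
    have e5 : T ^ (1 / 8 : ℝ) ≤ T ^ (1 / 2 : ℝ) := Real.rpow_le_rpow_of_exponent_le g1 (by norm_num)
    calc ((2208 + 5 * H : ℕ) : ℝ) * (s.card / m + s.card * m / T) ≤
          (2213 * H) * (s.card / T ^ (1 / 2 : ℝ) + 2 * (s.card / T ^ (1 / 2 : ℝ))) :=
          mul_le_mul e4 (add_le_add e2 e3) (by positivity) (by positivity)
      _ = H * ((s.card * 6639) / T ^ (1 / 2 : ℝ)) := by ring
      _ ≤ H * (s.card / Real.log T ^ 2) := by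
          apply mul_le_mul_of_nonneg_left _ (by linarith)
          rw [div_le_div_iff₀ hT20 hl]
          calc (s.card : ℝ) * 6639 * Real.log T ^ 2 ≤ s.card * (7000 * Real.log T ^ 2) := by nlinarith [mul_nonneg hs0 hl.le]
            _ ≤ s.card * T ^ (1 / 2 : ℝ) := mul_le_mul_of_nonneg_left (g3.trans e5) hs0
  have hP : ((s.filter fun i => ∀ l : Fin 1, (v i + (fun _ : Fin 1 => (0 : ℤ)) l).toNat.Prime).card : ℝ) ≤
      D * (s.card / Real.log T) := by
    have e1 := h3 T hTT3 ι s v hv (fun _ => 0) (by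
      intro j
      simp only [Int.cast_zero, abs_zero]
      positivity) 1 one_ne_zero (by
      intro p _ _ _ l l' _
      exact Subsingleton.elim _ _)
    have e2 : Run7.h914.IFm.RP.sgm 1 = 0 := by
      unfold Run7.h914.IFm.RP.sgm
      simp
    rw [e2, mul_zero, Real.exp_zero, mul_one, pow_one] at e1
    exact e1
  have hB : ∀ j ∈ Icc 1 H, ((s.filter fun i => ∀ l : Fin 2,
        (v i + (![-(j : ℤ), (j : ℤ)] : Fin 2 → ℤ) l).toNat.Prime).card : ℝ) ≤
        (C * Real.exp 2 * (s.card / Real.log T ^ 2)) * Real.exp (4 * Pool.Agent.Y851.DK.sg j) := by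
    intro j hj
    rw [mem_Icc] at hj
    have hjr : (j : ℝ) ≤ H := by exact_mod_cast hj.2
    have hj0 : (0 : ℝ) ≤ j := Nat.cast_nonneg _
    have e1 := h1 T hTT1 ι s v hv ![-(j : ℤ), (j : ℤ)] (by
      rw [Fin.forall_fin_succ, Fin.forall_fin_succ]
      simp only [Matrix.cons_val_zero, Matrix.cons_val_succ, IsEmpty.forall_iff, and_true]
      push_cast
      refine ⟨?_, ?_⟩ <;> rw [abs_le] <;> constructor <;> linarith) (2 * j) (by omega) (by
      intro p _ hM _ l l' hd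
      exact pair_inj j p hM l l' hd)
    have e2 : Run7.h914.IFm.RP.sgm (2 * j) ≤ 1 / 2 + Pool.Agent.Y851.DK.sg j :=
      Pool.Agent.R105.GD.sg_double j hj.1
    have e3 : Real.exp (2 * ((2 : ℕ) : ℝ) * Run7.h914.IFm.RP.sgm (2 * j)) ≤
        Real.exp 2 * Real.exp (4 * Pool.Agent.Y851.DK.sg j) := by
      rw [← Real.exp_add]
      apply Real.exp_le_exp.2
      push_cast
      linarith
    calc _ ≤ C * Real.exp (2 * ((2 : ℕ) : ℝ) * Run7.h914.IFm.RP.sgm (2 * j)) * (s.card / Real.log T ^ 2) := e1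
      _ ≤ C * (Real.exp 2 * Real.exp (4 * Pool.Agent.Y851.DK.sg j)) * (s.card / Real.log T ^ 2) := by
          apply mul_le_mul_of_nonneg_right _ hsl
          exact mul_le_mul_of_nonneg_left e3 (by linarith)
      _ = _ := by ring
  have hsum : ∑ j ∈ Icc 1 H, ((s.filter fun i => ∀ l : Fin 2,
        (v i + (![-(j : ℤ), (j : ℤ)] : Fin 2 → ℤ) l).toNat.Prime).card : ℝ) ≤
      (C * Real.exp 2 * (s.card / Real.log T ^ 2)) * (E * H) := by
    refine (sum_le_sum hB).trans ?_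
    rw [← mul_sum]
    exact mul_le_mul_of_nonneg_left (h4 H) (by positivity)
  refine hcard.trans ((add_le_add (add_le_add hA hP) hsum).trans ?_)
  have e9 : 0 ≤ (H : ℝ) * (s.card / Real.log T ^ 2) := by positivity
  have e10 : (C * Real.exp 2 * E + D + 1) * (s.card / Real.log T + H * (s.card / Real.log T ^ 2)) =
      (H * (s.card / Real.log T ^ 2) + D * (s.card / Real.log T) + (C * Real.exp 2 * (s.card / Real.log T ^ 2)) * (E * H)) +
      ((C * Real.exp 2 * E + 1) * (s.card / Real.log T) + D * (H * (s.card / Real.log T ^ 2))) := by ring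
  rw [e10]
  have e11 : 0 ≤ (C * Real.exp 2 * E + 1) * (s.card / Real.log T) + D * (H * (s.card / Real.log T ^ 2)) := by positivity
  linarith


end Run7.h914.IFm.GG
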