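import Pool.Agent.Run7.h914.IFm.Pts

/-! Linear forms with coprime coefficients at the points of plane curves. -/

set_option autoImplicit false
set_option linter.all false

namespace Run7.h914.IFm

open Finset Filter Polynomial
open Run7.h914 (ev_const TD AbsIrr)

theorem bez (c₁ c₂ : ℤ) (h : IsCoprime c₁ c₂) :
    ∃ u₁ u₂ : ℤ, u₁ * c₁ + u₂ * c₂ = 1 ∧ |u₁| + |u₂| ≤ |c₁| + |c₂| + 1 := by
  by_cases h0 : c₂ = 0
  · subst h0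
    obtain ⟨a, b, hab⟩ := h
    rw [mul_zero, add_zero] at hab
    have h1 : c₁ = 1 ∨ c₁ = -1 := Int.isUnit_iff.1 (IsUnit.of_mul_eq_one_right a hab)
    refine ⟨c₁, 0, ?_, ?_⟩
    · rcases h1 with h1 | h1 <;> rw [h1] <;> norm_num
    · rw [abs_zero]
      linarith
  · obtain ⟨a, b, hab⟩ := h
    have e := Int.emod_add_mul_ediv a c₂
    refine ⟨a % c₂, b + (a / c₂) * c₁, ?_, ?_⟩
    · have : a % c₂ = a - c₂ * (a / c₂) := by linarith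
      rw [this]
      linear_combination hab
    · obtain ⟨u, hu⟩ : ∃ u, u = a % c₂ := ⟨_, rfl⟩
      obtain ⟨v, hv⟩ : ∃ v, v = b + (a / c₂) * c₁ := ⟨_, rfl⟩
      have h1 : 0 ≤ u := by rw [hu]; exact Int.emod_nonneg _ h0
      have h2 : u < |c₂| := by rw [hu]; exact Int.emod_lt_abs _ h0
      have h3 : v * c₂ = 1 - u * c₁ := by
        have : u = a - c₂ * (a / c₂) := by rw [hu]; linarith
        rw [this, hv]
        linear_combination hab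
      rw [← hu, ← hv]
      have h4 : |v| * |c₂| ≤ 1 + u * |c₁| := by
        rw [← abs_mul, h3]
        have := abs_sub (1 : ℤ) (u * c₁)
        rw [abs_one, abs_mul, abs_of_nonneg h1] at this
        exact this
      have h5 : 0 ≤ |c₁| := abs_nonneg _
      have h6 : 1 ≤ |c₂| := Int.one_le_abs h0
      have h7 : |v| ≤ |c₁| + 1 := by
        by_contra hc
        push Not at hc
        have h8 : |c₁| + 2 ≤ |v| := by omega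
        have h9 := mul_le_mul_of_nonneg_right h8 (by linarith : (0 : ℤ) ≤ |c₂|)
        have h10 : u * |c₁| ≤ |c₂| * |c₁| := mul_le_mul_of_nonneg_right h2.le h5
        nlinarith
      rw [abs_of_nonneg h1]
      linarith

theorem curve_bad2 (Bad : ℕ → ℤ → Prop) (g : ℕ → ℝ) (κ : ℕ) (hB : FamBd Bad g κ) (δ : ℝ) (hδ : 0 < δ) (hδ1 : δ ≤ 1) :
    ∃ K : ℝ, 0 < K ∧ ∃ p₀ : ℕ, ∀ (p : ℕ) [Fact p.Prime], p₀ ≤ p →
    ∀ (d : ℕ) (F : (ZMod p)[X][X]), (d : ℝ) ≤ (p : ℝ) ^ (δ / 50) → TD F d → (∃ i j, 2 ≤ i + j ∧ (F.coeff i).coeff j ≠ 0) → AbsIrr F →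
    ∀ (M₁ M₂ : ℤ) (L₁ L₂ : ℕ), (p : ℝ) ^ δ ≤ L₁ → L₁ ≤ p → (p : ℝ) ^ δ ≤ L₂ → L₂ ≤ p →
      (p : ℝ) ^ (3 / 2 + δ) ≤ L₁ * L₂ →
    ∀ (c₁ c₂ c₀ : ℤ), IsCoprime c₁ c₂ → |(c₁ : ℝ)| ≤ (p : ℝ) ^ (δ / 20) → |(c₂ : ℝ)| ≤ (p : ℝ) ^ (δ / 20) → ∀ H : ℕ, 1 ≤ H →
    (Set.ncard {z : ℤ × ℤ | (M₁ < z.1 ∧ z.1 ≤ M₁ + L₁) ∧ (M₂ < z.2 ∧ z.2 ≤ M₂ + L₂) ∧
        evalEval (z.1 : ZMod p) (z.2 : ZMod p) F = 0 ∧ Bad H (c₁ * z.1 + c₂ * z.2 + c₀)} : ℝ) ≤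
      K * g H * ((Set.ncard {z : ℤ × ℤ | (M₁ < z.1 ∧ z.1 ≤ M₁ + L₁) ∧ (M₂ < z.2 ∧ z.2 ≤ M₂ + L₂) ∧
        evalEval (z.1 : ZMod p) (z.2 : ZMod p) F = 0} : ℝ) / Real.log p ^ κ) := by
  obtain ⟨K, hK, p₁, h⟩ := curve_bad Bad g κ hB δ hδ hδ1
  obtain ⟨p₂, h2⟩ := ev_const (δ / 80) 3 (by positivity)
  refine ⟨K, hK, max p₁ p₂, ?_⟩
  intro p _ hpp d F hd hF hF1 hirr M₁ M₂ L₁ L₂ l1 l2 l3 l4 hV c₁ c₂ c₀ hco hc1 hc2 H hH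
  have hp : p.Prime := Fact.out
  have hp1 : (1 : ℝ) < p := by exact_mod_cast hp.one_lt
  have hp0 : (0 : ℝ) < p := by linarith
  obtain ⟨u₁, u₂, hu, hu2⟩ := bez c₁ c₂ hco
  have h3 := h2 p ((le_max_right _ _).trans hpp)
  have key := h p ((le_max_left _ _).trans hpp) d F hd hF hF1 hirr (![M₁, M₂]) (![L₁, L₂]) (by
    intro j
    fin_cases j
    · exact ⟨l1, l2⟩
    · exact ⟨l3, l4⟩) hV (![c₁, c₂]) (![u₁, u₂]) c₀ (by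
      rw [Fin.sum_univ_two]
      exact hu) (by
      rw [Fin.sum_univ_two]
      have h4 : |(u₁ : ℝ)| + |(u₂ : ℝ)| ≤ |(c₁ : ℝ)| + |(c₂ : ℝ)| + 1 := by exact_mod_cast hu2
      have h5 : (1 : ℝ) ≤ (p : ℝ) ^ (δ / 20) := Real.one_le_rpow hp1.le (by positivity)
      have h6 : 3 * (p : ℝ) ^ (δ / 20) ≤ (p : ℝ) ^ (δ / 16) := by
        have : (p : ℝ) ^ (δ / 16) = (p : ℝ) ^ (δ / 80) * (p : ℝ) ^ (δ / 20) := by
          rw [← Real.rpow_add hp0]; congr 1; ring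
        rw [this]
        exact mul_le_mul_of_nonneg_right h3 (by linarith)
      show |(u₁ : ℝ)| + |(u₂ : ℝ)| ≤ _
      linarith) H hH
  have e1 : ∀ P : ℤ × ℤ → Prop, Set.ncard {z : ℤ × ℤ | (M₁ < z.1 ∧ z.1 ≤ M₁ + L₁) ∧ (M₂ < z.2 ∧ z.2 ≤ M₂ + L₂) ∧ P z} =
      Set.ncard {z : Fin 2 → ℤ | (∀ j, (![M₁, M₂] : Fin 2 → ℤ) j < z j ∧ z j ≤ (![M₁, M₂] : Fin 2 → ℤ) j +
        (![L₁, L₂] : Fin 2 → ℕ) j) ∧ P (z 0, z 1)} := by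
    intro P
    have h4 : {z : ℤ × ℤ | (M₁ < z.1 ∧ z.1 ≤ M₁ + L₁) ∧ (M₂ < z.2 ∧ z.2 ≤ M₂ + L₂) ∧ P z} =
        (fun z : Fin 2 → ℤ => (z 0, z 1)) '' {z : Fin 2 → ℤ | (∀ j, (![M₁, M₂] : Fin 2 → ℤ) j < z j ∧ z j ≤
          (![M₁, M₂] : Fin 2 → ℤ) j + (![L₁, L₂] : Fin 2 → ℕ) j) ∧ P (z 0, z 1)} := by
      ext z
      constructor
      · rintro ⟨h5, h6, h7⟩
        refine ⟨![z.1, z.2], ⟨fun j => ?_, h7⟩, rfl⟩
        fin_cases j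
        · exact h5
        · exact h6
      · rintro ⟨y, ⟨h5, h6⟩, rfl⟩
        exact ⟨h5 0, h5 1, h6⟩
    rw [h4, Set.ncard_image_of_injective]
    intro y y' hyy
    simp only [Prod.mk.injEq] at hyy
    funext j
    fin_cases j
    · exact hyy.1
    · exact hyy.2
  have e2 := e1 (fun z => evalEval (z.1 : ZMod p) (z.2 : ZMod p) F = 0 ∧ Bad H (c₁ * z.1 + c₂ * z.2 + c₀))
  have e3 := e1 (fun z => evalEval (z.1 : ZMod p) (z.2 : ZMod p) F = 0)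
  simp only at e2 e3
  rw [e2, e3]
  refine le_trans (le_of_eq ?_) key
  congr 2
  ext z
  simp only [Set.mem_setOf_eq, Fin.sum_univ_two]
  rfl

end Run7.h914.IFm
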