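import Pool.Agent.H807R2.Dav1
import Pool.Agent.Helper256.KM.Mertens
import Pool.Agent.Run7.h90.AP.Fam

/-! Families of integers with small exponential sums: definitions.  The files `Def`, `S1`, ..., `S10`, `T1`, ..., `T6` of this
folder are copies of the files `PwS1`, ..., `PwT6` of the library `Pool.Agent.Run7.h844.RP` of helper844, with reduced
imports (the auxiliary lemmas of this file are copied from `H373R2.T7`, `W93.HD4` and `Run7.h90.AP.Fund`). -/

set_option autoImplicit false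
set_option linter.all false

namespace Run7.h914.IFm.RP

open Finset Filter
open Pool.Agent.H807R2.Dav

/-- the exponential sums of the family are small -/
def IF {ι : Type} (T : ℝ) (s : Finset ι) (v : ι → ℤ) : Prop :=
  ∀ α δ : ℝ, 0 < δ → (∀ m : ℤ, δ ≤ |α - m|) → ‖∑ i ∈ s, ee (α * v i)‖ ≤ s.card / (δ * T)

lemma orth (M : ℕ) (hM : 1 ≤ M) (k : ℤ) :
    ∑ t ∈ range M, ee ((t : ℝ) * ((k : ℝ) / M)) = if (M : ℤ) ∣ k then (M : ℂ) else 0 := by
  have hM0 : (0 : ℝ) < M := by exact_mod_cast hM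
  by_cases h : (M : ℤ) ∣ k
  · rw [if_pos h]
    obtain ⟨j, rfl⟩ := h
    have h1 : ∀ t ∈ range M, ee ((t : ℝ) * ((((M : ℤ) * j : ℤ) : ℝ) / M)) = 1 := by
      intro t _
      have : (t : ℝ) * ((((M : ℤ) * j : ℤ) : ℝ) / M) = (((t : ℤ) * j : ℤ) : ℝ) := by
        push_cast
        field_simp
      rw [this, ee_int]
    rw [sum_congr rfl h1, sum_const, card_range, nsmul_eq_mul, mul_one]
  · rw [if_neg h]
    set w := ee ((k : ℝ) / M) with hw
    have h1 : ∀ t ∈ range M, ee ((t : ℝ) * ((k : ℝ) / M)) = w ^ t := by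
      intro t _
      rw [ee_pow]
    rw [sum_congr rfl h1]
    have hw1 : w ≠ 1 := by
      intro h2
      rw [hw] at h2
      unfold ee at h2
      rw [Complex.exp_eq_one_iff] at h2
      obtain ⟨n, hn⟩ := h2
      have h3 : ((k : ℝ) / M : ℂ) = n := by
        have h4 : (2 * Real.pi * Complex.I : ℂ) ≠ 0 := by
          simp [Real.pi_ne_zero]
        have h5 : (2 * Real.pi * Complex.I : ℂ) * (((k : ℝ) / M : ℝ) : ℂ) = (2 * Real.pi * Complex.I : ℂ) * n := by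
          rw [hn]; ring
        have := mul_left_cancel₀ h4 h5
        push_cast at this ⊢
        exact this
      have h4 : (k : ℝ) / M = n := by exact_mod_cast h3
      rw [div_eq_iff hM0.ne'] at h4
      have h5 : k = n * M := by exact_mod_cast h4
      exact h ⟨n, by rw [h5]; ring⟩
    rw [geom_sum_eq hw1]
    have h2 : w ^ M = 1 := by
      rw [hw, ← ee_pow]
      have : (M : ℝ) * ((k : ℝ) / M) = ((k : ℤ) : ℝ) := by field_simp
      rw [this, ee_int]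
    rw [h2]
    simp

/-- primes up to `z` -/
def pz (z : ℕ) : Finset ℕ := (Icc 1 z).filter Nat.Prime

noncomputable def Vz (z : ℕ) : ℝ := ∏ p ∈ pz z, (1 - 1 / (p : ℝ))

lemma mem_pz {z p : ℕ} : p ∈ pz z ↔ p ≤ z ∧ p.Prime := by
  unfold pz
  rw [mem_filter, mem_Icc]
  constructor
  · rintro ⟨⟨_, h⟩, h2⟩; exact ⟨h, h2⟩
  · rintro ⟨h, h2⟩; exact ⟨⟨h2.one_le, h⟩, h2⟩

lemma Vz_pos (z : ℕ) : 0 < Vz z := by
  unfold Vz
  apply prod_pos
  intro p hp
  rw [mem_pz] at hp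
  have : (2 : ℝ) ≤ p := by exact_mod_cast hp.2.two_le
  rw [sub_pos, div_lt_one (by linarith)]
  linarith

lemma Vz_log_le : ∃ C : ℝ, 1 ≤ C ∧ ∀ y : ℕ, 3 ≤ y → Vz y * Real.log y ≤ C := by
  obtain ⟨C, hC⟩ := Pool.Agent.Helper256.KM.mertens_inv
  refine ⟨max 1 (Real.exp C), le_max_left _ _, fun y hy => ?_⟩
  have hy3 : (3 : ℝ) ≤ y := by exact_mod_cast hy
  have hl : 0 < Real.log y := Real.log_pos (by linarith)
  have h1 : Vz y ≤ Real.exp (-∑ p ∈ pz y, 1 / (p : ℝ)) := by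
    rw [← sum_neg_distrib, Real.exp_sum]
    unfold Vz
    apply Finset.prod_le_prod
    · intro p hp
      have hp2 : (2 : ℝ) ≤ p := by exact_mod_cast (mem_pz.1 hp).2.two_le
      rw [sub_nonneg, div_le_one (by linarith)]; linarith
    · intro p _
      have := Real.add_one_le_exp (-(1 / (p : ℝ)))
      linarith
  have h2 := (abs_le.1 (hC y hy)).1
  have h3 : Real.exp (-∑ p ∈ pz y, 1 / (p : ℝ)) ≤ Real.exp (C - Real.log (Real.log y)) := by
    apply Real.exp_le_exp.2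
    unfold pz
    linarith
  rw [Real.exp_sub, Real.exp_log hl] at h3
  have h4 := h1.trans h3
  calc Vz y * Real.log y ≤ (Real.exp C / Real.log y) * Real.log y := mul_le_mul_of_nonneg_right h4 hl.le
    _ = Real.exp C := by field_simp
    _ ≤ _ := le_max_right _ _

theorem exJ (z : ℕ) (hz : 1 ≤ z) : ∃ J : ℕ, z ≤ 2 ^ 2 ^ J ∧ 2 ^ 2 ^ J ≤ 2 * z ^ 2 ∧
    J + 1 ≤ 2 ^ 2 ^ J := by
  have hbig : ∃ J : ℕ, z ≤ 2 ^ 2 ^ J := by
    refine ⟨z, ?_⟩
    have h1 : z < 2 ^ z := Nat.lt_two_pow_self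
    have h2 : 2 ^ z ≤ 2 ^ 2 ^ z := Nat.pow_le_pow_right (by norm_num) h1.le
    omega
  have h3 : ∀ J : ℕ, J + 1 ≤ 2 ^ 2 ^ J := by
    intro J
    have h1 : J < 2 ^ J := Nat.lt_two_pow_self
    have h2 : 2 ^ J < 2 ^ 2 ^ J := Nat.lt_two_pow_self
    omega
  refine ⟨Nat.find hbig, Nat.find_spec hbig, ?_, h3 _⟩
  rcases Nat.eq_zero_or_pos (Nat.find hbig) with h0 | h0
  · rw [h0]
    have : 1 ≤ z ^ 2 := Nat.one_le_pow _ _ hz
    norm_num
    omega
  · obtain ⟨k, hk⟩ := Nat.exists_eq_succ_of_ne_zero h0.ne'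
    have h1 : ¬ z ≤ 2 ^ 2 ^ k := Nat.find_min hbig (by omega)
    rw [hk, Nat.succ_eq_add_one]
    have h2 : (2 : ℕ) ^ 2 ^ (k + 1) = (2 ^ 2 ^ k) ^ 2 := by
      rw [← pow_mul, pow_succ]
    rw [h2]
    have h4 : (2 ^ 2 ^ k) ^ 2 ≤ z ^ 2 := Nat.pow_le_pow_left (by omega) 2
    omega

end Run7.h914.IFm.RP
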