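import Pool.Agent.Run7.h914.IFm.Tw
import Pool.Agent.Run7.h914.IFm.Def

/-! Linear forms in the coordinates of the points of a family of vectors modulo `p`: small exponential sums. -/

set_option autoImplicit false
set_option linter.all false

namespace Run7.h914.IFm

open Finset Filter
open Pool.Agent.H807R2.Dav (ee ee_add ee_int ee_add_int norm_ee dd dd_nonneg dd_add_int dd_ge dd_le dd_neg ee_zero)
open Pool.Agent.N39.RG (fam fam_equi)
open Run7.h914.IFm.RP (IF)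

theorem dd_far {x e : ℝ} (he : 0 < e) (h : ∀ m : ℤ, e ≤ |x - m|) : 4 * e ≤ dd x := by
  have h1 : dd x = dd (Int.fract x) := by
    conv_lhs => rw [← Int.fract_add_floor x]
    rw [dd_add_int]
  have h2 : e ≤ Int.fract x := by
    have h3 := h ⌊x⌋
    have h4 : x - ⌊x⌋ = Int.fract x := rfl
    rw [h4, abs_of_nonneg (Int.fract_nonneg x)] at h3
    exact h3
  have h3 : e ≤ 1 - Int.fract x := by
    have h4 := h (⌊x⌋ + 1)
    have h5 : x - ((⌊x⌋ + 1 : ℤ) : ℝ) = -(1 - Int.fract x) := by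
      push_cast
      unfold Int.fract
      ring
    rw [h5, abs_neg, abs_of_nonneg (by linarith [Int.fract_lt_one x])] at h4
    exact h4
  have h4 := dd_ge (Int.fract_nonneg x) (Int.fract_lt_one x).le
  rw [h1]
  refine le_trans ?_ h4
  apply mul_le_mul_of_nonneg_left _ (by norm_num)
  exact le_min h2 h3

/-- one coordinate is far from the integers -/
theorem far_coord {r : ℕ} (c u : Fin r → ℤ) (K : ℝ) (hK : 0 < K) (hu : ∑ j, u j * c j = 1) (hKu : (∑ j, |(u j : ℝ)|) ≤ K)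
    (α d : ℝ) (hd : 0 < d) (h : ∀ m : ℤ, d ≤ |α - m|) : ∃ j, ∀ m : ℤ, d / K ≤ |α * c j - m| := by
  by_contra hc
  push Not at hc
  choose m hm using hc
  have h1 := h (∑ j, u j * m j)
  have h2 : α - ((∑ j, u j * m j : ℤ) : ℝ) = ∑ j, (u j : ℝ) * (α * c j - m j) := by
    have h3 : (1 : ℝ) = ∑ j, (u j : ℝ) * c j := by exact_mod_cast hu.symm
    push_cast
    have h4 : ∑ j, (u j : ℝ) * (α * c j - m j) = α * ∑ j, (u j : ℝ) * c j - ∑ j, (u j : ℝ) * m j := by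
      rw [mul_sum, ← sum_sub_distrib]
      refine sum_congr rfl fun j _ => ?_
      ring
    rw [h4, ← h3, mul_one]
  rw [h2] at h1
  have h3 : |∑ j, (u j : ℝ) * (α * c j - m j)| < d := by
    refine lt_of_le_of_lt (abs_sum_le_sum_abs _ _) ?_
    obtain ⟨j0, hj0⟩ : ∃ j, u j ≠ 0 := by
      by_contra hcon
      push Not at hcon
      rw [sum_eq_zero fun j _ => by rw [hcon j, zero_mul]] at hu
      exact zero_ne_one hu
    have h4 : ∑ j, |(u j : ℝ) * (α * c j - m j)| < ∑ j, |(u j : ℝ)| * (d / K) := by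
      apply sum_lt_sum
      · intro j _
        rw [abs_mul]
        exact mul_le_mul_of_nonneg_left (hm j).le (abs_nonneg _)
      · refine ⟨j0, mem_univ _, ?_⟩
        rw [abs_mul]
        have : 0 < |(u j0 : ℝ)| := abs_pos.2 (by exact_mod_cast hj0)
        exact mul_lt_mul_of_pos_left (hm j0) this
    refine h4.trans_le ?_
    rw [← sum_mul]
    calc (∑ j, |(u j : ℝ)|) * (d / K) ≤ K * (d / K) := mul_le_mul_of_nonneg_right hKu (by positivity)
      _ = d := by field_simp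
  linarith

section
variable {p : ℕ} [Fact p.Prime]

/-- the twisted sum over the family -/
theorem fam_tw {ι : Type} (S : Finset ι) {r : ℕ} (R : ι → Fin r → ZMod p) (M : Fin r → ℤ) (L : Fin r → ℕ)
    (c : Fin r → ℤ) (c₀ : ℤ) (α : ℝ) :
    ∑ z ∈ fam S R M L, ee (α * ((∑ j, c j * z.2 j + c₀ : ℤ) : ℝ)) =
      ee (α * c₀) * ∑ i ∈ S, ∏ j, ∑ x ∈ (Ioc (M j) (M j + L j)).filter (fun x : ℤ => (x : ZMod p) = R i j),
        ee (α * c j * x) := by
  have hes : ∀ (t : Finset (Fin r)) (f : Fin r → ℝ), ee (∑ j ∈ t, f j) = ∏ j ∈ t, ee (f j) := by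
    classical
    intro t f
    induction t using Finset.induction_on with
    | empty => simp [ee_zero]
    | insert a s ha ih => rw [sum_insert ha, prod_insert ha, ee_add, ih]
  unfold Pool.Agent.N39.RG.fam
  rw [sum_sigma, mul_sum]
  refine sum_congr rfl fun i _ => ?_
  rw [prod_univ_sum, mul_sum]
  refine sum_congr rfl fun x _ => ?_
  rw [← hes, ← ee_add]
  congr 1
  push_cast
  rw [mul_add, mul_sum, add_comm]
  congr 1
  refine sum_congr rfl fun j _ => ?_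
  ring

end

/-- **linear forms in the coordinates of the members of a family with small exponential sums** -/
theorem IF_fam (r : ℕ) (δ : ℝ) (hδ : 0 < δ) (hδ1 : δ ≤ 1) :
    ∃ p₀ : ℕ, ∀ (p : ℕ) [Fact p.Prime], p₀ ≤ p →
    ∀ (ε : ℝ) (ι : Type) (S : Finset ι) (R : ι → Fin r → ZMod p), S.Nonempty →
    (∀ α : Fin r → ZMod p, α ≠ 0 →
      ‖∑ i ∈ S, (ZMod.stdAddChar (∑ j, α j * R i j) : ℂ)‖ ≤ S.card * (p : ℝ) ^ (-ε)) →
    ∀ (M : Fin r → ℤ) (L : Fin r → ℕ), (∀ j, L j ≤ p) → (∀ j, (p : ℝ) ^ δ ≤ L j) →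
      (p : ℝ) ^ ((r : ℝ) - ε + δ) ≤ ∏ j, (L j : ℝ) →
    ∀ (c u : Fin r → ℤ) (c₀ : ℤ), ∑ j, u j * c j = 1 → (∑ j, |(u j : ℝ)|) ≤ (p : ℝ) ^ (δ / 8) →
    IF ((p : ℝ) ^ (δ / 8)) (fam S R M L) (fun z => ∑ j, c j * z.2 j + c₀) := by
  have e1 : ∀ᶠ x : ℝ in atTop, (4 * (Real.log x + 3)) ^ r ≤ x ^ (δ / 2) := by
    have h1 : (fun x : ℝ => (4 * (Real.log x + 3)) ^ r) =o[atTop] fun x : ℝ => x ^ (δ / 2) := by
      have h2 : (fun x : ℝ => 4 * (Real.log x + 3)) =O[atTop] Real.log :=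
        ((Asymptotics.isBigO_refl _ _).add (Real.isLittleO_const_log_atTop (c := 3)).isBigO).const_mul_left 4
      have h4 : (fun x : ℝ => Real.log x ^ r) =o[atTop] fun x : ℝ => x ^ (δ / 2) := by
        have h5 := isLittleO_log_rpow_rpow_atTop (s := δ / 2) (r : ℝ) (by positivity)
        refine h5.congr' ?_ (Filter.EventuallyEq.refl _ _)
        filter_upwards with x
        rw [Real.rpow_natCast]
      exact (h2.pow r).trans_isLittleO h4
    have h6 := h1.def (show (0 : ℝ) < 1 by norm_num)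
    filter_upwards [h6, eventually_ge_atTop (1 : ℝ)] with x hx hx1
    have hl := Real.log_nonneg hx1
    rw [Real.norm_of_nonneg (by positivity), Real.norm_of_nonneg (by positivity), one_mul] at hx
    exact hx
  have e2 : ∀ᶠ x : ℝ in atTop, 4 * 2 ^ r + 4 ≤ x ^ (3 * δ / 8) :=
    (tendsto_rpow_atTop (by positivity)).eventually_ge_atTop _
  obtain ⟨x₀, hx₀⟩ := eventually_atTop.mp ((e1.and e2).and (eventually_gt_atTop (1 : ℝ)))
  obtain ⟨p₀, hp₀⟩ := exists_nat_ge x₀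
  refine ⟨p₀, ?_⟩
  intro p hpF hpp ε ι S R hS hE M L hL hLB hvol c u c₀ hu hK α d hd hα
  obtain ⟨⟨g1, g2⟩, g3⟩ := hx₀ p (hp₀.trans (by exact_mod_cast hpp))
  have hp0 : (0 : ℝ) < p := by linarith
  have hmo : ∀ x y : ℝ, x ≤ y → (p : ℝ) ^ x ≤ (p : ℝ) ^ y := fun x y h =>
    Real.rpow_le_rpow_of_exponent_le g3.le h
  have hlog : 0 ≤ Real.log p := Real.log_nonneg g3.le
  have hpow : ∀ x : ℝ, 0 < (p : ℝ) ^ x := fun x => Real.rpow_pos_of_pos hp0 x
  have hScard : (0 : ℝ) < S.card := by exact_mod_cast hS.card_pos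
  have hL0 : ∀ j, (0 : ℝ) < L j := fun j => (hpow δ).trans_le (hLB j)
  obtain ⟨A, hA⟩ : ∃ A : ℝ, A = S.card * ∏ j, ((L j : ℝ) / p) := ⟨_, rfl⟩
  have hA0 : 0 < A := by
    rw [hA]
    exact mul_pos hScard (prod_pos fun j _ => div_pos (hL0 j) hp0)
  have hprod : ∏ j, ((L j : ℝ) / p) = (∏ j, (L j : ℝ)) / (p : ℝ) ^ (r : ℝ) := by
    rw [prod_div_distrib, prod_const, card_univ, Fintype.card_fin, Real.rpow_natCast]
  obtain ⟨E, hEdef⟩ : ∃ E : ℝ, E = S.card * (p : ℝ) ^ (-ε) := ⟨_, rfl⟩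
  have hE0 : 0 ≤ E := by rw [hEdef]; positivity
  -- `E p ^ δ ≤ A`
  have hEA : E * (p : ℝ) ^ δ ≤ A := by
    rw [hA, hprod, hEdef, mul_assoc, ← Real.rpow_add hp0]
    apply mul_le_mul_of_nonneg_left _ hScard.le
    rw [le_div_iff₀ (hpow _), ← Real.rpow_add hp0]
    refine le_trans (le_of_eq ?_) hvol
    congr 1
    ring
  have hlg : (Real.log p + 3) ^ r ≤ (4 * (Real.log p + 3)) ^ r := pow_le_pow_left₀ (by linarith) (by linarith) r
  have hq1 : (p : ℝ) ^ δ = (p : ℝ) ^ (δ / 2) * (p : ℝ) ^ (δ / 2) := by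
    rw [← Real.rpow_add hp0]; congr 1; ring
  have hbig : 4 * 2 ^ r + 4 ≤ (p : ℝ) ^ (δ / 2) := g2.trans (hmo _ _ (by linarith))
  have h2r : (1 : ℝ) ≤ 2 ^ r := one_le_pow₀ (by norm_num)
  have hEl : E * (4 * (Real.log p + 3)) ^ r ≤ A / (p : ℝ) ^ (δ / 2) := by
    rw [le_div_iff₀ (hpow _)]
    calc E * (4 * (Real.log p + 3)) ^ r * (p : ℝ) ^ (δ / 2) ≤ E * (p : ℝ) ^ (δ / 2) * (p : ℝ) ^ (δ / 2) := by
          apply mul_le_mul_of_nonneg_right _ (hpow _).le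
          exact mul_le_mul_of_nonneg_left g1 hE0
      _ = E * (p : ℝ) ^ δ := by rw [hq1]; ring
      _ ≤ A := hEA
  obtain ⟨hcard, -⟩ := fam_equi S hS R E hE0 (by rw [hEdef]; exact hE) M L
    ((p : ℝ) ^ δ) (1 / 2) 1 (Real.one_le_rpow g3.le hδ.le) hLB hL le_rfl g3 (Real.one_le_rpow g3.le hδ.le)
    (by
      rw [← hA]
      refine (mul_le_mul_of_nonneg_left hlg hE0).trans (hEl.trans ?_)
      rw [div_le_iff₀ (hpow _)]
      nlinarith)
    (by
      rw [mul_one_div, div_le_iff₀ (hpow _)]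
      have : (p : ℝ) ^ (δ / 2) ≤ (p : ℝ) ^ δ := hmo _ _ (by linarith)
      linarith) le_rfl
  rw [← hA] at hcard
  obtain ⟨N, hN⟩ : ∃ N : ℝ, N = ((fam S R M L).card : ℝ) := ⟨_, rfl⟩
  rw [← hN] at hcard ⊢
  have hN0 : 0 < N := by linarith
  -- the far coordinate
  obtain ⟨j0, hj0⟩ := far_coord c u ((p : ℝ) ^ (δ / 8)) (hpow _) hu hK α d hd hα
  have hdd := dd_far (div_pos hd (hpow _)) hj0
  have hd2 : d ≤ 1 / 2 := (hα (round α)).trans (abs_sub_round α)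
  -- the weighted count
  have hw := wcount S R (fun j => Ioc (M j) (M j + L j)) (fun j x => ee (α * c j * x)) E hE0
    (by rw [hEdef]; exact hE)
  have hWp : ∏ j, Ww p (fun x => ee (α * c j * x)) (Ioc (M j) (M j + L j)) ≤ (4 * (Real.log p + 3)) ^ r := by
    calc ∏ j, Ww p (fun x => ee (α * c j * x)) (Ioc (M j) (M j + L j)) ≤ ∏ _j : Fin r, (4 * (Real.log p + 3)) :=
          prod_le_prod (fun j _ => Ww_nonneg _ _) fun j _ => Ww_le (α * c j) (M j) (L j) (hL j)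
      _ = _ := by rw [prod_const, card_univ, Fintype.card_fin]
  have hmain : ‖(S.card : ℂ) * ∏ j, ((∑ x ∈ Ioc (M j) (M j + L j), ee (α * c j * x)) / (p : ℂ))‖ ≤
      A * (p : ℝ) ^ (δ / 8) / (2 * d * (p : ℝ) ^ δ) := by
    rw [norm_mul, Complex.norm_natCast, norm_prod]
    have h1 : ∀ j, ‖(∑ x ∈ Ioc (M j) (M j + L j), ee (α * c j * x)) / (p : ℂ)‖ ≤ (L j : ℝ) / p := by
      intro j
      rw [norm_div, Complex.norm_natCast]
      apply div_le_div_of_nonneg_right _ hp0.le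
      refine (norm_sum_le _ _).trans ?_
      rw [sum_congr rfl fun x _ => norm_ee _, sum_const, Pool.Agent.N647.FG.card_Ioc_nat, nsmul_eq_mul, mul_one]
    have h2 : ‖(∑ x ∈ Ioc (M j0) (M j0 + L j0), ee (α * c j0 * x)) / (p : ℂ)‖ ≤
        (L j0 : ℝ) / p * ((p : ℝ) ^ (δ / 8) / (2 * d * (p : ℝ) ^ δ)) := by
      rw [norm_div, Complex.norm_natCast, div_mul_eq_mul_div]
      apply div_le_div_of_nonneg_right _ hp0.le
      have h3 := geo_le (α * c j0) (M j0) (L j0)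
      obtain ⟨G, hG⟩ : ∃ G : ℝ, G = ‖∑ x ∈ Ioc (M j0) (M j0 + L j0), ee (α * c j0 * x)‖ := ⟨_, rfl⟩
      rw [← hG] at h3 ⊢
      have hG0 : 0 ≤ G := by rw [hG]; exact norm_nonneg _
      have h4 : 4 * (d / (p : ℝ) ^ (δ / 8)) * G ≤ 2 := (mul_le_mul_of_nonneg_right hdd hG0).trans h3
      have h5 : G ≤ (p : ℝ) ^ (δ / 8) / (2 * d) := by
        rw [le_div_iff₀ (by positivity)]
        have h6 : 4 * (d / (p : ℝ) ^ (δ / 8)) * G = 2 * (G * (2 * d)) / (p : ℝ) ^ (δ / 8) := by ring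
        rw [h6, div_le_iff₀ (hpow _)] at h4
        linarith
      refine h5.trans ?_
      rw [mul_div_assoc', div_le_div_iff₀ (by positivity) (by have := hpow δ; positivity)]
      have h7 := hLB j0
      have h8 : 0 ≤ (p : ℝ) ^ (δ / 8) * (2 * d) := by have := hpow (δ / 8); positivity
      calc (p : ℝ) ^ (δ / 8) * (2 * d * (p : ℝ) ^ δ) = (p : ℝ) ^ (δ / 8) * (2 * d) * (p : ℝ) ^ δ := by ring
        _ ≤ (p : ℝ) ^ (δ / 8) * (2 * d) * L j0 := mul_le_mul_of_nonneg_left h7 h8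
        _ = _ := by ring
    rw [hA, ← mul_prod_erase univ _ (mem_univ j0), ← mul_prod_erase univ (fun j => (L j : ℝ) / p) (mem_univ j0)]
    have h3 : ∏ j ∈ univ.erase j0, ‖(∑ x ∈ Ioc (M j) (M j + L j), ee (α * c j * x)) / (p : ℂ)‖ ≤
        ∏ j ∈ univ.erase j0, ((L j : ℝ) / p) := prod_le_prod (fun j _ => norm_nonneg _) fun j _ => h1 j
    have h4 : 0 ≤ (p : ℝ) ^ (δ / 8) / (2 * d * (p : ℝ) ^ δ) := by
      have := hpow (δ / 8); have := hpow δ; positivity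
    have h5 : 0 ≤ (L j0 : ℝ) / p := by positivity
    calc (S.card : ℝ) * (‖(∑ x ∈ Ioc (M j0) (M j0 + L j0), ee (α * c j0 * x)) / (p : ℂ)‖ *
          ∏ j ∈ univ.erase j0, ‖(∑ x ∈ Ioc (M j) (M j + L j), ee (α * c j * x)) / (p : ℂ)‖)
        ≤ (S.card : ℝ) * ((L j0 : ℝ) / p * ((p : ℝ) ^ (δ / 8) / (2 * d * (p : ℝ) ^ δ)) *
          ∏ j ∈ univ.erase j0, ((L j : ℝ) / p)) := by
          apply mul_le_mul_of_nonneg_left _ hScard.le
          exact mul_le_mul h2 h3 (prod_nonneg fun j _ => norm_nonneg _) (mul_nonneg h5 h4)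
      _ = _ := by ring
  have hsum : ‖∑ z ∈ fam S R M L, ee (α * ((∑ j, c j * z.2 j + c₀ : ℤ) : ℝ))‖ ≤
      A * (p : ℝ) ^ (δ / 8) / (2 * d * (p : ℝ) ^ δ) + A / (p : ℝ) ^ (δ / 2) := by
    rw [fam_tw, norm_mul, norm_ee, one_mul]
    have h1 := norm_add_le
      ((∑ i ∈ S, ∏ j, ∑ x ∈ (Ioc (M j) (M j + L j)).filter (fun x : ℤ => (x : ZMod p) = R i j), ee (α * c j * x)) -
        (S.card : ℂ) * ∏ j, ((∑ x ∈ Ioc (M j) (M j + L j), ee (α * c j * x)) / (p : ℂ)))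
      ((S.card : ℂ) * ∏ j, ((∑ x ∈ Ioc (M j) (M j + L j), ee (α * c j * x)) / (p : ℂ)))
    rw [sub_add_cancel] at h1
    refine h1.trans ?_
    have h2 := hw.trans ((mul_le_mul_of_nonneg_left hWp hE0).trans hEl)
    linarith [h2, hmain]
  refine hsum.trans ?_
  -- the comparison
  have hAN : A ≤ 2 * N := by linarith
  have f1 : A * (p : ℝ) ^ (δ / 8) / (2 * d * (p : ℝ) ^ δ) ≤ N / (d * (p : ℝ) ^ (δ / 8)) / 2 := by
    rw [div_div, div_le_div_iff₀ (by have := hpow δ; positivity) (by have := hpow (δ / 8); positivity)]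
    have h1 : (p : ℝ) ^ (δ / 8) * (p : ℝ) ^ (δ / 8) * 2 ≤ (p : ℝ) ^ δ := by
      have h2 : (p : ℝ) ^ δ = (p : ℝ) ^ (δ / 8) * (p : ℝ) ^ (δ / 8) * ((p : ℝ) ^ (3 * δ / 8) * (p : ℝ) ^ (3 * δ / 8)) := by
        rw [← Real.rpow_add hp0, ← Real.rpow_add hp0, ← Real.rpow_add hp0]; congr 1; ring
      rw [h2]
      apply mul_le_mul_of_nonneg_left _ (by have := hpow (δ / 8); positivity)
      nlinarith
    have h3 : 0 ≤ d := hd.le
    calc A * (p : ℝ) ^ (δ / 8) * (d * (p : ℝ) ^ (δ / 8) * 2) = A * d * ((p : ℝ) ^ (δ / 8) * (p : ℝ) ^ (δ / 8) * 2) := by ring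
      _ ≤ (2 * N) * d * (p : ℝ) ^ δ := by
          apply mul_le_mul _ h1 (by have := hpow (δ / 8); positivity) (by positivity)
          exact mul_le_mul_of_nonneg_right hAN h3
      _ = _ := by ring
  have f2 : A / (p : ℝ) ^ (δ / 2) ≤ N / (d * (p : ℝ) ^ (δ / 8)) / 2 := by
    rw [div_div, div_le_div_iff₀ (hpow _) (by have := hpow (δ / 8); positivity)]
    have h1 : 4 * (p : ℝ) ^ (δ / 8) ≤ (p : ℝ) ^ (δ / 2) := by
      have h2 : (p : ℝ) ^ (δ / 2) = (p : ℝ) ^ (3 * δ / 8) * (p : ℝ) ^ (δ / 8) := by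
        rw [← Real.rpow_add hp0]; congr 1; ring
      rw [h2]
      apply mul_le_mul_of_nonneg_right _ (hpow _).le
      linarith
    have h3 := hpow (δ / 8)
    calc A * (d * (p : ℝ) ^ (δ / 8) * 2) ≤ (2 * N) * (1 / 2 * (p : ℝ) ^ (δ / 8) * 2) := by
          apply mul_le_mul hAN _ (by positivity) (by positivity)
          nlinarith
      _ = N / 2 * (4 * (p : ℝ) ^ (δ / 8)) := by ring
      _ ≤ N * (p : ℝ) ^ (δ / 2) := by
          have := mul_le_mul_of_nonneg_left h1 hN0.le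
          have h4 : 0 ≤ N * (4 * (p : ℝ) ^ (δ / 8)) := by positivity
          linarith
  linarith

end Run7.h914.IFm
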