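import Pool.Agent.Run7.h914.IFm.Bez

/-! Bounds for the proportion of the points of curves and of the solutions of systems modulo `p` for which a linear form of the
coordinates is bad, from bounds for families of integers with small exponential sums. -/

set_option autoImplicit false
set_option linter.all false

namespace Run7.h914.IFm.P2

open Finset Filter Polynomial
open Pool.Agent.N39.RG (fam)
open Run7.h914.IFm.RP (IF)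
open Run7.h914.IFm (IF_fam fam_ncard bez)
open Run7.h914 (SysS sys_sum ev_large ev_const sqrt_pow_rpow ZG TD AbsIrr exists_deg card_curve exp_curve EG WC_le EG_le mem_ZG)
open Pool.Agent.R410.PW (WC)

open scoped Classical in
/-- a bound for the bad members of families of integers with small exponential sums -/
def FamBd (Bad : ℕ → ℤ → Prop) (Φ : ℕ → ℝ → ℝ) : Prop :=
  ∃ C : ℝ, 1 ≤ C ∧ ∃ T₀ : ℝ, ∀ T : ℝ, T₀ ≤ T → ∀ (ι : Type) (s : Finset ι) (v : ι → ℤ), IF T s v → ∀ H : ℕ, 1 ≤ H →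
    ((s.filter fun i => Bad H (v i)).card : ℝ) ≤ C * (Φ H (Real.log T) * s.card)

/-- the dependence on the logarithm -/
def Scale (Φ : ℕ → ℝ → ℝ) (k : ℕ) : Prop :=
  ∀ (H : ℕ) (a x : ℝ), 0 < a → a ≤ 1 → 0 < x → Φ H (a * x) ≤ (1 / a) ^ k * Φ H x

theorem pts_bad (Bad : ℕ → ℤ → Prop) (Φ : ℕ → ℝ → ℝ) (k : ℕ) (hΦ : Scale Φ k) (hB : FamBd Bad Φ) (r : ℕ) (δ : ℝ) (hδ : 0 < δ) (hδ1 : δ ≤ 1) :
    ∃ C : ℝ, 0 < C ∧ ∃ p₀ : ℕ, ∀ (p : ℕ) [Fact p.Prime], p₀ ≤ p →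
    ∀ (s ε : ℝ) (S : Finset (Fin r → ZMod p)), (p : ℝ) ^ s / 2 ≤ S.card →
    (∀ α : Fin r → ZMod p, α ≠ 0 →
      ‖∑ x ∈ S, (ZMod.stdAddChar (∑ j, α j * x j) : ℂ)‖ ≤ (p : ℝ) ^ (δ / 8) * (p : ℝ) ^ (s - ε)) →
    ∀ (M : Fin r → ℤ) (L : Fin r → ℕ), (∀ j, (p : ℝ) ^ δ ≤ L j ∧ L j ≤ p) →
      (p : ℝ) ^ ((r : ℝ) - ε + δ) ≤ ∏ j, (L j : ℝ) →
    ∀ (c u : Fin r → ℤ) (c₀ : ℤ), ∑ j, u j * c j = 1 → (∑ j, |(u j : ℝ)|) ≤ (p : ℝ) ^ (δ / 16) → ∀ H : ℕ, 1 ≤ H →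
    (Set.ncard {z : Fin r → ℤ | (∀ j, M j < z j ∧ z j ≤ M j + L j) ∧ (fun j => (z j : ZMod p)) ∈ S ∧
        Bad H (∑ j, c j * z j + c₀)} : ℝ) ≤
      C * (Φ H (Real.log p) * (Set.ncard {z : Fin r → ℤ | (∀ j, M j < z j ∧ z j ≤ M j + L j) ∧
        (fun j => (z j : ZMod p)) ∈ S} : ℝ)) := by
  classical
  obtain ⟨C, hC, T₀, hT⟩ := hB
  obtain ⟨p₁, h⟩ := IF_fam r (δ / 2) (by linarith) (by linarith)
  have hev : ∀ᶠ x : ℝ in atTop, 2 ≤ x ^ (δ / 8) ∧ T₀ ≤ x ^ (δ / 16) := by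
    filter_upwards [(tendsto_rpow_atTop (by positivity : 0 < δ / 8)).eventually_ge_atTop 2,
      (tendsto_rpow_atTop (by positivity : 0 < δ / 16)).eventually_ge_atTop T₀] with x h1 h2
    exact ⟨h1, h2⟩
  obtain ⟨x₀, hx₀⟩ := eventually_atTop.mp hev
  obtain ⟨p₂, hp₂⟩ := exists_nat_ge x₀
  refine ⟨C * (16 / δ) ^ k, by positivity, max p₁ p₂, ?_⟩
  intro p _ hpp s ε S hS hE M L hL hV c u c₀ hu hK H hH
  have hp : p.Prime := Fact.out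
  obtain ⟨gC, gT⟩ := hx₀ p (hp₂.trans (by exact_mod_cast (le_max_right _ _).trans hpp))
  have hp1 : (1 : ℝ) < p := by exact_mod_cast hp.one_lt
  have hp0 : (0 : ℝ) < p := by linarith
  have hmo : ∀ x y : ℝ, x ≤ y → (p : ℝ) ^ x ≤ (p : ℝ) ^ y := fun x y h =>
    Real.rpow_le_rpow_of_exponent_le hp1.le h
  have hs0 : (0 : ℝ) < (p : ℝ) ^ s := Real.rpow_pos_of_pos hp0 _
  have hSne : S.Nonempty := by
    rw [← Finset.card_pos]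
    have : (0 : ℝ) < S.card := by linarith
    exact_mod_cast this
  have key := h p ((le_max_left _ _).trans hpp) (ε - δ / 4) (Fin r → ZMod p) S (fun x => x) hSne (by
      intro α hα
      refine (hE α hα).trans ?_
      have h1 : (p : ℝ) ^ s / 2 * (p : ℝ) ^ (-(ε - δ / 4)) ≤ S.card * (p : ℝ) ^ (-(ε - δ / 4)) :=
        mul_le_mul_of_nonneg_right hS (Real.rpow_nonneg hp0.le _)
      refine le_trans ?_ h1
      have h2 : (p : ℝ) ^ s / 2 * (p : ℝ) ^ (-(ε - δ / 4)) = (p : ℝ) ^ (s - ε) * (p : ℝ) ^ (δ / 4) / 2 := by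
        rw [← Real.rpow_add hp0, div_mul_eq_mul_div, ← Real.rpow_add hp0]
        congr 2
        ring
      rw [h2]
      have h3 : 0 ≤ (p : ℝ) ^ (s - ε) := Real.rpow_nonneg hp0.le _
      have h4 : (p : ℝ) ^ (δ / 4) = (p : ℝ) ^ (δ / 8) * (p : ℝ) ^ (δ / 8) := by
        rw [← Real.rpow_add hp0]; congr 1; ring
      have h5 : 0 < (p : ℝ) ^ (δ / 8) := Real.rpow_pos_of_pos hp0 _
      have h6 : 2 * (p : ℝ) ^ (δ / 8) ≤ (p : ℝ) ^ (δ / 4) := by rw [h4]; exact mul_le_mul_of_nonneg_right gC h5.le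
      have h7 := mul_le_mul_of_nonneg_left h6 h3
      linarith) M L (fun j => (hL j).2) (fun j => (hmo _ _ (by linarith)).trans (hL j).1)
    ((hmo _ _ (by linarith)).trans hV) c u c₀ hu (hK.trans (hmo _ _ (by linarith)))
  have e16 : δ / 2 / 8 = δ / 16 := by ring
  rw [e16] at key
  have h5 := hT ((p : ℝ) ^ (δ / 16)) gT _ (fam S (fun x => x) M L) (fun z => ∑ j, c j * z.2 j + c₀) key H hH
  have h6 := fam_ncard S M L (fun z => Bad H (∑ j, c j * z j + c₀))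
  have h7 := fam_ncard S M L (fun _ => True)
  simp only [and_true, Finset.filter_true] at h7
  rw [h6, h7]
  refine h5.trans ?_
  rw [Real.log_rpow hp0]
  have hl : 0 < Real.log p := Real.log_pos hp1
  have h8 := hΦ H (δ / 16) (Real.log p) (by positivity) (by linarith) hl
  rw [one_div_div] at h8
  have h9 : (0 : ℝ) ≤ ((fam S (fun x => x) M L).card : ℝ) := Nat.cast_nonneg _
  have h10 := mul_le_mul_of_nonneg_right h8 h9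
  have h11 := mul_le_mul_of_nonneg_left h10 (by linarith : (0 : ℝ) ≤ C)
  refine h11.trans (le_of_eq ?_)
  ring

/-- **Systems.** -/
theorem sys_bad (Bad : ℕ → ℤ → Prop) (Φ : ℕ → ℝ → ℝ) (κ : ℕ) (hΦ : Scale Φ κ) (hB : FamBd Bad Φ) (n k : ℕ) (hn : 2 * k < n) (δ : ℝ)
    (hδ : 0 < δ) (hδ1 : δ ≤ 1) :
    ∃ K : ℝ, 0 < K ∧ ∃ p₀ : ℕ, ∀ (p : ℕ) [Fact p.Prime], p₀ ≤ p →
    ∀ (d : ℕ) (f : Fin n → Fin k → (ZMod p)[X]) (b : Fin k → ZMod p), (d : ℝ) ≤ (p : ℝ) ^ (δ / (50 * n)) →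
    (∀ i j, (f i j).natDegree ≤ d) →
    (∀ i, ∀ (t : Fin k → ZMod p) (a c : ZMod p), ∑ j, C (t j) * f i j = C a * X + C c → t = 0) →
    ∀ (M : Fin n → ℤ) (L : Fin n → ℕ), (∀ j, (p : ℝ) ^ δ ≤ L j ∧ L j ≤ p) →
      (p : ℝ) ^ ((n : ℝ) / 2 + k + δ) ≤ ∏ j, (L j : ℝ) →
    ∀ (c u : Fin n → ℤ) (c₀ : ℤ), ∑ j, u j * c j = 1 → (∑ j, |(u j : ℝ)|) ≤ (p : ℝ) ^ (δ / 16) → ∀ H : ℕ, 1 ≤ H →
    (Set.ncard {z : Fin n → ℤ | (∀ j, M j < z j ∧ z j ≤ M j + L j) ∧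
        (∀ j, ∑ i, (f i j).eval (z i : ZMod p) = b j) ∧ Bad H (∑ j, c j * z j + c₀)} : ℝ) ≤
      K * (Φ H (Real.log p) * (Set.ncard {z : Fin n → ℤ | (∀ j, M j < z j ∧ z j ≤ M j + L j) ∧
        (∀ j, ∑ i, (f i j).eval (z i : ZMod p) = b j)} : ℝ)) := by
  classical
  have hn0 : 0 < n := by omega
  have hnr : (1 : ℝ) ≤ n := by exact_mod_cast hn0
  obtain ⟨K, hK, p₁, h⟩ := pts_bad Bad Φ κ hΦ hB n δ hδ hδ1
  obtain ⟨p₂, h2⟩ := ev_large (δ / n) (by positivity) (by rw [div_le_one (by linarith)]; linarith)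
  obtain ⟨p₃, h3⟩ := ev_const (1 / 4) 2 (by norm_num)
  refine ⟨K, hK, max p₁ (max p₂ p₃), ?_⟩
  intro p _ hpp d f b hdp hf hind M L hL hV c u c₀ hu hcu H hH
  have hp : p.Prime := Fact.out
  have e1 : p₁ ≤ p := (le_max_left _ _).trans hpp
  have e2 : p₂ ≤ p := ((le_max_left _ _).trans (le_max_right _ _)).trans hpp
  have e3 : p₃ ≤ p := ((le_max_right _ _).trans (le_max_right _ _)).trans hpp
  have hp0 : (0 : ℝ) < p := by exact_mod_cast hp.pos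
  have hp1 : (1 : ℝ) < p := by exact_mod_cast hp.one_lt
  -- we may suppose `1 ≤ d`
  have hδn : 0 < δ / (50 * n) := by positivity
  obtain ⟨D, hD1, hdD, hDp⟩ : ∃ D : ℕ, 1 ≤ D ∧ d ≤ D ∧ (D : ℝ) ≤ (p : ℝ) ^ (δ / n / 50) := by
    have e : δ / n / 50 = δ / (50 * n) := by field_simp
    rw [e]
    rcases Nat.eq_zero_or_pos d with h0 | h0
    · refine ⟨1, le_refl _, by omega, ?_⟩
      rw [Nat.cast_one]
      exact Real.one_le_rpow hp1.le hδn.le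
    · exact ⟨d, h0, le_refl _, hdp⟩
  obtain ⟨a1, a2, a3, a4⟩ := h2 p e2 D hDp
  have hf' : ∀ i j, (f i j).natDegree ≤ D := fun i j => (hf i j).trans hdD
  set W : ℝ := 13 * (D + 1 : ℝ) ^ 4 with hW
  have hW0 : 0 ≤ W := by rw [hW]; positivity
  have hWn : W ^ n ≤ (p : ℝ) ^ (δ / 8) := by
    have h5 : W ≤ (p : ℝ) ^ (δ / n / 8) := by
      have : (0 : ℝ) ≤ (D + 1 : ℝ) ^ 4 := by positivity
      rw [hW]
      linarith
    refine (pow_le_pow_left₀ hW0 h5 n).trans (le_of_eq ?_)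
    rw [← Real.rpow_natCast, ← Real.rpow_mul hp0.le]
    congr 1
    field_simp
  have hmo : ∀ x y : ℝ, x ≤ y → (p : ℝ) ^ x ≤ (p : ℝ) ^ y := fun x y h =>
    Real.rpow_le_rpow_of_exponent_le hp1.le h
  have hkr : 2 * (k : ℝ) + 1 ≤ n := by exact_mod_cast hn
  have hbound : (W * √(p : ℝ)) ^ n = W ^ n * (p : ℝ) ^ ((n : ℝ) / 2) := by
    rw [mul_pow, sqrt_pow_rpow hp.pos]
  set S := SysS f b with hS
  have hpk : (0 : ℝ) < (p : ℝ) ^ k := by positivity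
  have hcard : (p : ℝ) ^ ((n : ℝ) - k) / 2 ≤ S.card := by
    have h5 := sys_sum hf' hD1 hind a4 b 0
    rw [if_pos rfl, ← hW, hbound] at h5
    simp only [Pi.zero_apply, zero_mul, Finset.sum_const_zero, AddChar.map_zero_eq_one, Finset.sum_const, nsmul_eq_mul,
      mul_one] at h5
    have h6 : (p : ℝ) ^ n - (p : ℝ) ^ k * S.card ≤ (p : ℝ) ^ k * (W ^ n * (p : ℝ) ^ ((n : ℝ) / 2)) := by
      refine le_trans ?_ h5
      rw [norm_sub_rev]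
      have h7 : ((p : ℂ) ^ n - (p : ℂ) ^ k * (S.card : ℂ)) = (((p : ℝ) ^ n - (p : ℝ) ^ k * S.card : ℝ) : ℂ) := by
        push_cast; ring
      rw [← hS, h7, Complex.norm_real]
      exact le_abs_self _
    have h7 : (p : ℝ) ^ n = (p : ℝ) ^ k * (p : ℝ) ^ ((n : ℝ) - k) := by
      rw [← Real.rpow_natCast _ k, ← Real.rpow_add hp0, ← Real.rpow_natCast]
      congr 1
      ring
    have h8 : (p : ℝ) ^ k * ((p : ℝ) ^ ((n : ℝ) - k) - S.card) ≤ (p : ℝ) ^ k * (W ^ n * (p : ℝ) ^ ((n : ℝ) / 2)) := by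
      rw [mul_sub, ← h7]; exact h6
    have h9 := le_of_mul_le_mul_left h8 hpk
    have h10 : 2 * (W ^ n * (p : ℝ) ^ ((n : ℝ) / 2)) ≤ (p : ℝ) ^ ((n : ℝ) - k) := by
      have h11 : (p : ℝ) ^ ((1 : ℝ) / 4) * ((p : ℝ) ^ (δ / 8) * (p : ℝ) ^ ((n : ℝ) / 2)) ≤ (p : ℝ) ^ ((n : ℝ) - k) := by
        rw [← Real.rpow_add hp0, ← Real.rpow_add hp0]
        exact hmo _ _ (by linarith)
      refine le_trans ?_ h11
      have h12 : (0 : ℝ) ≤ (p : ℝ) ^ ((n : ℝ) / 2) := Real.rpow_nonneg hp0.le _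
      have h13 : (0 : ℝ) ≤ (p : ℝ) ^ (δ / 8) := Real.rpow_nonneg hp0.le _
      exact mul_le_mul (h3 p e3) (mul_le_mul_of_nonneg_right hWn h12) (by positivity) (Real.rpow_nonneg hp0.le _)
    linarith
  have key := h p e1 ((n : ℝ) - k) ((n : ℝ) / 2 - k) S hcard (by
    intro α hα
    have h5 := sys_sum hf' hD1 hind a4 b α
    rw [if_neg hα, sub_zero, norm_mul, norm_pow, Complex.norm_natCast, ← hW, hbound] at h5
    have h7 := le_of_mul_le_mul_left h5 hpk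
    have e : (n : ℝ) - k - ((n : ℝ) / 2 - k) = (n : ℝ) / 2 := by ring
    rw [e]
    exact h7.trans (mul_le_mul_of_nonneg_right hWn (Real.rpow_nonneg hp0.le _))) M L hL (by
      have e : (n : ℝ) - ((n : ℝ) / 2 - k) + δ = (n : ℝ) / 2 + k + δ := by ring
      rw [e]; exact hV) c u c₀ hu hcu H hH
  have e1 : {z : Fin n → ℤ | (∀ j, M j < z j ∧ z j ≤ M j + L j) ∧
        (∀ j, ∑ i, (f i j).eval (z i : ZMod p) = b j) ∧ Bad H (∑ j, c j * z j + c₀)} =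
      {z : Fin n → ℤ | (∀ j, M j < z j ∧ z j ≤ M j + L j) ∧ (fun j => (z j : ZMod p)) ∈ S ∧
        Bad H (∑ j, c j * z j + c₀)} := by
    ext z
    simp only [Set.mem_setOf_eq, hS, SysS, mem_filter, mem_univ, true_and]
  have e2 : {z : Fin n → ℤ | (∀ j, M j < z j ∧ z j ≤ M j + L j) ∧
        (∀ j, ∑ i, (f i j).eval (z i : ZMod p) = b j)} =
      {z : Fin n → ℤ | (∀ j, M j < z j ∧ z j ≤ M j + L j) ∧ (fun j => (z j : ZMod p)) ∈ S} := by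
    ext z
    simp only [Set.mem_setOf_eq, hS, SysS, mem_filter, mem_univ, true_and]
  rw [e1, e2]
  exact key


/-- **Plane curves.** -/
theorem curve_bad (Bad : ℕ → ℤ → Prop) (Φ : ℕ → ℝ → ℝ) (κ : ℕ) (hΦ : Scale Φ κ) (hB : FamBd Bad Φ) (δ : ℝ) (hδ : 0 < δ) (hδ1 : δ ≤ 1) :
    ∃ K : ℝ, 0 < K ∧ ∃ p₀ : ℕ, ∀ (p : ℕ) [Fact p.Prime], p₀ ≤ p →
    ∀ (d : ℕ) (F : (ZMod p)[X][X]), (d : ℝ) ≤ (p : ℝ) ^ (δ / 50) → TD F d → (∃ i j, 2 ≤ i + j ∧ (F.coeff i).coeff j ≠ 0) → AbsIrr F →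
    ∀ (M : Fin 2 → ℤ) (L : Fin 2 → ℕ), (∀ j, (p : ℝ) ^ δ ≤ L j ∧ L j ≤ p) →
      (p : ℝ) ^ (3 / 2 + δ) ≤ L 0 * L 1 →
    ∀ (c u : Fin 2 → ℤ) (c₀ : ℤ), ∑ j, u j * c j = 1 → (∑ j, |(u j : ℝ)|) ≤ (p : ℝ) ^ (δ / 16) → ∀ H : ℕ, 1 ≤ H →
    (Set.ncard {z : Fin 2 → ℤ | (∀ j, M j < z j ∧ z j ≤ M j + L j) ∧
        evalEval (z 0 : ZMod p) (z 1 : ZMod p) F = 0 ∧ Bad H (∑ j, c j * z j + c₀)} : ℝ) ≤
      K * (Φ H (Real.log p) * (Set.ncard {z : Fin 2 → ℤ | (∀ j, M j < z j ∧ z j ≤ M j + L j) ∧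
        evalEval (z 0 : ZMod p) (z 1 : ZMod p) F = 0} : ℝ)) := by
  classical
  obtain ⟨K, hK, p₁, h⟩ := pts_bad Bad Φ κ hΦ hB 2 δ hδ hδ1
  obtain ⟨p₂, h'⟩ := ev_large δ hδ hδ1
  refine ⟨K, hK, max p₁ p₂, ?_⟩
  intro p _ hpp d F hdp hF hij hirr M L hL hV c u c₀ hu hcu H hH
  have hp : p.Prime := Fact.out
  have hp1 : p₁ ≤ p := (le_max_left _ _).trans hpp
  obtain ⟨a1, a2, a3, a4⟩ := h' p ((le_max_right _ _).trans hpp) d hdp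
  have hp0 : (0 : ℝ) < p := by exact_mod_cast hp.pos
  obtain ⟨i, j, hij1, hij2⟩ := hij
  obtain ⟨m, hm2, hmd, hTD, i', hi', htop⟩ := exists_deg hF hij1 hij2
  have hmp : m * m < p := lt_of_le_of_lt (Nat.mul_le_mul (by omega) (by omega)) a4
  have hcard := card_curve hTD hi' htop hm2 hmp hirr
  have hsq : √(p : ℝ) ^ 2 = p := Real.sq_sqrt hp0.le
  have hsq0 : 0 < √(p : ℝ) := Real.sqrt_pos.2 hp0
  have hmd' : (m : ℝ) ≤ d + 1 := by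
    have : (m : ℝ) ≤ d := by exact_mod_cast hmd
    linarith
  have hm4 : (m : ℝ) ^ 4 ≤ (d + 1 : ℝ) ^ 4 := pow_le_pow_left₀ (Nat.cast_nonneg m) hmd' 4
  have hWs : (WC m m (2 * m * m) : ℝ) * √(p : ℝ) ≤ p / 2 := by
    have h1 : (WC m m (2 * m * m) : ℝ) ≤ 9 * (m : ℝ) ^ 4 := by exact_mod_cast WC_le (m := m) (by omega)
    have h2 : 2 * (WC m m (2 * m * m) : ℝ) ≤ √(p : ℝ) := by
      have : (0 : ℝ) ≤ (d + 1 : ℝ) ^ 4 := by positivity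
      linarith
    nlinarith
  have hZ : (p : ℝ) / 2 ≤ (ZG F).card := by
    rw [abs_le] at hcard
    linarith [hcard.1]
  -- the set of the points as vectors
  obtain ⟨S, hS⟩ : ∃ S : Finset (Fin 2 → ZMod p), S = (ZG F).image (fun q : ZMod p × ZMod p => (![q.1, q.2] : Fin 2 → ZMod p)) :=
    ⟨_, rfl⟩
  have hinj : Function.Injective (fun q : ZMod p × ZMod p => (![q.1, q.2] : Fin 2 → ZMod p)) := by
    intro q q' hq
    have h0 := congrFun hq 0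
    have h1 := congrFun hq 1
    exact Prod.ext h0 h1
  have hScard : S.card = (ZG F).card := by rw [hS, card_image_of_injective _ hinj]
  have hmemS : ∀ x : Fin 2 → ZMod p, x ∈ S ↔ evalEval (x 0) (x 1) F = 0 := by
    intro x
    rw [hS, mem_image]
    constructor
    · rintro ⟨q, hq, rfl⟩
      exact mem_ZG.1 hq
    · intro hx
      refine ⟨(x 0, x 1), mem_ZG.2 hx, ?_⟩
      funext j
      fin_cases j <;> rfl
  have hrp : √(p : ℝ) = (p : ℝ) ^ ((1 : ℝ) - 1 / 2) := by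
    rw [Real.sqrt_eq_rpow]; norm_num
  have key := h p hp1 1 (1 / 2) S (by rw [Real.rpow_one, hScard]; exact hZ) (by
      intro α hα
      have h1 : α 0 ≠ 0 ∨ α 1 ≠ 0 := by
        by_contra hc
        push Not at hc
        apply hα
        funext j
        fin_cases j
        · exact hc.1
        · exact hc.2
      have h2 := exp_curve hTD hi' htop hm2 hmp hirr (α 0) (α 1) h1
      rw [hS, sum_image (fun x _ y _ hxy => hinj hxy)]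
      have h3 : ∀ q : ZMod p × ZMod p, (∑ j : Fin 2, α j * (![q.1, q.2] : Fin 2 → ZMod p) j) = α 0 * q.1 + α 1 * q.2 := by
        intro q
        rw [Fin.sum_univ_two]
        rfl
      simp_rw [h3]
      rw [← hrp]
      refine h2.trans (mul_le_mul_of_nonneg_right ?_ hsq0.le)
      have h4 : (EG m m (2 * m * m) : ℝ) ≤ 12 * (m : ℝ) ^ 4 := by exact_mod_cast EG_le (m := m) (by omega)
      have : (0 : ℝ) ≤ (d + 1 : ℝ) ^ 4 := by positivity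
      linarith) M L hL (by
      rw [Fin.prod_univ_two]
      refine le_trans (le_of_eq ?_) hV
      congr 1
      norm_num) c u c₀ hu hcu H hH
  simp only [hmemS] at key
  exact key

theorem curve_bad2 (Bad : ℕ → ℤ → Prop) (Φ : ℕ → ℝ → ℝ) (κ : ℕ) (hΦ : Scale Φ κ) (hB : FamBd Bad Φ) (δ : ℝ) (hδ : 0 < δ) (hδ1 : δ ≤ 1) :
    ∃ K : ℝ, 0 < K ∧ ∃ p₀ : ℕ, ∀ (p : ℕ) [Fact p.Prime], p₀ ≤ p →
    ∀ (d : ℕ) (F : (ZMod p)[X][X]), (d : ℝ) ≤ (p : ℝ) ^ (δ / 50) → TD F d → (∃ i j, 2 ≤ i + j ∧ (F.coeff i).coeff j ≠ 0) → AbsIrr F →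
    ∀ (M₁ M₂ : ℤ) (L₁ L₂ : ℕ), (p : ℝ) ^ δ ≤ L₁ → L₁ ≤ p → (p : ℝ) ^ δ ≤ L₂ → L₂ ≤ p →
      (p : ℝ) ^ (3 / 2 + δ) ≤ L₁ * L₂ →
    ∀ (c₁ c₂ c₀ : ℤ), IsCoprime c₁ c₂ → |(c₁ : ℝ)| ≤ (p : ℝ) ^ (δ / 20) → |(c₂ : ℝ)| ≤ (p : ℝ) ^ (δ / 20) → ∀ H : ℕ, 1 ≤ H →
    (Set.ncard {z : ℤ × ℤ | (M₁ < z.1 ∧ z.1 ≤ M₁ + L₁) ∧ (M₂ < z.2 ∧ z.2 ≤ M₂ + L₂) ∧
        evalEval (z.1 : ZMod p) (z.2 : ZMod p) F = 0 ∧ Bad H (c₁ * z.1 + c₂ * z.2 + c₀)} : ℝ) ≤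
      K * (Φ H (Real.log p) * (Set.ncard {z : ℤ × ℤ | (M₁ < z.1 ∧ z.1 ≤ M₁ + L₁) ∧ (M₂ < z.2 ∧ z.2 ≤ M₂ + L₂) ∧
        evalEval (z.1 : ZMod p) (z.2 : ZMod p) F = 0} : ℝ)) := by
  obtain ⟨K, hK, p₁, h⟩ := curve_bad Bad Φ κ hΦ hB δ hδ hδ1
  obtain ⟨p₂, h2⟩ := ev_const (δ / 80) 3 (by positivity)
  refine ⟨K, hK, max p₁ p₂, ?_⟩
  intro p _ hpp d F hd hF hF1 hirr M₁ M₂ L₁ L₂ l1 l2 l3 l4 hV c₁ c₂ c₀ hco hc1 hc2 H hH
  have hp : p.Prime := Fact.out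
  have hp1 : (1 : ℝ) < p := by exact_mod_cast hp.one_lt
  have hp0 : (0 : ℝ) < p := by linarith
  obtain ⟨u₁, u₂, hu, hu2⟩ := bez c₁ c₂ hco
  have h3 := h2 p ((le_max_right _ _).trans hpp)
  have key := h p ((le_max_left _ _).trans hpp) d F hd hF hF1 hirr (![M₁, M₂]) (![L₁, L₂]) (by
    intro j
    fin_cases j
    · exact ⟨l1, l2⟩
    · exact ⟨l3, l4⟩) hV (![c₁, c₂]) (![u₁, u₂]) c₀ (by
      rw [Fin.sum_univ_two]
      exact hu) (by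
      rw [Fin.sum_univ_two]
      have h4 : |(u₁ : ℝ)| + |(u₂ : ℝ)| ≤ |(c₁ : ℝ)| + |(c₂ : ℝ)| + 1 := by exact_mod_cast hu2
      have h5 : (1 : ℝ) ≤ (p : ℝ) ^ (δ / 20) := Real.one_le_rpow hp1.le (by positivity)
      have h6 : 3 * (p : ℝ) ^ (δ / 20) ≤ (p : ℝ) ^ (δ / 16) := by
        have : (p : ℝ) ^ (δ / 16) = (p : ℝ) ^ (δ / 80) * (p : ℝ) ^ (δ / 20) := by
          rw [← Real.rpow_add hp0]; congr 1; ring
        rw [this]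
        exact mul_le_mul_of_nonneg_right h3 (by linarith)
      show |(u₁ : ℝ)| + |(u₂ : ℝ)| ≤ _
      linarith) H hH
  have e1 : ∀ P : ℤ × ℤ → Prop, Set.ncard {z : ℤ × ℤ | (M₁ < z.1 ∧ z.1 ≤ M₁ + L₁) ∧ (M₂ < z.2 ∧ z.2 ≤ M₂ + L₂) ∧ P z} =
      Set.ncard {z : Fin 2 → ℤ | (∀ j, (![M₁, M₂] : Fin 2 → ℤ) j < z j ∧ z j ≤ (![M₁, M₂] : Fin 2 → ℤ) j +
        (![L₁, L₂] : Fin 2 → ℕ) j) ∧ P (z 0, z 1)} := by
    intro P
    have h4 : {z : ℤ × ℤ | (M₁ < z.1 ∧ z.1 ≤ M₁ + L₁) ∧ (M₂ < z.2 ∧ z.2 ≤ M₂ + L₂) ∧ P z} =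
        (fun z : Fin 2 → ℤ => (z 0, z 1)) '' {z : Fin 2 → ℤ | (∀ j, (![M₁, M₂] : Fin 2 → ℤ) j < z j ∧ z j ≤
          (![M₁, M₂] : Fin 2 → ℤ) j + (![L₁, L₂] : Fin 2 → ℕ) j) ∧ P (z 0, z 1)} := by
      ext z
      constructor
      · rintro ⟨h5, h6, h7⟩
        refine ⟨![z.1, z.2], ⟨fun j => ?_, h7⟩, rfl⟩
        fin_cases j
        · exact h5
        · exact h6
      · rintro ⟨y, ⟨h5, h6⟩, rfl⟩
        exact ⟨h5 0, h5 1, h6⟩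
    rw [h4, Set.ncard_image_of_injective]
    intro y y' hyy
    simp only [Prod.mk.injEq] at hyy
    funext j
    fin_cases j
    · exact hyy.1
    · exact hyy.2
  have e2 := e1 (fun z => evalEval (z.1 : ZMod p) (z.2 : ZMod p) F = 0 ∧ Bad H (c₁ * z.1 + c₂ * z.2 + c₀))
  have e3 := e1 (fun z => evalEval (z.1 : ZMod p) (z.2 : ZMod p) F = 0)
  simp only at e2 e3
  rw [e2, e3]
  refine le_trans (le_of_eq ?_) key
  congr 2
  ext z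
  simp only [Set.mem_setOf_eq, Fin.sum_univ_two]
  rfl


end Run7.h914.IFm.P2
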