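import Pool.Agent.Run7.h914.IFm.S1

set_option autoImplicit false
set_option maxHeartbeats 4000000

/-!
An upper bound sieve for families of integers with small exponential sums.
-/

namespace Run7.h914.IFm.RP

open Finset Filter
open scoped Classical

/-- the number of the residue classes modulo `p` which are removed -/
noncomputable def rq (Q : ℕ → ℤ → Prop) (p : ℕ) : ℕ := ((range p).filter fun n : ℕ => Q p n).card

/-- the sum of `1 / p` over the prime factors -/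
noncomputable def sgm (M : ℕ) : ℝ := ∑ p ∈ M.primeFactors, 1 / (p : ℝ)

lemma fac_low {p : ℕ} (hp : p.Prime) : Real.exp (-(2 / (p : ℝ))) ≤ 1 - 1 / (p : ℝ) := by
  have h2 : (2 : ℝ) ≤ p := by exact_mod_cast hp.two_le
  have hp0 : (0 : ℝ) < p := by linarith
  obtain ⟨x, hx⟩ : ∃ x : ℝ, x = 1 / (p : ℝ) := ⟨_, rfl⟩
  have hx0 : 0 < x := by rw [hx]; positivity
  have hx2 : x ≤ 1 / 2 := by rw [hx]; exact one_div_le_one_div_of_le (by norm_num) h2
  have e1 : 2 / (p : ℝ) = 2 * x := by rw [hx]; ring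
  rw [e1, ← hx, Real.exp_neg]
  rw [inv_le_comm₀ (Real.exp_pos _) (by linarith)]
  have h3 := Real.add_one_le_exp (2 * x)
  refine le_trans ?_ h3
  rw [inv_eq_one_div, div_le_iff₀ (by linarith)]
  nlinarith

lemma bern (k : ℕ) (x : ℝ) (hx1 : x ≤ 1) : 1 - k * x ≤ (1 - x) ^ k := by
  have := one_add_mul_le_pow (a := -x) (by linarith) k
  have e : (1 : ℝ) + k * -x = 1 - k * x := by ring
  rw [e] at this
  have e2 : (1 : ℝ) + -x = 1 - x := by ring
  rwa [e2] at this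

/-- the sieve product -/
lemma prod_up (k : ℕ) : ∃ C : ℝ, 1 ≤ C ∧ ∀ (Q : ℕ → ℤ → Prop) (M : ℕ), M ≠ 0 → (∀ p : ℕ, p.Prime → rq Q p ≤ p) →
    (∀ p : ℕ, p.Prime → ¬ p ∣ M → k < p → k ≤ rq Q p) → ∀ z : ℕ, 3 ≤ z →
    ∏ p ∈ pz z, (1 - (rq Q p : ℝ) / p) ≤ C * Real.exp (2 * k * sgm M) / Real.log z ^ k := by
  obtain ⟨C₁, hC₁, h1⟩ := Vz_log_le
  obtain ⟨S, hS⟩ : ∃ S : ℝ, S = ∑ p ∈ pz k, 1 / (p : ℝ) := ⟨_, rfl⟩
  have hS0 : 0 ≤ S := by rw [hS]; exact sum_nonneg fun p _ => by positivity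
  refine ⟨C₁ ^ k * Real.exp (2 * k * S), ?_, fun Q M hM0 hQ0 hQ z hz => ?_⟩
  · have e1 : 1 ≤ C₁ ^ k := one_le_pow₀ hC₁
    have e2 : 1 ≤ Real.exp (2 * k * S) := Real.one_le_exp (by positivity)
    nlinarith
  have hl : 0 < Real.log z := Real.log_pos (by exact_mod_cast (by omega : 1 < z))
  -- the bound of the factors
  obtain ⟨w, hw⟩ : ∃ w : ℕ → ℝ, ∀ p, w p = if p ∣ M ∨ p ≤ k then (2 * k / p : ℝ) else 0 := ⟨_, fun _ => rfl⟩
  have hfac : ∀ p ∈ pz z, (1 - (rq Q p : ℝ) / p) ≤ (1 - 1 / (p : ℝ)) ^ k * Real.exp (w p) := by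
    intro p hp
    have hpp := (mem_pz.1 hp).2
    have hp2 : (2 : ℝ) ≤ p := by exact_mod_cast hpp.two_le
    have hp0 : (0 : ℝ) < p := by linarith
    have hx1 : 1 / (p : ℝ) ≤ 1 := by rw [div_le_one hp0]; linarith
    rw [hw]
    by_cases hcase : p ∣ M ∨ p ≤ k
    · rw [if_pos hcase]
      have e1 : (1 - (rq Q p : ℝ) / p) ≤ 1 := by
        have : 0 ≤ (rq Q p : ℝ) / p := by positivity
        linarith
      refine e1.trans ?_
      have e2 := pow_le_pow_left₀ (Real.exp_pos _).le (fac_low hpp) k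
      rw [← Real.exp_nat_mul] at e2
      calc (1 : ℝ) = Real.exp (k * -(2 / (p : ℝ))) * Real.exp (2 * k / p) := by
            rw [← Real.exp_add]
            have : (k : ℝ) * -(2 / (p : ℝ)) + 2 * k / p = 0 := by ring
            rw [this, Real.exp_zero]
        _ ≤ _ := mul_le_mul_of_nonneg_right e2 (Real.exp_pos _).le
    · rw [if_neg hcase, Real.exp_zero, mul_one]
      push Not at hcase
      have e1 := hQ p hpp hcase.1 hcase.2
      refine le_trans ?_ (bern k (1 / p) hx1)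
      have e2 : (k : ℝ) ≤ rq Q p := by exact_mod_cast e1
      have e3 : (k : ℝ) * (1 / p) ≤ (rq Q p : ℝ) / p := by
        rw [mul_one_div]
        exact div_le_div_of_nonneg_right e2 hp0.le
      linarith
  have hfac0 : ∀ p ∈ pz z, 0 ≤ (1 - (rq Q p : ℝ) / p) := by
    intro p hp
    have hpp := (mem_pz.1 hp).2
    have hp0 : (0 : ℝ) < p := by exact_mod_cast hpp.pos
    have e1 : (rq Q p : ℝ) ≤ p := by exact_mod_cast hQ0 p hpp
    have : (rq Q p : ℝ) / p ≤ 1 := by rw [div_le_one hp0]; exact e1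
    linarith
  have hprod : ∏ p ∈ pz z, (1 - (rq Q p : ℝ) / p) ≤ Vz z ^ k * Real.exp (∑ p ∈ pz z, w p) := by
    refine (prod_le_prod hfac0 hfac).trans (le_of_eq ?_)
    rw [prod_mul_distrib, prod_pow, Real.exp_sum]
    rfl
  have hsum : ∑ p ∈ pz z, w p ≤ 2 * k * sgm M + 2 * k * S := by
    have e1 : ∑ p ∈ pz z, w p ≤ ∑ p ∈ pz z, ((if p ∣ M then (2 * k / p : ℝ) else 0) + (if p ≤ k then (2 * k / p : ℝ) else 0)) := by
      apply sum_le_sum
      intro p _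
      rw [hw]
      have : (0 : ℝ) ≤ 2 * k / p := by positivity
      split_ifs <;> first | linarith | (exfalso; tauto)
    refine e1.trans ?_
    rw [sum_add_distrib]
    apply add_le_add
    · rw [← sum_filter]
      unfold sgm
      rw [mul_sum]
      have : ∀ p ∈ (pz z).filter (fun p => p ∣ M), (2 * k / p : ℝ) = 2 * k * (1 / p) := fun p _ => by ring
      rw [sum_congr rfl this]
      apply sum_le_sum_of_subset_of_nonneg
      · intro p hp
        rw [mem_filter, mem_pz] at hp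
        exact Nat.mem_primeFactors.2 ⟨hp.1.2, hp.2, hM0⟩
      · intro p _ _
        positivity
    · rw [← sum_filter, hS, mul_sum]
      have : ∀ p ∈ (pz z).filter (fun p => p ≤ k), (2 * k / p : ℝ) = 2 * k * (1 / p) := fun p _ => by ring
      rw [sum_congr rfl this]
      apply sum_le_sum_of_subset_of_nonneg
      · intro p hp
        rw [mem_filter, mem_pz] at hp
        exact mem_pz.2 ⟨hp.2, hp.1.2⟩
      · intro p _ _
        positivity
  refine hprod.trans ?_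
  have hV : Vz z ^ k ≤ (C₁ / Real.log z) ^ k := by
    apply pow_le_pow_left₀ (Vz_pos z).le
    rw [le_div_iff₀ hl]
    exact h1 z hz
  calc Vz z ^ k * Real.exp (∑ p ∈ pz z, w p) ≤ (C₁ / Real.log z) ^ k * Real.exp (2 * k * sgm M + 2 * k * S) :=
        mul_le_mul hV (Real.exp_le_exp.2 hsum) (Real.exp_pos _).le (by positivity)
    _ = _ := by
        rw [Real.exp_add, div_pow]
        ring

/-- **an upper bound sieve for families of integers with small exponential sums** -/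
theorem up_sieve (k : ℕ) : ∃ C δ : ℝ, 1 ≤ C ∧ 0 < δ ∧ δ ≤ 1 / 8 ∧ ∃ T₀ : ℝ, ∀ T : ℝ, T₀ ≤ T → ∀ (ι : Type) (s : Finset ι) (v : ι → ℤ),
    IF T s v → ∀ (Q : ℕ → ℤ → Prop), (∀ (p : ℕ) (n : ℤ), Q p (n + p) ↔ Q p n) → (∀ p : ℕ, p.Prime → rq Q p ≤ k) →
    ∀ M : ℕ, M ≠ 0 → (∀ p : ℕ, p.Prime → ¬ p ∣ M → k < p → k ≤ rq Q p) →
    ((s.filter fun i => ∀ p : ℕ, p.Prime → (p : ℝ) ≤ T ^ δ → ¬ Q p (v i)).card : ℝ) ≤
      C * Real.exp (2 * k * sgm M) * (s.card / Real.log T ^ k) := by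
  obtain ⟨C₀, hC₀, HF⟩ := fll_IF
  obtain ⟨C₁, hC₁, HP⟩ := prod_up k
  obtain ⟨b, hb⟩ : ∃ b, b = C₀ * (k + 1) := ⟨_, rfl⟩
  obtain ⟨W, hW⟩ : ∃ W, W = ∏ p ∈ Icc 1 (C₀ * (k + 1)), p := ⟨_, rfl⟩
  obtain ⟨E, hE⟩ : ∃ E, E = C₀ * b := ⟨_, rfl⟩
  -- `δ (6 E + 2) ≤ 1 / 2`
  obtain ⟨δ, hδ⟩ : ∃ δ : ℝ, δ = 1 / (12 * E + 8) := ⟨_, rfl⟩
  have hE0 : (0 : ℝ) ≤ E := Nat.cast_nonneg _
  have hδ0 : 0 < δ := by rw [hδ]; positivity
  have hδ8 : δ ≤ 1 / 8 := by
    rw [hδ]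
    apply one_div_le_one_div_of_le (by norm_num)
    linarith
  have hδE : δ * (6 * E + 4) = 1 / 2 := by
    rw [hδ]
    field_simp
    ring
  have hlim : ∀ᶠ T : ℝ in atTop, 4 ≤ T ^ δ ∧ 1 ≤ T ∧ 1 ≤ Real.log T ∧
      (W : ℝ) ^ 3 * 2 ^ (3 * E + 1) * Real.log T ^ k ≤ T ^ (1 / 2 : ℝ) := by
    have h1 : (fun x : ℝ => Real.log x ^ k) =o[atTop] (fun x : ℝ => x ^ (1 / 2 : ℝ)) := by
      have := isLittleO_log_rpow_rpow_atTop (s := 1 / 2) (k : ℝ) (by norm_num)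
      refine this.congr' ?_ (Eventually.of_forall fun _ => rfl)
      filter_upwards [eventually_ge_atTop (1 : ℝ)] with x hx
      rw [Real.rpow_natCast]
    have hc0 : (0 : ℝ) < (W : ℝ) ^ 3 * 2 ^ (3 * E + 1) + 1 := by positivity
    have h2 := h1.def (show (0 : ℝ) < 1 / ((W : ℝ) ^ 3 * 2 ^ (3 * E + 1) + 1) by positivity)
    filter_upwards [(tendsto_rpow_atTop hδ0).eventually_ge_atTop 4, eventually_ge_atTop (1 : ℝ),
      Real.tendsto_log_atTop.eventually_ge_atTop 1, h2] with T g1 g2 g3 g4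
    refine ⟨g1, g2, g3, ?_⟩
    rw [Real.norm_of_nonneg (by positivity), Real.norm_of_nonneg (by positivity), one_div, inv_mul_eq_div,
      le_div_iff₀ hc0] at g4
    have : 0 ≤ Real.log T ^ k := by positivity
    nlinarith
  obtain ⟨T₀, hT₀⟩ := eventually_atTop.1 hlim
  have hlogδ : (0 : ℝ) < (2 / δ) ^ k := by positivity
  refine ⟨2 * C₁ * (2 / δ) ^ k + 1, δ, by have : 0 < 2 * C₁ * (2 / δ) ^ k := by positivity
                                          linarith, hδ0, hδ8, T₀, ?_⟩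
  intro T hT ι s v hv Q hQ hQk M hM0 hQM
  obtain ⟨g1, g2, g3, g4⟩ := hT₀ T hT
  have hT0 : 0 < T := by linarith
  have hs0 : (0 : ℝ) ≤ s.card := Nat.cast_nonneg _
  -- the level
  obtain ⟨z, hz⟩ : ∃ z : ℕ, z = ⌊T ^ δ⌋₊ := ⟨_, rfl⟩
  have hz1 : (z : ℝ) ≤ T ^ δ := by rw [hz]; exact Nat.floor_le (by positivity)
  have hz2 : T ^ δ < z + 1 := by rw [hz]; exact Nat.lt_floor_add_one _
  have hz4 : 4 ≤ z := by rw [hz]; exact Nat.le_floor (by exact_mod_cast g1)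
  have hz0 : (0 : ℝ) < z := by exact_mod_cast (by omega : 0 < z)
  obtain ⟨J, j1, j2, j3⟩ := exJ z (by omega)
  obtain ⟨D, hD⟩ : ∃ D, D = W * (2 ^ 2 ^ J) ^ E := ⟨_, rfl⟩
  have hDz : (D : ℝ) ≤ W * (2 * z ^ 2) ^ E := by
    rw [hD]
    have : W * (2 ^ 2 ^ J) ^ E ≤ W * (2 * z ^ 2) ^ E := Nat.mul_le_mul_left _ (Nat.pow_le_pow_left j2 _)
    exact_mod_cast this
  have h5 := HF k b J D (pz z) (by rw [hb]) (fun p hp => ⟨(mem_pz.1 hp).2, (mem_pz.1 hp).1.trans j1⟩)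
    (by rw [hD, hW, hE]) Q hQ (fun p hp => hQk p (mem_pz.1 hp).2) ι s v T hT0 hv
  have h6 := HP Q M hM0 (fun p hp => by
    unfold rq
    refine (card_filter_le _ _).trans ?_
    rw [card_range]) hQM z (by omega)
  obtain ⟨Pr, hPr⟩ : ∃ Pr : ℝ, Pr = ∏ p ∈ pz z, (1 - (rq Q p : ℝ) / p) := ⟨_, rfl⟩
  have hPr0 : 0 ≤ Pr := by
    rw [hPr]
    apply prod_nonneg
    intro p hp
    have hpp := (mem_pz.1 hp).2
    have hp0 : (0 : ℝ) < p := by exact_mod_cast hpp.pos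
    have e1 : (rq Q p : ℝ) ≤ p := by
      unfold rq
      have := (card_filter_le (range p) (fun n : ℕ => Q p n))
      rw [card_range] at this
      exact_mod_cast this
    have : (rq Q p : ℝ) / p ≤ 1 := by rw [div_le_one hp0]; exact e1
    linarith
  have h5' : ((s.filter fun i => ∀ p ∈ pz z, ¬ Q p (v i)).card : ℝ) ≤ 2 * (s.card * Pr) + (J + 1) * (D : ℝ) ^ 2 * (s.card * D / T) := by
    have e1 := (abs_le.1 h5).2
    have e2 : ∏ p ∈ pz z, (1 - (((range p).filter fun n : ℕ => Q p n).card : ℝ) / p) = Pr := by rw [hPr]; rfl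
    rw [e2] at e1
    have e3 : ((1 : ℝ) / 2) ^ b ≤ 1 := pow_le_one₀ (by norm_num) (by norm_num)
    have e4 : 0 ≤ (s.card : ℝ) * Pr := by positivity
    nlinarith
  rw [← hPr] at h6
  -- the logarithm of `z`
  have hlz : δ / 2 * Real.log T ≤ Real.log z := by
    have e1 : T ^ (δ / 2) ≤ z := by
      have e2 : T ^ (δ / 2) * T ^ (δ / 2) = T ^ δ := by
        rw [← Real.rpow_add hT0]
        congr 1
        ring
      have e3 : 0 < T ^ (δ / 2) := by positivity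
      have e4 : 2 ≤ T ^ (δ / 2) := by nlinarith
      nlinarith
    have e5 := Real.log_le_log (by positivity) e1
    rwa [Real.log_rpow hT0] at e5
  have hlz0 : 0 < δ / 2 * Real.log T := by positivity
  have h7 : Pr ≤ C₁ * Real.exp (2 * k * sgm M) * ((2 / δ) ^ k / Real.log T ^ k) := by
    refine h6.trans ?_
    rw [mul_div_assoc]
    have e1 : Real.exp (2 * k * sgm M) / Real.log z ^ k ≤ Real.exp (2 * k * sgm M) / (δ / 2 * Real.log T) ^ k :=
      div_le_div_of_nonneg_left (Real.exp_pos _).le (by positivity) (pow_le_pow_left₀ hlz0.le hlz k)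
    refine (mul_le_mul_of_nonneg_left e1 (by linarith)).trans (le_of_eq ?_)
    rw [mul_pow, div_pow, div_pow]
    field_simp
  -- the error term
  have h8 : (J + 1) * (D : ℝ) ^ 2 * (s.card * D / T) ≤ s.card / Real.log T ^ k := by
    have e1 : ((J + 1 : ℕ) : ℝ) ≤ 2 * (z : ℝ) ^ 2 := by exact_mod_cast j3.trans j2
    push_cast at e1
    have e2 : (D : ℝ) ^ 3 ≤ (W * (2 * z ^ 2) ^ E) ^ 3 := pow_le_pow_left₀ (Nat.cast_nonneg _) hDz 3
    have e3 : (J + 1) * (D : ℝ) ^ 2 * (s.card * D / T) = s.card * (((J + 1) * (D : ℝ) ^ 3) / T) := by ring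
    rw [e3, div_eq_mul_one_div (s.card : ℝ) (Real.log T ^ k)]
    apply mul_le_mul_of_nonneg_left _ hs0
    rw [div_le_div_iff₀ hT0 (by positivity), one_mul]
    have e4 : (J + 1) * (D : ℝ) ^ 3 ≤ (2 * (z : ℝ) ^ 2) * (W * (2 * z ^ 2) ^ E) ^ 3 :=
      mul_le_mul e1 e2 (by positivity) (by positivity)
    have e5 : (2 * (z : ℝ) ^ 2) * (W * (2 * z ^ 2) ^ E) ^ 3 = ((W : ℝ) ^ 3 * 2 ^ (3 * E + 1)) * (z : ℝ) ^ (6 * E + 2) := by
      ring
    have e6 : (z : ℝ) ^ (6 * E + 2) ≤ T ^ (1 / 2 : ℝ) := by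
      calc (z : ℝ) ^ (6 * E + 2) ≤ (T ^ δ) ^ (6 * E + 2) := pow_le_pow_left₀ hz0.le hz1 _
        _ = T ^ (δ * (6 * E + 2)) := by
            rw [← Real.rpow_natCast, ← Real.rpow_mul hT0.le]
            push_cast
            rfl
        _ ≤ T ^ (1 / 2 : ℝ) := by
            apply Real.rpow_le_rpow_of_exponent_le g2
            rw [← hδE]
            nlinarith
    have e7 : T ^ (1 / 2 : ℝ) * T ^ (1 / 2 : ℝ) = T := by
      rw [← Real.rpow_add hT0]
      norm_num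
    have hc0 : (0 : ℝ) ≤ (W : ℝ) ^ 3 * 2 ^ (3 * E + 1) := by positivity
    calc (J + 1) * (D : ℝ) ^ 3 * Real.log T ^ k ≤ ((2 * (z : ℝ) ^ 2) * (W * (2 * z ^ 2) ^ E) ^ 3) * Real.log T ^ k :=
          mul_le_mul_of_nonneg_right e4 (by positivity)
      _ = ((W : ℝ) ^ 3 * 2 ^ (3 * E + 1) * Real.log T ^ k) * (z : ℝ) ^ (6 * E + 2) := by rw [e5]; ring
      _ ≤ T ^ (1 / 2 : ℝ) * T ^ (1 / 2 : ℝ) := mul_le_mul g4 e6 (by positivity) (by positivity)
      _ = T := e7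
  -- conclusion
  have h9 : (s.filter fun i => ∀ p : ℕ, p.Prime → (p : ℝ) ≤ T ^ δ → ¬ Q p (v i)).card ≤
      (s.filter fun i => ∀ p ∈ pz z, ¬ Q p (v i)).card := by
    apply card_le_card
    intro i hi
    rw [mem_filter] at hi ⊢
    exact ⟨hi.1, fun p hp => hi.2 p (mem_pz.1 hp).2 ((by exact_mod_cast (mem_pz.1 hp).1 : (p : ℝ) ≤ z).trans hz1)⟩
  have h9r : ((s.filter fun i => ∀ p : ℕ, p.Prime → (p : ℝ) ≤ T ^ δ → ¬ Q p (v i)).card : ℝ) ≤
      ((s.filter fun i => ∀ p ∈ pz z, ¬ Q p (v i)).card : ℝ) := by exact_mod_cast h9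
  have hexp : 1 ≤ Real.exp (2 * k * sgm M) := Real.one_le_exp (by
    have : 0 ≤ sgm M := sum_nonneg fun p _ => by positivity
    positivity)
  have hsl : 0 ≤ (s.card : ℝ) / Real.log T ^ k := by positivity
  calc ((s.filter fun i => ∀ p : ℕ, p.Prime → (p : ℝ) ≤ T ^ δ → ¬ Q p (v i)).card : ℝ) ≤
        2 * (s.card * Pr) + (J + 1) * (D : ℝ) ^ 2 * (s.card * D / T) := h9r.trans h5'
    _ ≤ 2 * (s.card * (C₁ * Real.exp (2 * k * sgm M) * ((2 / δ) ^ k / Real.log T ^ k))) + s.card / Real.log T ^ k := by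
        apply add_le_add _ h8
        apply mul_le_mul_of_nonneg_left _ (by norm_num)
        exact mul_le_mul_of_nonneg_left h7 hs0
    _ = (2 * C₁ * (2 / δ) ^ k * Real.exp (2 * k * sgm M) + 1) * (s.card / Real.log T ^ k) := by ring
    _ ≤ ((2 * C₁ * (2 / δ) ^ k + 1) * Real.exp (2 * k * sgm M)) * (s.card / Real.log T ^ k) := by
        apply mul_le_mul_of_nonneg_right _ hsl
        nlinarith

end Run7.h914.IFm.RP
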