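import Pool.Agent.Run7.h914.IFm.S2

set_option autoImplicit false
set_option maxHeartbeats 4000000

/-!
An upper bound for the number of the members `v` of a family of integers with small exponential sums for which the numbers
`v + a_j` are all prime.
-/

namespace Run7.h914.IFm.RP

open Finset Filter
open scoped Classical

/-- one of the numbers `n + a_j` is divisible by `p` -/
def QA {k : ℕ} (a : Fin k → ℤ) (p : ℕ) (n : ℤ) : Prop := ∃ j, (p : ℤ) ∣ n + a j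

lemma QA_per {k : ℕ} (a : Fin k → ℤ) (p : ℕ) (n : ℤ) : QA a p (n + p) ↔ QA a p n := by
  unfold QA
  refine exists_congr fun j => ?_
  have e : n + (p : ℤ) + a j = (n + a j) + p := by ring
  rw [e, dvd_add_self_right]

lemma rq_QA {k : ℕ} (a : Fin k → ℤ) (p : ℕ) (hp : p.Prime) : rq (QA a) p =
    (univ.image (fun j : Fin k => ((-(a j)) % (p : ℤ)).toNat)).card := by
  unfold rq
  congr 1
  have hp0 : (0 : ℤ) < p := by exact_mod_cast hp.pos
  ext n
  rw [mem_filter, mem_range, mem_image]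
  unfold QA
  constructor
  · rintro ⟨hn, j, hj⟩
    refine ⟨j, mem_univ j, ?_⟩
    have h1 : (-(a j)) % (p : ℤ) = n := by
      have h2 : (p : ℤ) ∣ (n : ℤ) - (-(a j)) := by
        have e : (n : ℤ) - (-(a j)) = n + a j := by ring
        rwa [e]
      have h3 := (Int.emod_emod_of_dvd (-(a j)) (dvd_refl (p : ℤ)))
      have h4 : (-(a j)) ≡ n [ZMOD p] := (Int.modEq_iff_dvd).2 h2
      have h5 : (n : ℤ) % p = n := Int.emod_eq_of_lt (Int.natCast_nonneg _) (by exact_mod_cast hn)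
      rw [← h5]
      exact h4
    rw [h1]
    exact Int.toNat_natCast n
  · rintro ⟨j, -, hj⟩
    have h1 : 0 ≤ (-(a j)) % (p : ℤ) := Int.emod_nonneg _ hp0.ne'
    have h2 : (-(a j)) % (p : ℤ) < p := Int.emod_lt_of_pos _ hp0
    have h3 : (n : ℤ) = (-(a j)) % (p : ℤ) := by omega
    refine ⟨by omega, j, ?_⟩
    rw [h3, Int.emod_def]
    exact ⟨-((-(a j)) / p), by ring⟩

lemma rq_QA_le {k : ℕ} (a : Fin k → ℤ) (p : ℕ) (hp : p.Prime) : rq (QA a) p ≤ k := by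
  rw [rq_QA a p hp]
  refine card_image_le.trans ?_
  rw [card_univ, Fintype.card_fin]

lemma rq_QA_ge {k : ℕ} (a : Fin k → ℤ) (p : ℕ) (hp : p.Prime) (h : ∀ i j, (p : ℤ) ∣ a i - a j → i = j) :
    k ≤ rq (QA a) p := by
  rw [rq_QA a p hp, card_image_of_injective, card_univ, Fintype.card_fin]
  intro i j hij
  have hp0 : (0 : ℤ) < p := by exact_mod_cast hp.pos
  have h1 : 0 ≤ (-(a i)) % (p : ℤ) := Int.emod_nonneg _ hp0.ne'
  have h2 : 0 ≤ (-(a j)) % (p : ℤ) := Int.emod_nonneg _ hp0.ne'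
  have hij' : ((-(a i)) % (p : ℤ)).toNat = ((-(a j)) % (p : ℤ)).toNat := hij
  have h3 : (-(a i)) % (p : ℤ) = (-(a j)) % (p : ℤ) := by omega
  apply h i j
  have h4 : -(a i) ≡ -(a j) [ZMOD p] := h3
  have h5 := (Int.modEq_iff_dvd).1 h4
  have e : -(a j) - -(a i) = a i - a j := by ring
  rwa [e] at h5

/-- **an upper bound for tuples of primes** -/
theorem up_primes (k : ℕ) (hk : 1 ≤ k) : ∃ C : ℝ, 1 ≤ C ∧ ∃ T₀ : ℝ, ∀ T : ℝ, T₀ ≤ T → ∀ (ι : Type) (s : Finset ι) (v : ι → ℤ),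
    IF T s v → ∀ a : Fin k → ℤ, (∀ j, |(a j : ℝ)| ≤ T ^ (1 / 8 : ℝ)) → ∀ M : ℕ, M ≠ 0 →
    (∀ p : ℕ, p.Prime → ¬ p ∣ M → k < p → ∀ i j, (p : ℤ) ∣ a i - a j → i = j) →
    ((s.filter fun i => ∀ j, (v i + a j).toNat.Prime).card : ℝ) ≤
      C * Real.exp (2 * k * sgm M) * (s.card / Real.log T ^ k) := by
  obtain ⟨C, δ, hC, hδ0, hδ8, T₁, H⟩ := up_sieve k
  have hlim : ∀ᶠ T : ℝ in atTop, 16 ≤ T ∧ 1 ≤ Real.log T ∧ 24 * Real.log T ^ k ≤ T ^ (3 / 8 : ℝ) := by
    have h1 : (fun x : ℝ => Real.log x ^ k) =o[atTop] (fun x : ℝ => x ^ (3 / 8 : ℝ)) := by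
      have := isLittleO_log_rpow_rpow_atTop (s := 3 / 8) (k : ℝ) (by norm_num)
      refine this.congr' ?_ (Eventually.of_forall fun _ => rfl)
      filter_upwards [eventually_ge_atTop (1 : ℝ)] with x hx
      rw [Real.rpow_natCast]
    have h2 := h1.def (show (0 : ℝ) < 1 / 24 by norm_num)
    filter_upwards [eventually_ge_atTop (16 : ℝ), Real.tendsto_log_atTop.eventually_ge_atTop 1, h2] with T g1 g2 g3
    refine ⟨g1, g2, ?_⟩
    rw [Real.norm_of_nonneg (by positivity), Real.norm_of_nonneg (by positivity)] at g3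
    linarith
  obtain ⟨T₂, hT₂⟩ := eventually_atTop.1 hlim
  refine ⟨C + 1, by linarith, max T₁ T₂, fun T hT ι s v hv a ha M hM hMd => ?_⟩
  obtain ⟨g1, g2, g3⟩ := hT₂ T ((le_max_right _ _).trans hT)
  have hT0 : 0 < T := by linarith
  have hT1 : 1 ≤ T := by linarith
  have hs0 : (0 : ℝ) ≤ s.card := Nat.cast_nonneg _
  have h1 := H T ((le_max_left _ _).trans hT) ι s v hv (QA a) (QA_per a) (fun p hp => rq_QA_le a p hp) M hM
    (fun p hp hpM hkp => rq_QA_ge a p hp (hMd p hp hpM hkp))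
  -- the small members
  obtain ⟨A, hA⟩ : ∃ A : ℕ, A = ⌈T ^ (1 / 8 : ℝ)⌉₊ := ⟨_, rfl⟩
  have hA1 : T ^ (1 / 8 : ℝ) ≤ A := by rw [hA]; exact Nat.le_ceil _
  have hA2 : (A : ℝ) < T ^ (1 / 8 : ℝ) + 1 := by rw [hA]; exact Nat.ceil_lt_add_one (by positivity)
  have hT8 : 1 ≤ T ^ (1 / 8 : ℝ) := Real.one_le_rpow hT1 (by norm_num)
  have hTδ : T ^ δ ≤ T ^ (1 / 8 : ℝ) := Real.rpow_le_rpow_of_exponent_le hT1 hδ8
  obtain ⟨m, hm⟩ : ∃ m : ℕ, m = ⌈T ^ (1 / 2 : ℝ)⌉₊ := ⟨_, rfl⟩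
  have hm1 : T ^ (1 / 2 : ℝ) ≤ m := by rw [hm]; exact Nat.le_ceil _
  have hT2 : 1 ≤ T ^ (1 / 2 : ℝ) := Real.one_le_rpow hT1 (by norm_num)
  have hm2 : (m : ℝ) ≤ 2 * T ^ (1 / 2 : ℝ) := by
    have : (m : ℝ) < T ^ (1 / 2 : ℝ) + 1 := by rw [hm]; exact Nat.ceil_lt_add_one (by positivity)
    linarith
  have hm0 : 1 ≤ m := by
    have : (1 : ℝ) ≤ m := hT2.trans hm1
    exact_mod_cast this
  have h2 := IF_small hT0 hv m hm0 (-(A : ℤ)) (4 * A)
  have hsplit : s.filter (fun i => ∀ j, (v i + a j).toNat.Prime) ⊆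
      (s.filter fun i => ∀ p : ℕ, p.Prime → (p : ℝ) ≤ T ^ δ → ¬ QA a p (v i)) ∪
        s.filter (fun i => -(A : ℤ) ≤ v i ∧ v i < -(A : ℤ) + (4 * A : ℕ)) := by
    intro i hi
    rw [mem_filter] at hi
    rw [mem_union, mem_filter, mem_filter]
    obtain ⟨hi1, hi2⟩ := hi
    by_cases hcase : ∃ j, ((v i + a j : ℤ) : ℝ) ≤ T ^ δ
    · right
      obtain ⟨j, hj⟩ := hcase
      have e1 := (hi2 j).two_le
      have e2 : 2 ≤ v i + a j := by omega
      have e3 := abs_le.1 (ha j)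
      refine ⟨hi1, ?_, ?_⟩
      · have : (-(A : ℝ)) ≤ v i := by
          have e4 : (2 : ℝ) ≤ v i + a j := by exact_mod_cast e2
          linarith
        exact_mod_cast this
      · have : (v i : ℝ) < -(A : ℝ) + 4 * A := by
          push_cast at hj
          have e4 : (v i : ℝ) ≤ T ^ (1 / 8 : ℝ) + T ^ (1 / 8 : ℝ) := by linarith
          have e5 : (1 : ℝ) ≤ A := hT8.trans hA1
          linarith
        exact_mod_cast this
    · left
      push Not at hcase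
      refine ⟨hi1, fun p hp hpT hQ => ?_⟩
      obtain ⟨j, hj⟩ := hQ
      have e1 := hi2 j
      have e2 := e1.two_le
      have e3 : ((v i + a j).toNat : ℤ) = v i + a j := Int.toNat_of_nonneg (by omega)
      have e4 : p ∣ (v i + a j).toNat := by
        rw [← Int.natCast_dvd_natCast, e3]
        exact hj
      have e5 := (Nat.prime_dvd_prime_iff_eq hp e1).1 e4
      have e6 := hcase j
      rw [← e3, ← e5] at e6
      push_cast at e6
      linarith
  have hcard : ((s.filter fun i => ∀ j, (v i + a j).toNat.Prime).card : ℝ) ≤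
      ((s.filter fun i => ∀ p : ℕ, p.Prime → (p : ℝ) ≤ T ^ δ → ¬ QA a p (v i)).card : ℝ) +
        ((s.filter (fun i => -(A : ℤ) ≤ v i ∧ v i < -(A : ℤ) + (4 * A : ℕ))).card : ℝ) := by
    exact_mod_cast (card_le_card hsplit).trans (card_union_le _ _)
  have h3 : ((s.filter (fun i => -(A : ℤ) ≤ v i ∧ v i < -(A : ℤ) + (4 * A : ℕ))).card : ℝ) ≤ s.card / Real.log T ^ k := by
    refine h2.trans ?_
    have e1 : (T : ℝ) ^ (1 / 2 : ℝ) * T ^ (1 / 2 : ℝ) = T := by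
      rw [← Real.rpow_add hT0]; norm_num
    have hT20 : 0 < T ^ (1 / 2 : ℝ) := by positivity
    have e2 : (s.card : ℝ) / m ≤ s.card / T ^ (1 / 2 : ℝ) := div_le_div_of_nonneg_left hs0 hT20 hm1
    have e3 : (s.card : ℝ) * m / T ≤ 2 * (s.card / T ^ (1 / 2 : ℝ)) := by
      rw [mul_div_assoc', div_le_div_iff₀ hT0 hT20]
      calc (s.card : ℝ) * m * T ^ (1 / 2 : ℝ) ≤ s.card * (2 * T ^ (1 / 2 : ℝ)) * T ^ (1 / 2 : ℝ) := by
            apply mul_le_mul_of_nonneg_right _ hT20.le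
            exact mul_le_mul_of_nonneg_left hm2 hs0
        _ = 2 * s.card * (T ^ (1 / 2 : ℝ) * T ^ (1 / 2 : ℝ)) := by ring
        _ = 2 * s.card * T := by rw [e1]
    have e4 : ((4 * A : ℕ) : ℝ) ≤ 8 * T ^ (1 / 8 : ℝ) := by
      push_cast
      linarith
    have e5 : (T : ℝ) ^ (1 / 8 : ℝ) * T ^ (3 / 8 : ℝ) = T ^ (1 / 2 : ℝ) := by
      rw [← Real.rpow_add hT0]; norm_num
    have hl : 0 < Real.log T ^ k := by positivity
    calc ((4 * A : ℕ) : ℝ) * (s.card / m + s.card * m / T) ≤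
          (8 * T ^ (1 / 8 : ℝ)) * (s.card / T ^ (1 / 2 : ℝ) + 2 * (s.card / T ^ (1 / 2 : ℝ))) :=
          mul_le_mul e4 (add_le_add e2 e3) (by positivity) (by positivity)
      _ = (s.card : ℝ) * (24 * T ^ (1 / 8 : ℝ)) / T ^ (1 / 2 : ℝ) := by ring
      _ ≤ s.card / Real.log T ^ k := by
          rw [div_le_div_iff₀ hT20 hl, ← e5]
          calc (s.card : ℝ) * (24 * T ^ (1 / 8 : ℝ)) * Real.log T ^ k = s.card * (T ^ (1 / 8 : ℝ) * (24 * Real.log T ^ k)) := by ring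
            _ ≤ s.card * (T ^ (1 / 8 : ℝ) * T ^ (3 / 8 : ℝ)) := by gcongr
  have hexp : 1 ≤ Real.exp (2 * k * sgm M) := Real.one_le_exp (by
    have : 0 ≤ sgm M := sum_nonneg fun p _ => by positivity
    positivity)
  have hsl : 0 ≤ (s.card : ℝ) / Real.log T ^ k := by positivity
  calc ((s.filter fun i => ∀ j, (v i + a j).toNat.Prime).card : ℝ) ≤
        C * Real.exp (2 * k * sgm M) * (s.card / Real.log T ^ k) + s.card / Real.log T ^ k := hcard.trans (add_le_add h1 h3)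
    _ = (C * Real.exp (2 * k * sgm M) + 1) * (s.card / Real.log T ^ k) := by ring
    _ ≤ ((C + 1) * Real.exp (2 * k * sgm M)) * (s.card / Real.log T ^ k) := by
        apply mul_le_mul_of_nonneg_right _ hsl
        nlinarith

end Run7.h914.IFm.RP
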