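import Pool.Agent.Run7.h914.IFm.S4
import Pool.Agent.H262R3.Lk.SWQ
import Pool.Agent.H474R2.GE.FA

set_option autoImplicit false
set_option maxHeartbeats 4000000

/-!
A lower bound for the sums of `(D | p) / p` over the primes, uniform in `D` (from the theorem of Siegel and Walfisz).
-/

namespace Run7.h914.IFm.RP

open Finset Filter Polynomial
open scoped NumberTheorySymbols
open Pool.Agent.H474R2.PG (rho Sg PR)
open Pool.Agent.H474R2.GE (mertens_rho)
open Pool.Agent.H262R3.Lk.SWQ (av SS fw partial_bound SS_bound)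

/-- the Jacobi symbol `(D | n)` for odd `n`, and `0` for even `n` -/
noncomputable def jD (D : ℤ) (n : ℕ) : ℤ := if n % 2 = 1 then jacobiSym D n else 0

lemma jD_mod (D : ℤ) (n : ℕ) : jD D (n % (4 * D.natAbs)) = jD D n := by
  unfold jD
  have h1 : n % (4 * D.natAbs) % 2 = n % 2 := by
    rw [Nat.mod_mod_of_dvd]
    exact ⟨2 * D.natAbs, by ring⟩
  rw [h1]
  split_ifs with h
  · rw [← jacobiSym.mod_right D (Nat.odd_iff.2 h)]
  · rfl

lemma jD_mul (D : ℤ) (m n : ℕ) : jD D (m * n) = jD D m * jD D n := by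
  unfold jD
  by_cases hm : m % 2 = 1
  · by_cases hn : n % 2 = 1
    · have hmn : m * n % 2 = 1 := by rw [Nat.mul_mod, hm, hn]
      have : NeZero m := ⟨by omega⟩
      have : NeZero n := ⟨by omega⟩
      rw [if_pos hmn, if_pos hm, if_pos hn, jacobiSym.mul_right]
    · have hn0 : n % 2 = 0 := by omega
      have hmn : ¬ m * n % 2 = 1 := by rw [Nat.mul_mod, hn0]; simp
      rw [if_neg hmn, if_neg hn, mul_zero]
  · have hm0 : m % 2 = 0 := by omega
    have hmn : ¬ m * n % 2 = 1 := by rw [Nat.mul_mod, hm0]; simp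
    rw [if_neg hmn, if_neg hm, zero_mul]

lemma jD_abs (D : ℤ) (n : ℕ) : |(jD D n : ℝ)| ≤ 1 := by
  have : |jD D n| ≤ 1 := by
    unfold jD
    split_ifs
    · rcases jacobiSym.trichotomy D n with h | h | h <;> rw [h] <;> norm_num
    · norm_num
  exact_mod_cast this

/-- the Jacobi symbol `(D | ·)` as a Dirichlet character modulo `4 D` -/
noncomputable def kchar (D : ℤ) [NeZero (4 * D.natAbs)] : DirichletCharacter ℂ (4 * D.natAbs) where
  toFun a := ((jD D a.val : ℤ) : ℂ)
  map_one' := by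
    rw [ZMod.val_one_eq_one_mod, jD_mod]
    unfold jD
    rw [if_pos rfl, jacobiSym.one_right]
    norm_num
  map_mul' a b := by
    rw [ZMod.val_mul, jD_mod, jD_mul]
    push_cast
    rfl
  map_nonunit' a ha := by
    have h1 : jD D a.val = 0 := by
      unfold jD
      split_ifs with h
      · have : NeZero a.val := ⟨by omega⟩
        rw [jacobiSym.eq_zero_iff_not_coprime]
        intro h2
        apply ha
        have h3 : Nat.Coprime a.val D.natAbs := by
          rw [Nat.coprime_comm]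
          have h4 : D.gcd (a.val : ℤ) = Nat.gcd D.natAbs a.val := rfl
          rw [h4] at h2
          exact h2
        have h5 : Nat.Coprime a.val 4 := by
          have : Nat.Coprime a.val (2 ^ 2) := Nat.Coprime.pow_right 2 (Nat.coprime_two_right.2 (Nat.odd_iff.2 h))
          exact this
        have h6 := (ZMod.isUnit_iff_coprime a.val (4 * D.natAbs)).mpr (Nat.Coprime.mul_right h5 h3)
        rwa [ZMod.natCast_zmod_val] at h6
      · rfl
    rw [h1]
    norm_num

lemma kchar_apply (D : ℤ) [NeZero (4 * D.natAbs)] (n : ℕ) :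
    kchar D (n : ZMod (4 * D.natAbs)) = ((jD D n : ℤ) : ℂ) := by
  have : kchar D (n : ZMod (4 * D.natAbs)) = ((jD D (((n : ZMod (4 * D.natAbs)).val)) : ℤ) : ℂ) := rfl
  rw [this, ZMod.val_natCast, jD_mod]

theorem mem_PR' {w : ℝ} {p : ℕ} : p ∈ PR w ↔ p.Prime ∧ p ≤ ⌊w⌋₊ := by
  unfold PR
  rw [Finset.mem_filter, Finset.mem_Icc]
  exact ⟨fun h => ⟨h.2, h.1.2⟩, fun h => ⟨⟨h.1.one_lt.le, h.2⟩, h.1⟩⟩

/-- Mertens' theorem for primes -/
theorem mert_one' : ∃ C : ℝ, 0 ≤ C ∧ ∀ w : ℝ, 3 ≤ w →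
    |∑ p ∈ PR w, (1 : ℝ) / p - Real.log (Real.log w)| ≤ C := by
  obtain ⟨C, hC, h⟩ := mertens_rho X (by exact Polynomial.irreducible_X)
    (by rw [natDegree_X]; norm_num)
  refine ⟨C, hC, fun w hw => ?_⟩
  have h1 : Sg (rho X) w = ∑ p ∈ PR w, (1 : ℝ) / p := by
    unfold Sg
    refine Finset.sum_congr rfl fun p hp => ?_
    have hp' := (mem_PR'.1 hp).1
    have : rho X p = 1 := by
      unfold rho
      rw [Finset.card_eq_one]
      refine ⟨0, ?_⟩
      ext a
      rw [Finset.mem_filter, Finset.mem_range, Finset.mem_singleton, eval_X]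
      constructor
      · rintro ⟨h1, h2⟩
        have h3 : p ∣ a := by exact_mod_cast h2
        exact Nat.eq_zero_of_dvd_of_lt h3 h1
      · rintro rfl
        exact ⟨hp'.pos, by simp⟩
    rw [this, Nat.cast_one]
  rw [← h1]
  exact h w hw

lemma pz_PR (N : ℕ) : pz N = PR (N : ℝ) := by
  ext p
  rw [mem_pz, mem_PR', Nat.floor_natCast]
  exact ⟨fun h => ⟨h.2, h.1⟩, fun h => ⟨h.2, h.1⟩⟩

/-- the roots of `X ^ 2 - D` modulo an odd prime -/
theorem rho_quad' (D : ℤ) {p : ℕ} (hp : p.Prime) (h2 : p ≠ 2) :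
    (rho (X ^ 2 - C D) p : ℤ) = 1 + J(D | p) := by
  classical
  have hF : Fact p.Prime := ⟨hp⟩
  have h1 := legendreSym.card_sqrts p h2 D
  rw [← jacobiSym.legendreSym.to_jacobiSym, add_comm, ← h1]
  unfold rho
  congr 1
  refine Finset.card_bij (fun a _ => (a : ZMod p)) ?_ ?_ ?_
  · intro a ha
    rw [Finset.mem_filter, Finset.mem_range] at ha
    rw [Set.mem_toFinset, Set.mem_ofPred_eq]
    have h3 := ha.2
    rw [eval_sub, eval_pow, eval_X, eval_C, ← ZMod.intCast_zmod_eq_zero_iff_dvd] at h3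
    push_cast at h3
    exact sub_eq_zero.1 h3
  · intro a ha b hb hab
    rw [Finset.mem_filter, Finset.mem_range] at ha hb
    rw [ZMod.natCast_eq_natCast_iff'] at hab
    rwa [Nat.mod_eq_of_lt ha.1, Nat.mod_eq_of_lt hb.1] at hab
  · intro z hz
    rw [Set.mem_toFinset, Set.mem_ofPred_eq] at hz
    refine ⟨z.val, ?_, by simp⟩
    rw [Finset.mem_filter, Finset.mem_range]
    refine ⟨ZMod.val_lt z, ?_⟩
    rw [eval_sub, eval_pow, eval_X, eval_C, ← ZMod.intCast_zmod_eq_zero_iff_dvd]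
    push_cast
    rw [ZMod.natCast_val, ZMod.cast_id', id, hz, sub_self]

theorem irr_quad' {D : ℤ} (hD : ¬ IsSquare D) : Irreducible (X ^ 2 - C D : ℤ[X]) := by
  have hm : (X ^ 2 - C D : ℤ[X]).Monic := monic_X_pow_sub_C D (by norm_num)
  have hn : (X ^ 2 - C D : ℤ[X]).natDegree = 2 := natDegree_X_pow_sub_C
  rw [hm.irreducible_iff_roots_eq_zero_of_degree_le_three (by rw [hn]) (by rw [hn]; norm_num)]
  rw [Multiset.eq_zero_iff_forall_notMem]
  intro a ha
  rw [mem_roots hm.ne_zero, IsRoot.def, eval_sub, eval_pow, eval_X, eval_C] at ha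
  exact hD ⟨a, by rw [← pow_two]; linarith⟩

/-- the sum of `1 / p` over the prime factors is small -/
lemma sgm_le (ε : ℝ) (hε : 0 < ε) : ∃ C : ℝ, 0 ≤ C ∧ ∀ M : ℕ, 1 ≤ M → sgm M ≤ ε * Real.log M + C := by
  obtain ⟨P, hP⟩ : ∃ P : ℕ, P = ⌈2 / ε⌉₊ + 1 := ⟨_, rfl⟩
  have hP1 : 2 / ε ≤ P := by rw [hP]; push_cast; linarith [Nat.le_ceil (2 / ε)]
  have hP0 : (0 : ℝ) < P := by rw [hP]; positivity
  refine ⟨P, hP0.le, fun M hM => ?_⟩
  have hM0 : M ≠ 0 := by omega
  have hlM : 0 ≤ Real.log M := Real.log_nonneg (by exact_mod_cast hM)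
  have hω : (M.primeFactors.card : ℝ) * Real.log 2 ≤ Real.log M := by
    have h1 : 2 ^ M.primeFactors.card ≤ M := by
      calc 2 ^ M.primeFactors.card ≤ ∏ p ∈ M.primeFactors, p :=
            Finset.pow_card_le_prod _ _ _ fun p hp => (Nat.prime_of_mem_primeFactors hp).two_le
        _ ≤ M := Nat.le_of_dvd hM (Nat.prod_primeFactors_dvd M)
    have h2 : ((2 : ℝ)) ^ M.primeFactors.card ≤ M := by exact_mod_cast h1
    have h3 := Real.log_le_log (by positivity) h2
    rwa [Real.log_pow] at h3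
  have hl2 : (1 : ℝ) / 2 ≤ Real.log 2 := by linarith [Real.log_two_gt_d9]
  have hω2 : (M.primeFactors.card : ℝ) ≤ 2 * Real.log M := by
    have : (0 : ℝ) ≤ M.primeFactors.card := Nat.cast_nonneg _
    nlinarith
  have h1 : sgm M ≤ ∑ p ∈ M.primeFactors, ((if p ≤ P then (1 : ℝ) / 1 * (if p ∈ Icc 1 P then 1 else 0) else 0) + 1 / P) := by
    unfold sgm
    apply sum_le_sum
    intro p hp
    have hpp := Nat.prime_of_mem_primeFactors hp
    have hp1 : (1 : ℝ) ≤ p := by exact_mod_cast hpp.one_lt.le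
    have hp0 : (0 : ℝ) < p := by linarith
    by_cases hc : p ≤ P
    · rw [if_pos hc, if_pos (mem_Icc.2 ⟨hpp.one_lt.le, hc⟩)]
      have e1 : 1 / (p : ℝ) ≤ 1 := by rw [div_le_one hp0]; exact hp1
      have e2 : 0 ≤ 1 / (P : ℝ) := by positivity
      linarith
    · rw [if_neg hc, zero_add]
      push Not at hc
      apply one_div_le_one_div_of_le hP0
      exact_mod_cast hc.le
  refine h1.trans ?_
  rw [sum_add_distrib, sum_const, nsmul_eq_mul]
  have h2 : ∑ p ∈ M.primeFactors, (if p ≤ P then (1 : ℝ) / 1 * (if p ∈ Icc 1 P then 1 else 0) else 0) ≤ P := by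
    calc ∑ p ∈ M.primeFactors, (if p ≤ P then (1 : ℝ) / 1 * (if p ∈ Icc 1 P then 1 else 0) else 0) ≤
          ∑ p ∈ M.primeFactors, (if p ∈ Icc 1 P then (1 : ℝ) else 0) := by
          apply sum_le_sum
          intro p _
          split_ifs <;> norm_num
      _ = ((M.primeFactors.filter fun p => p ∈ Icc 1 P).card : ℝ) := by
          rw [← sum_filter, sum_const, nsmul_eq_mul, mul_one]
      _ ≤ ((Icc 1 P).card : ℝ) := by
          apply Nat.cast_le.2
          apply card_le_card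
          intro p hp
          exact (mem_filter.1 hp).2
      _ = P := by rw [Nat.card_Icc, Nat.add_sub_cancel]
  have h3 : (M.primeFactors.card : ℝ) * (1 / P) ≤ ε * Real.log M := by
    have e1 : 1 / (P : ℝ) ≤ ε / 2 := by
      rw [div_le_iff₀ hP0]
      rw [div_le_iff₀ hε] at hP1
      linarith
    calc (M.primeFactors.card : ℝ) * (1 / P) ≤ (2 * Real.log M) * (ε / 2) :=
          mul_le_mul hω2 e1 (by positivity) (by positivity)
      _ = ε * Real.log M := by ring
  linarith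

end Run7.h914.IFm.RP
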