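import Pool.Agent.Run7.h914.IFm.S6

set_option autoImplicit false
set_option maxHeartbeats 4000000

/-!
The number of the members `v` of a family of integers with small exponential sums for which `4 v² - e` and `4 v² + 2 v - e`
are both prime.
-/

namespace Run7.h914.IFm.RP

open Finset Filter
open scoped NumberTheorySymbols
open scoped Classical

/-- the number of the roots modulo an odd prime of `f`, `c f(n) = (α n + β)² - D` -/
lemma root_count (p : ℕ) (hp : p.Prime) (h2 : p ≠ 2) (α β D c : ℤ) (f : ℤ → ℤ) (hα : ¬ (p : ℤ) ∣ α) (hc : ¬ (p : ℤ) ∣ c)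
    (hf : ∀ n, c * f n = (α * n + β) ^ 2 - D) :
    ((((range p).filter fun n : ℕ => (p : ℤ) ∣ f n).card : ℕ) : ℤ) = 1 + J(D | p) := by
  have hF : Fact p.Prime := ⟨hp⟩
  have h1 := legendreSym.card_sqrts p h2 D
  rw [← jacobiSym.legendreSym.to_jacobiSym, add_comm, ← h1]
  have hα' : (α : ZMod p) ≠ 0 := by
    intro h
    exact hα ((ZMod.intCast_zmod_eq_zero_iff_dvd α p).1 h)
  have hc' : (c : ZMod p) ≠ 0 := by
    intro h
    exact hc ((ZMod.intCast_zmod_eq_zero_iff_dvd c p).1 h)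
  have hf' : ∀ n : ℤ, (c : ZMod p) * ((f n : ℤ) : ZMod p) = ((α : ZMod p) * (n : ZMod p) + (β : ZMod p)) ^ 2 - (D : ZMod p) := by
    intro n
    have := congrArg (fun x : ℤ => (x : ZMod p)) (hf n)
    push_cast at this
    exact this
  congr 1
  refine Finset.card_bij (fun a _ => (α : ZMod p) * (a : ZMod p) + (β : ZMod p)) ?_ ?_ ?_
  · intro a ha
    rw [Finset.mem_filter, Finset.mem_range] at ha
    rw [Set.mem_toFinset, Set.mem_ofPred_eq]
    have h3 := (ZMod.intCast_zmod_eq_zero_iff_dvd (f a) p).2 ha.2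
    have h4 := hf' a
    rw [h3, mul_zero] at h4
    push_cast at h4
    exact (sub_eq_zero.1 h4.symm)
  · intro a ha b hb hab
    rw [Finset.mem_filter, Finset.mem_range] at ha hb
    have h3 : (a : ZMod p) = (b : ZMod p) := by
      have h4 : (α : ZMod p) * (a : ZMod p) = (α : ZMod p) * (b : ZMod p) := by
        have := hab
        exact add_right_cancel this
      exact mul_left_cancel₀ hα' h4
    rw [ZMod.natCast_eq_natCast_iff'] at h3
    rwa [Nat.mod_eq_of_lt ha.1, Nat.mod_eq_of_lt hb.1] at h3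
  · intro z hz
    rw [Set.mem_toFinset, Set.mem_ofPred_eq] at hz
    obtain ⟨y, hy⟩ : ∃ y : ZMod p, y = (z - β) / α := ⟨_, rfl⟩
    have hy2 : (α : ZMod p) * y + β = z := by
      rw [hy]
      field_simp
      ring
    refine ⟨y.val, ?_, ?_⟩
    · rw [Finset.mem_filter, Finset.mem_range]
      refine ⟨ZMod.val_lt y, ?_⟩
      rw [← ZMod.intCast_zmod_eq_zero_iff_dvd]
      have h4 := hf' ((y.val : ℕ) : ℤ)
      have hyv : ((y.val : ℕ) : ZMod p) = y := by rw [ZMod.natCast_val, ZMod.cast_id', id]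
      rw [Int.cast_natCast, hyv, hy2, hz, sub_self] at h4
      rcases mul_eq_zero.1 h4 with h5 | h5
      · exact absurd h5 hc'
      · exact h5
    · rw [ZMod.natCast_val, ZMod.cast_id', id]
      exact hy2

/-- one of `4 n² - e`, `4 n² + 2 n - e` is divisible by `p` -/
def Q2 (e : ℤ) (p : ℕ) (n : ℤ) : Prop := (p : ℤ) ∣ 4 * n ^ 2 - e ∨ (p : ℤ) ∣ 4 * n ^ 2 + 2 * n - e

lemma Q2_per (e : ℤ) (p : ℕ) (n : ℤ) : Q2 e p (n + p) ↔ Q2 e p n := by
  unfold Q2
  have e1 : 4 * (n + (p : ℤ)) ^ 2 - e = (4 * n ^ 2 - e) + p * (8 * n + 4 * p) := by ring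
  have e2 : 4 * (n + (p : ℤ)) ^ 2 + 2 * (n + p) - e = (4 * n ^ 2 + 2 * n - e) + p * (8 * n + 4 * p + 2) := by ring
  rw [e1, e2, dvd_add_left (dvd_mul_right _ _), dvd_add_left (dvd_mul_right _ _)]

lemma not_dvd_pow2 {p : ℕ} (hp : p.Prime) (h2 : p ≠ 2) (k : ℕ) : ¬ (p : ℤ) ∣ 2 ^ k := by
  intro h
  have h1 : p ∣ 2 ^ k := by exact_mod_cast h
  exact h2 ((Nat.prime_dvd_prime_iff_eq hp Nat.prime_two).1 (hp.dvd_of_dvd_pow h1))

lemma jac_le (D : ℤ) (p : ℕ) : J(D | p) ≤ 1 := by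
  rcases jacobiSym.trichotomy D p with h | h | h <;> rw [h] <;> norm_num

lemma cnt1 (e : ℤ) {p : ℕ} (hp : p.Prime) (h2 : p ≠ 2) :
    ((((range p).filter fun n : ℕ => (p : ℤ) ∣ 4 * (n : ℤ) ^ 2 - e).card : ℕ) : ℤ) = 1 + J(e | p) := by
  refine root_count p hp h2 2 0 e 1 (fun n => 4 * n ^ 2 - e) ?_ ?_ (fun n => by ring)
  · have := not_dvd_pow2 hp h2 1
    simpa using this
  · have := not_dvd_pow2 hp h2 0
    simpa using this

lemma cnt2 (e : ℤ) {p : ℕ} (hp : p.Prime) (h2 : p ≠ 2) :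
    ((((range p).filter fun n : ℕ => (p : ℤ) ∣ 4 * (n : ℤ) ^ 2 + 2 * n - e).card : ℕ) : ℤ) = 1 + J(4 * e + 1 | p) := by
  refine root_count p hp h2 4 1 (4 * e + 1) 4 (fun n => 4 * n ^ 2 + 2 * n - e) ?_ ?_ (fun n => by ring)
  · have := not_dvd_pow2 hp h2 2
    norm_num at this
    exact this
  · have := not_dvd_pow2 hp h2 2
    norm_num at this
    exact this

lemma rq_Q2_eq (e : ℤ) (p : ℕ) : rq (Q2 e) p = (((range p).filter fun n : ℕ => (p : ℤ) ∣ 4 * (n : ℤ) ^ 2 - e) ∪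
    ((range p).filter fun n : ℕ => (p : ℤ) ∣ 4 * (n : ℤ) ^ 2 + 2 * n - e)).card := by
  unfold rq
  congr 1
  ext n
  simp only [mem_union, mem_filter]
  unfold Q2
  tauto

lemma rq_Q2_le (e : ℤ) (p : ℕ) (hp : p.Prime) : rq (Q2 e) p ≤ 4 := by
  by_cases h2 : p = 2
  · unfold rq
    refine (card_filter_le _ _).trans ?_
    rw [card_range]
    omega
  · rw [rq_Q2_eq]
    refine (card_union_le _ _).trans ?_
    have h3 := cnt1 e hp h2
    have h4 := cnt2 e hp h2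
    have h5 := jac_le e p
    have h6 := jac_le (4 * e + 1) p
    omega

lemma jD_prime (D : ℤ) {p : ℕ} (hp : p.Prime) (h2 : p ≠ 2) : jD D p = J(D | p) := by
  unfold jD
  rw [if_pos]
  rcases hp.eq_two_or_odd with h | h
  · exact absurd h h2
  · exact h

lemma rq_Q2_ge (e : ℕ) (p : ℕ) (hp : p.Prime) : (2 : ℝ) + jD e p + jD (4 * e + 1) p -
    (if p ∈ (2 * e).primeFactors ∨ e = 0 then 4 else 0) ≤ rq (Q2 e) p := by
  have hj1 := (abs_le.1 (jD_abs e p)).2
  have hj2 := (abs_le.1 (jD_abs (4 * e + 1) p)).2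
  by_cases hc : p ∈ (2 * e).primeFactors ∨ e = 0
  · rw [if_pos hc]
    have : (0 : ℝ) ≤ rq (Q2 e) p := Nat.cast_nonneg _
    linarith
  · rw [if_neg hc, sub_zero]
    push Not at hc
    obtain ⟨hc1, hc2⟩ := hc
    have hnd : ¬ p ∣ 2 * e := fun h => hc1 (Nat.mem_primeFactors.2 ⟨hp, h, by omega⟩)
    have h2 : p ≠ 2 := by rintro rfl; exact hnd (dvd_mul_right _ _)
    rw [rq_Q2_eq, card_union_of_disjoint]
    · have h3 := cnt1 e hp h2
      have h4 := cnt2 e hp h2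
      rw [jD_prime e hp h2, jD_prime (4 * e + 1) hp h2]
      push_cast
      have h3' : ((((range p).filter fun n : ℕ => (p : ℤ) ∣ 4 * (n : ℤ) ^ 2 - e).card : ℕ) : ℝ) = 1 + (J(e | p) : ℤ) := by
        exact_mod_cast h3
      have h4' : ((((range p).filter fun n : ℕ => (p : ℤ) ∣ 4 * (n : ℤ) ^ 2 + 2 * n - e).card : ℕ) : ℝ) = 1 + (J(4 * e + 1 | p) : ℤ) := by
        exact_mod_cast h4
      rw [h3', h4']
      linarith
    · rw [disjoint_left]
      intro n hn hn2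
      rw [mem_filter] at hn hn2
      have h3 : (p : ℤ) ∣ 2 * n := by
        have := dvd_sub hn2.2 hn.2
        have e1 : 4 * (n : ℤ) ^ 2 + 2 * n - e - (4 * (n : ℤ) ^ 2 - e) = 2 * n := by ring
        rwa [e1] at this
      have h4 : (p : ℤ) ∣ 2 * e := by
        have h5 : (p : ℤ) ∣ 2 * n * (4 * n) - 2 * (4 * (n : ℤ) ^ 2 - e) :=
          dvd_sub (h3.mul_right _) (hn.2.mul_left _)
        have e1 : 2 * (n : ℤ) * (4 * n) - 2 * (4 * (n : ℤ) ^ 2 - e) = 2 * e := by ring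
        rwa [e1] at h5
      exact hnd (by exact_mod_cast h4)

/-- the sieve product -/
lemma Q2_sum (ε : ℝ) (hε : 0 < ε) : ∃ C : ℝ, 0 ≤ C ∧ ∀ e : ℕ, 1 ≤ e → ¬ IsSquare (e : ℤ) → ¬ IsSquare (4 * (e : ℤ) + 1) →
    ∀ N : ℕ, 3 ≤ N → 2 * Real.log (Real.log N) - (ε * Real.log e + C) ≤ ∑ p ∈ pz N, (rq (Q2 e) p : ℝ) / p := by
  obtain ⟨C₁, hC₁, h1⟩ := char_low (ε / 6) (by positivity)
  obtain ⟨C₂, hC₂, h2⟩ := mert_one'
  obtain ⟨C₃, hC₃, h3⟩ := sgm_le (ε / 6) (by positivity)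
  refine ⟨2 * C₂ + 2 * C₁ + 4 * C₃ + ε * Real.log 5 + ε * Real.log 2, ?_, fun e he hs1 hs2 N hN => ?_⟩
  · have e1 : 0 ≤ Real.log 5 := Real.log_nonneg (by norm_num)
    have e2 : 0 ≤ Real.log 2 := Real.log_nonneg (by norm_num)
    positivity
  have her : (1 : ℝ) ≤ e := by exact_mod_cast he
  have hle : 0 ≤ Real.log e := Real.log_nonneg her
  have hl5 : 0 ≤ Real.log 5 := Real.log_nonneg (by norm_num)
  have hl2 : 0 ≤ Real.log 2 := Real.log_nonneg (by norm_num)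
  have a1 := h1 e hs1 N hN
  have a2 := h1 (4 * e + 1) hs2 N hN
  have a3 := h3 (2 * e) (by omega)
  have a4 := (abs_le.1 (h2 (N : ℝ) (by exact_mod_cast hN))).1
  rw [← pz_PR] at a4
  have n1 : ((e : ℤ)).natAbs = e := Int.natAbs_natCast e
  have n2 : (4 * (e : ℤ) + 1).natAbs = 4 * e + 1 := by omega
  rw [n1] at a1
  rw [n2] at a2
  have l1 : Real.log ((4 * e + 1 : ℕ) : ℝ) ≤ Real.log 5 + Real.log e := by
    rw [← Real.log_mul (by norm_num) (by positivity)]
    apply Real.log_le_log (by positivity)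
    push_cast
    linarith
  have l2 : Real.log ((2 * e : ℕ) : ℝ) = Real.log 2 + Real.log e := by
    push_cast
    rw [Real.log_mul (by norm_num) (by positivity)]
  rw [l2] at a3
  have hsum : ∑ p ∈ pz N, ((2 : ℝ) * (1 / p) + (jD e p : ℝ) / p + (jD (4 * e + 1) p : ℝ) / p -
      (if p ∈ (2 * e).primeFactors then 4 * (1 / (p : ℝ)) else 0)) ≤ ∑ p ∈ pz N, (rq (Q2 e) p : ℝ) / p := by
    apply sum_le_sum
    intro p hp
    have hpp := (mem_pz.1 hp).2
    have hp0 : (0 : ℝ) < p := by exact_mod_cast hpp.pos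
    have e1 := rq_Q2_ge e p hpp
    have e2 : (2 : ℝ) * (1 / p) + (jD e p : ℝ) / p + (jD (4 * e + 1) p : ℝ) / p -
      (if p ∈ (2 * e).primeFactors then 4 * (1 / (p : ℝ)) else 0) = ((2 : ℝ) + jD e p + jD (4 * e + 1) p -
        (if p ∈ (2 * e).primeFactors ∨ e = 0 then 4 else 0)) / p := by
      by_cases hc : p ∈ (2 * e).primeFactors
      · rw [if_pos hc, if_pos (Or.inl hc)]
        ring
      · rw [if_neg hc, if_neg (by rintro (h | h); exacts [hc h, by omega])]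
        ring
    rw [e2]
    exact div_le_div_of_nonneg_right e1 hp0.le
  rw [sum_sub_distrib, sum_add_distrib, sum_add_distrib, ← mul_sum, ← sum_filter] at hsum
  have hs4 : ∑ p ∈ (pz N).filter (fun p => p ∈ (2 * e).primeFactors), 4 * (1 / (p : ℝ)) ≤ 4 * sgm (2 * e) := by
    rw [← mul_sum]
    apply mul_le_mul_of_nonneg_left _ (by norm_num)
    unfold sgm
    apply sum_le_sum_of_subset_of_nonneg
    · intro p hp
      exact (mem_filter.1 hp).2
    · intro p _ _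
      positivity
  nlinarith

end Run7.h914.IFm.RP
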