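import Pool.Agent.Run7.h914.IFm.S8
import Pool.Agent.H399R2.Abs

set_option autoImplicit false
set_option maxHeartbeats 4000000

/-!
The first zero of the recursion `a(n) = |a(n-1) - gcd(a(n-1), n(n+2m))|`, `a(1) = 4m²`.
-/

namespace Run7.h914.IFm.RP

open Finset Filter
open Pool.Agent.H399R2
open scoped Classical

/-- the recursion -/
noncomputable def am (m : ℕ) : ℕ → ℤ
  | 0 => 0
  | 1 => 4 * (m : ℤ) ^ 2
  | (n + 2) => |am m (n + 1) - ((Int.gcd (am m (n + 1)) (((n + 2 : ℕ) : ℤ) * (((n + 2 : ℕ) : ℤ) + 2 * (m : ℤ))) : ℕ) : ℤ)|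

/-- its first zero -/
noncomputable def zm (m : ℕ) : ℕ := sInf {n : ℕ | 1 ≤ n ∧ am m n = 0}

lemma am_one (m : ℕ) : am m 1 = 4 * (m : ℤ) ^ 2 := by rw [am]

lemma am_rec (m n : ℕ) (hn : 2 ≤ n) :
    am m n = |am m (n - 1) - ((Int.gcd (am m (n - 1)) ((n : ℤ) * ((n : ℤ) + 2 * (m : ℤ))) : ℕ) : ℤ)| := by
  obtain ⟨k, rfl⟩ : ∃ k, n = k + 2 := ⟨n - 2, by omega⟩
  have : k + 2 - 1 = k + 1 := by omega
  rw [this, am]

lemma zm_ne (m k : ℕ) (hk : 1 ≤ k) (hkz : k < zm m) : am m k ≠ 0 := by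
  intro h
  have := Nat.sInf_le (show k ∈ {n : ℕ | 1 ≤ n ∧ am m n = 0} from ⟨hk, h⟩)
  unfold zm at hkz
  omega

lemma zm_mem (m : ℕ) (h : 0 < zm m) : 1 ≤ zm m ∧ am m (zm m) = 0 := by
  have hne : {n : ℕ | 1 ≤ n ∧ am m n = 0}.Nonempty := Nat.nonempty_of_pos_sInf h
  exact Nat.sInf_mem hne

lemma seg_dec {x : ℕ → ℕ} {V : ℕ → ℤ} {s e : ℕ} (h : Seg x V s e) (n : ℕ) (h1 : s ≤ n) (h2 : n ≤ e) :
    x n + n ≤ x s + s := by
  induction n, h1 using Nat.le_induction with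
  | base => exact le_rfl
  | succ n hn ih =>
    have e1 := h.step n hn (by omega)
    have e2 := h.gcd_pos hn (by omega : n < e)
    have e3 := ih (by omega)
    omega

lemma zm_seg (m : ℕ) (h : 0 < zm m) :
    Seg (fun k => (am m k).natAbs) (fun n => (n : ℤ) * ((n : ℤ) + 2 * (m : ℤ))) 1 (zm m) :=
  seg_of_zeros (V := fun n => (n : ℤ) * ((n : ℤ) + 2 * (m : ℤ))) (by rw [am_one]; positivity)
    (fun n hn => am_rec m n hn) le_rfl (by omega) (fun k h1 h2 => zm_ne m k h1 h2)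

lemma zm_le (m : ℕ) (hm : 1 ≤ m) (h : 0 < zm m) : zm m + 2 ≤ 4 * m ^ 2 := by
  have hseg := zm_seg m h
  have h1 : (am m 1).natAbs = 4 * m ^ 2 := by
    rw [am_one]
    have : (4 * (m : ℤ) ^ 2) = ((4 * m ^ 2 : ℕ) : ℤ) := by push_cast; ring
    rw [this, Int.natAbs_natCast]
  have hz1 : zm m ≠ 1 := by
    intro hz
    have h2 := (zm_mem m h).2
    rw [hz] at h2
    rw [h2] at h1
    have : 0 < 4 * m ^ 2 := by positivity
    simp at h1
    omega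
  have hz2 : 1 < zm m := by omega
  have e1 := hseg.step 1 le_rfl hz2
  have e2 := hseg.gcd_pos le_rfl hz2
  try simp only at e1 e2
  rw [h1] at e1 e2
  have e3 : 4 ∣ Int.gcd ((4 * m ^ 2 : ℕ) : ℤ) (((1 + 1 : ℕ) : ℤ) * (((1 + 1 : ℕ) : ℤ) + 2 * (m : ℤ))) := by
    have : (4 : ℤ) ∣ (Int.gcd ((4 * m ^ 2 : ℕ) : ℤ) (((1 + 1 : ℕ) : ℤ) * (((1 + 1 : ℕ) : ℤ) + 2 * (m : ℤ))) : ℤ) := by
      apply Int.dvd_coe_gcd
      · exact ⟨(m : ℤ) ^ 2, by push_cast; ring⟩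
      · exact ⟨1 + m, by push_cast; ring⟩
    exact_mod_cast this
  have e4 := Nat.le_of_dvd e2 e3
  have e5 := seg_dec hseg (zm m) (by omega) le_rfl
  have hseg2 : Seg (fun k => (am m k).natAbs) (fun n => (n : ℤ) * ((n : ℤ) + 2 * (m : ℤ))) 2 (zm m) :=
    ⟨hz2, fun n hn hn2 => hseg.step n (by omega) hn2, fun n hn hn2 => hseg.pos n (by omega) hn2⟩
  have e6 := seg_dec hseg2 (zm m) hz2 le_rfl
  try simp only at e6
  have e7 : (am m (1 + 1)).natAbs = (am m 2).natAbs := rfl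
  rw [e7] at e1
  omega

/-- near the maximal value of the first zero both numbers are prime -/
lemma zm_primes (m : ℕ) (h : 0 < zm m) (hlong : 12 * m ^ 2 + 2 * Nat.sqrt (zm m + 2 * m + 1) + 1 < 5 * (zm m - 1)) :
    (zm m + 1).Prime ∧ (zm m + 2 * m + 1).Prime := by
  have hseg := zm_seg m h
  have h1 : (am m 1).natAbs = 4 * m ^ 2 := by
    rw [am_one]
    have : (4 * (m : ℤ) ^ 2) = ((4 * m ^ 2 : ℕ) : ℤ) := by push_cast; ring
    rw [this, Int.natAbs_natCast]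
  obtain ⟨n', hn'⟩ : ∃ n', n' = zm m := ⟨_, rfl⟩
  have hz0 := (zm_mem m h).2
  rw [← hn'] at hseg hlong hz0 h ⊢
  obtain ⟨l, hsl, hle, hrun, hineq⟩ := hseg.final (by show (am m n').natAbs = 0; rw [hz0]; rfl) 1 le_rfl
    (by
      intro p hp k hk h
      rw [one_mul] at h
      have h2 : ((k + p : ℕ) : ℤ) * (((k + p : ℕ) : ℤ) + 2 * (m : ℤ)) = (k : ℤ) * ((k : ℤ) + 2 * (m : ℤ)) + (p : ℤ) * (2 * k + p + 2 * m) := by
        push_cast; ring
      try simp only at h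
      rw [h2] at h
      exact (Int.dvd_add_left (Dvd.intro _ rfl)).mp h)
    (by
      right
      refine ⟨0, ?_⟩
      intro k hk
      try simp only
      constructor
      · intro h
        rcases (Int.prime_two.dvd_mul).mp h with h | h <;> omega
      · intro h
        exact Dvd.dvd.mul_right (by omega) _)
  try simp only at hineq hrun
  rw [h1] at hineq
  have key : ∀ p : ℕ, p.Prime → p ∣ (n' + 1) * (n' + 2 * m + 1) → p ≤ n' - 1 → n' - l < p := by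
    intro p hp hdvd hpn
    by_contra hcon
    push Not at hcon
    obtain ⟨h1, h2⟩ := hrun (n' - p) (by omega) (by have := hp.pos; omega)
    have h3 : (am m (n' - p)).natAbs = p := by omega
    rw [h3] at h1
    have h4 : (p : ℤ) ∣ ((n' - p + 1 : ℕ) : ℤ) * (((n' - p + 1 : ℕ) : ℤ) + 2 * (m : ℤ)) := by
      have e1 : ((n' - p + 1 : ℕ) : ℤ) * (((n' - p + 1 : ℕ) : ℤ) + 2 * (m : ℤ)) = (((n' + 1) * (n' + 2 * m + 1) : ℕ) : ℤ)
          + (p : ℤ) * (p - 2 * n' - 2 - 2 * m) := by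
        have : ((n' - p + 1 : ℕ) : ℤ) = (n' : ℤ) - p + 1 := by
          rw [Nat.cast_add, Nat.cast_sub (by omega)]; simp
        rw [this]; push_cast; ring
      rw [e1]
      exact dvd_add (Int.natCast_dvd_natCast.mpr hdvd) (Dvd.intro _ rfl)
    have h5 : (p : ℤ) ∣ (Int.gcd (p : ℤ) (((n' - p + 1 : ℕ) : ℤ) * (((n' - p + 1 : ℕ) : ℤ) + 2 * (m : ℤ))) : ℤ) :=
      Int.dvd_coe_gcd (dvd_refl _) h4
    rw [h1] at h5
    have h6 : p ∣ 1 := by exact_mod_cast h5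
    exact hp.one_lt.ne' (Nat.dvd_one.mp h6)
  have fin : ∀ p : ℕ, p.Prime → p ∣ (n' + 1) * (n' + 2 * m + 1) → p ≤ Nat.sqrt (n' + 2 * m + 1) → False := by
    intro p hp h1 h2
    by_cases hpn : p ≤ n' - 1
    · have h3 := key p hp h1 hpn
      omega
    · omega
  constructor
  · by_contra hp1
    apply fin (Nat.minFac (n' + 1)) (Nat.minFac_prime (by omega))
      (Dvd.dvd.mul_right (Nat.minFac_dvd _) _)
    rw [Nat.le_sqrt']
    exact (Nat.minFac_sq_le_self (by omega) hp1).trans (by omega)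
  · by_contra hp2
    apply fin (Nat.minFac (n' + 2 * m + 1)) (Nat.minFac_prime (by omega))
      (Dvd.dvd.mul_left (Nat.minFac_dvd _) _)
    rw [Nat.le_sqrt']
    exact Nat.minFac_sq_le_self (by omega) hp2

/-- the case used in the sieve -/
lemma zm_pair (m H : ℕ) (hm : H + 8 ≤ m) (h : 4 * m ^ 2 ≤ zm m + H) :
    ∃ e : ℕ, 1 ≤ e ∧ e ≤ H ∧ (4 * (m : ℤ) ^ 2 - e).toNat.Prime ∧ (4 * (m : ℤ) ^ 2 + 2 * m - e).toNat.Prime := by
  have hm2 : m * (H + 8) ≤ m ^ 2 := by rw [sq]; exact Nat.mul_le_mul_left m hm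
  have hm3 : m * (H + 8) = m * H + 8 * m := by ring
  have hmH : H ≤ m * H := Nat.le_mul_of_pos_left H (by omega)
  have hz0 : 0 < zm m := by omega
  have h1 := zm_le m (by omega) hz0
  have hsq : Nat.sqrt (zm m + 2 * m + 1) ≤ 2 * m + 1 := by
    have h3 : Nat.sqrt (zm m + 2 * m + 1) < 2 * m + 2 := by
      rw [Nat.sqrt_lt']
      have : (2 * m + 2) ^ 2 = 4 * m ^ 2 + 8 * m + 4 := by ring
      omega
    omega
  have h2 := zm_primes m hz0 (by omega)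
  refine ⟨4 * m ^ 2 - zm m - 1, by omega, by omega, ?_, ?_⟩
  · have e1 : (4 * (m : ℤ) ^ 2 - ((4 * m ^ 2 - zm m - 1 : ℕ) : ℤ)).toNat = zm m + 1 := by
      have : ((4 * m ^ 2 - zm m - 1 : ℕ) : ℤ) = 4 * (m : ℤ) ^ 2 - zm m - 1 := by
        have e2 : (4 * m ^ 2 - zm m - 1 : ℕ) + zm m + 1 = 4 * m ^ 2 := by omega
        have e3 : (((4 * m ^ 2 - zm m - 1 : ℕ) + zm m + 1 : ℕ) : ℤ) = ((4 * m ^ 2 : ℕ) : ℤ) := by rw [e2]
        push_cast at e3
        push_cast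
        linarith
      rw [this]
      omega
    rw [e1]
    exact h2.1
  · have e1 : (4 * (m : ℤ) ^ 2 + 2 * m - ((4 * m ^ 2 - zm m - 1 : ℕ) : ℤ)).toNat = zm m + 2 * m + 1 := by
      have : ((4 * m ^ 2 - zm m - 1 : ℕ) : ℤ) = 4 * (m : ℤ) ^ 2 - zm m - 1 := by
        have e2 : (4 * m ^ 2 - zm m - 1 : ℕ) + zm m + 1 = 4 * m ^ 2 := by omega
        have e3 : (((4 * m ^ 2 - zm m - 1 : ℕ) + zm m + 1 : ℕ) : ℤ) = ((4 * m ^ 2 : ℕ) : ℤ) := by rw [e2]
        push_cast at e3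
        push_cast
        linarith
      rw [this]
      omega
    rw [e1]
    exact h2.2

end Run7.h914.IFm.RP
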