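import Pool.Agent.Run7.h914.IFm.S8

set_option autoImplicit false
set_option maxHeartbeats 4000000

/-!
The number of the members `v` of a family of integers with small exponential sums for which `v² + 3 v + 2 - e` and
`v² + 3 v + 4 - e` are both prime: the sieve product.
-/

namespace Run7.h914.IFm.RP

open Finset Filter
open scoped NumberTheorySymbols
open scoped Classical

/-- one of `n² + 3 n + 2 - e`, `n² + 3 n + 4 - e` is divisible by `p` -/
def Q3 (e : ℤ) (p : ℕ) (n : ℤ) : Prop := (p : ℤ) ∣ n ^ 2 + 3 * n + 2 - e ∨ (p : ℤ) ∣ n ^ 2 + 3 * n + 4 - e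

lemma Q3_per (e : ℤ) (p : ℕ) (n : ℤ) : Q3 e p (n + p) ↔ Q3 e p n := by
  unfold Q3
  have e1 : (n + (p : ℤ)) ^ 2 + 3 * (n + p) + 2 - e = (n ^ 2 + 3 * n + 2 - e) + p * (2 * n + p + 3) := by ring
  have e2 : (n + (p : ℤ)) ^ 2 + 3 * (n + p) + 4 - e = (n ^ 2 + 3 * n + 4 - e) + p * (2 * n + p + 3) := by ring
  rw [e1, e2, dvd_add_left (dvd_mul_right _ _), dvd_add_left (dvd_mul_right _ _)]

lemma cnt31 (e : ℤ) {p : ℕ} (hp : p.Prime) (h2 : p ≠ 2) :
    ((((range p).filter fun n : ℕ => (p : ℤ) ∣ (n : ℤ) ^ 2 + 3 * n + 2 - e).card : ℕ) : ℤ) = 1 + J(4 * e + 1 | p) := by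
  refine root_count p hp h2 2 3 (4 * e + 1) 4 (fun n => n ^ 2 + 3 * n + 2 - e) ?_ ?_ (fun n => by ring)
  · have := not_dvd_pow2 hp h2 1
    simpa using this
  · have := not_dvd_pow2 hp h2 2
    norm_num at this
    exact this

lemma cnt32 (e : ℤ) {p : ℕ} (hp : p.Prime) (h2 : p ≠ 2) :
    ((((range p).filter fun n : ℕ => (p : ℤ) ∣ (n : ℤ) ^ 2 + 3 * n + 4 - e).card : ℕ) : ℤ) = 1 + J(4 * e - 7 | p) := by
  refine root_count p hp h2 2 3 (4 * e - 7) 4 (fun n => n ^ 2 + 3 * n + 4 - e) ?_ ?_ (fun n => by ring)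
  · have := not_dvd_pow2 hp h2 1
    simpa using this
  · have := not_dvd_pow2 hp h2 2
    norm_num at this
    exact this

lemma rq_Q3_eq (e : ℤ) (p : ℕ) : rq (Q3 e) p = (((range p).filter fun n : ℕ => (p : ℤ) ∣ (n : ℤ) ^ 2 + 3 * n + 2 - e) ∪
    ((range p).filter fun n : ℕ => (p : ℤ) ∣ (n : ℤ) ^ 2 + 3 * n + 4 - e)).card := by
  unfold rq
  congr 1
  ext n
  simp only [mem_union, mem_filter]
  unfold Q3
  tauto

lemma rq_Q3_le (e : ℤ) (p : ℕ) (hp : p.Prime) : rq (Q3 e) p ≤ 4 := by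
  by_cases h2 : p = 2
  · unfold rq
    refine (card_filter_le _ _).trans ?_
    rw [card_range]
    omega
  · rw [rq_Q3_eq]
    refine (card_union_le _ _).trans ?_
    have h3 := cnt31 e hp h2
    have h4 := cnt32 e hp h2
    have h5 := jac_le (4 * e + 1) p
    have h6 := jac_le (4 * e - 7) p
    omega

lemma rq_Q3_ge (e : ℕ) (p : ℕ) (hp : p.Prime) : (2 : ℝ) + jD (4 * e + 1) p + jD (4 * e - 7) p -
    (if p = 2 then 4 else 0) ≤ rq (Q3 e) p := by
  have hj1 := (abs_le.1 (jD_abs (4 * e + 1) p)).2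
  have hj2 := (abs_le.1 (jD_abs (4 * e - 7) p)).2
  by_cases h2 : p = 2
  · rw [if_pos h2]
    have : (0 : ℝ) ≤ rq (Q3 e) p := Nat.cast_nonneg _
    linarith
  · rw [if_neg h2, sub_zero]
    rw [rq_Q3_eq, card_union_of_disjoint]
    · have h3 := cnt31 e hp h2
      have h4 := cnt32 e hp h2
      rw [jD_prime (4 * e + 1) hp h2, jD_prime (4 * e - 7) hp h2]
      push_cast
      have h3' : ((((range p).filter fun n : ℕ => (p : ℤ) ∣ (n : ℤ) ^ 2 + 3 * n + 2 - e).card : ℕ) : ℝ) = 1 + (J(4 * e + 1 | p) : ℤ) := by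
        exact_mod_cast h3
      have h4' : ((((range p).filter fun n : ℕ => (p : ℤ) ∣ (n : ℤ) ^ 2 + 3 * n + 4 - e).card : ℕ) : ℝ) = 1 + (J(4 * e - 7 | p) : ℤ) := by
        exact_mod_cast h4
      rw [h3', h4']
      linarith
    · rw [disjoint_left]
      intro n hn hn2
      rw [mem_filter] at hn hn2
      have h3 : (p : ℤ) ∣ 2 := by
        have := dvd_sub hn2.2 hn.2
        have e1 : (n : ℤ) ^ 2 + 3 * n + 4 - e - ((n : ℤ) ^ 2 + 3 * n + 2 - e) = 2 := by ring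
        rwa [e1] at this
      have h4 : p ∣ 2 := by exact_mod_cast h3
      exact h2 ((Nat.prime_dvd_prime_iff_eq hp Nat.prime_two).1 h4)

/-- the sieve product -/
lemma Q3_sum (ε : ℝ) (hε : 0 < ε) : ∃ C : ℝ, 0 ≤ C ∧ ∀ e : ℕ, 1 ≤ e → ¬ IsSquare (4 * (e : ℤ) + 1) → ¬ IsSquare (4 * (e : ℤ) - 7) →
    ∀ N : ℕ, 3 ≤ N → 2 * Real.log (Real.log N) - (ε * Real.log e + C) ≤ ∑ p ∈ pz N, (rq (Q3 e) p : ℝ) / p := by
  obtain ⟨C₁, hC₁, h1⟩ := char_low (ε / 2) (by positivity)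
  obtain ⟨C₂, hC₂, h2⟩ := mert_one'
  refine ⟨2 * C₂ + 2 * C₁ + 2 + ε * Real.log 5 + ε * Real.log 7, ?_, fun e he hs1 hs2 N hN => ?_⟩
  · have e1 : 0 ≤ Real.log 5 := Real.log_nonneg (by norm_num)
    have e2 : 0 ≤ Real.log 7 := Real.log_nonneg (by norm_num)
    positivity
  have her : (1 : ℝ) ≤ e := by exact_mod_cast he
  have hle : 0 ≤ Real.log e := Real.log_nonneg her
  have hl5 : 0 ≤ Real.log 5 := Real.log_nonneg (by norm_num)
  have hl7 : 0 ≤ Real.log 7 := Real.log_nonneg (by norm_num)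
  have a1 := h1 (4 * e + 1) hs1 N hN
  have a2 := h1 (4 * e - 7) hs2 N hN
  have a4 := (abs_le.1 (h2 (N : ℝ) (by exact_mod_cast hN))).1
  rw [← pz_PR] at a4
  have l1 : Real.log (((4 * (e : ℤ) + 1).natAbs : ℕ) : ℝ) ≤ Real.log 5 + Real.log e := by
    rw [← Real.log_mul (by norm_num) (by positivity)]
    apply Real.log_le_log
    · have : 0 < (4 * (e : ℤ) + 1).natAbs := by omega
      exact_mod_cast this
    · have : (4 * (e : ℤ) + 1).natAbs ≤ 5 * e := by omega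
      exact_mod_cast this
  have l2 : Real.log (((4 * (e : ℤ) - 7).natAbs : ℕ) : ℝ) ≤ Real.log 7 + Real.log e := by
    rw [← Real.log_mul (by norm_num) (by positivity)]
    apply Real.log_le_log
    · have : 0 < (4 * (e : ℤ) - 7).natAbs := by omega
      exact_mod_cast this
    · have : (4 * (e : ℤ) - 7).natAbs ≤ 7 * e := by omega
      exact_mod_cast this
  have hsum : ∑ p ∈ pz N, ((2 : ℝ) * (1 / p) + (jD (4 * e + 1) p : ℝ) / p + (jD (4 * e - 7) p : ℝ) / p -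
      (if p = 2 then 4 * (1 / (p : ℝ)) else 0)) ≤ ∑ p ∈ pz N, (rq (Q3 e) p : ℝ) / p := by
    apply sum_le_sum
    intro p hp
    have hpp := (mem_pz.1 hp).2
    have hp0 : (0 : ℝ) < p := by exact_mod_cast hpp.pos
    have e1 := rq_Q3_ge e p hpp
    have e2 : (2 : ℝ) * (1 / p) + (jD (4 * e + 1) p : ℝ) / p + (jD (4 * e - 7) p : ℝ) / p -
      (if p = 2 then 4 * (1 / (p : ℝ)) else 0) = ((2 : ℝ) + jD (4 * e + 1) p + jD (4 * e - 7) p -
        (if p = 2 then 4 else 0)) / p := by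
      split_ifs <;> ring
    rw [e2]
    exact div_le_div_of_nonneg_right e1 hp0.le
  rw [sum_sub_distrib, sum_add_distrib, sum_add_distrib, ← mul_sum, ← sum_filter] at hsum
  have hs4 : ∑ p ∈ (pz N).filter (fun p => p = 2), 4 * (1 / (p : ℝ)) ≤ 2 := by
    have hsub : (pz N).filter (fun p => p = 2) ⊆ {2} := by
      intro p hp
      rw [mem_singleton]
      exact (mem_filter.1 hp).2
    refine (sum_le_sum_of_subset_of_nonneg hsub (fun p _ _ => by positivity)).trans ?_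
    rw [sum_singleton]
    norm_num
  nlinarith

end Run7.h914.IFm.RP
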