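import Pool.Agent.Run7.h914.IFm.T1

set_option autoImplicit false
set_option maxHeartbeats 4000000

/-!
The number of the members `v` of a family of integers with small exponential sums for which `v² + 3 v + 2 - e` and
`v² + 3 v + 4 - e` are both prime.
-/

namespace Run7.h914.IFm.RP

open Finset Filter
open scoped Classical

lemma sq_case31 (e v : ℤ) (he : 1 ≤ e) (hs : IsSquare (4 * e + 1)) (hv : 0 < v) (hp : (v ^ 2 + 3 * v + 2 - e).toNat.Prime) :
    v ≤ e := by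
  obtain ⟨k, hk⟩ := hs
  obtain ⟨j, hj⟩ : ∃ j : ℤ, j = |k| := ⟨_, rfl⟩
  have hj0 : 0 ≤ j := by rw [hj]; exact abs_nonneg k
  have hjk : 4 * e + 1 = j * j := by rw [hj, abs_mul_abs_self, hk]
  have hodd : j % 2 = 1 := by
    rcases Int.emod_two_eq_zero_or_one j with h | h
    · exfalso
      obtain ⟨t, ht⟩ : ∃ t, j = 2 * t := ⟨j / 2, by omega⟩
      rw [ht] at hjk
      have : 4 * e + 1 = 4 * (t * t) := by rw [hjk]; ring
      omega
    · exact h
  obtain ⟨w, hw⟩ : ∃ w, j = 2 * w + 1 := ⟨j / 2, by omega⟩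
  have hw0 : 0 ≤ w := by omega
  have hew : e = w * (w + 1) := by
    rw [hw] at hjk
    have : 4 * e = 4 * (w * (w + 1)) := by linear_combination hjk
    omega
  have hw1 : 1 ≤ w := by
    by_contra h
    have : w = 0 := by omega
    rw [this] at hew
    omega
  by_contra hcon
  push Not at hcon
  have h1 : w + 1 ≤ e := by nlinarith
  have e1 : v ^ 2 + 3 * v + 2 - e = (v + 1 - w) * (v + 2 + w) := by rw [hew]; ring
  rw [e1] at hp
  exact notprime_mul _ _ (by omega) (by omega) hp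

lemma sq_case32 (e v : ℤ) (he : 1 ≤ e) (hs : IsSquare (4 * e - 7)) (hv : 0 < v) (hp : (v ^ 2 + 3 * v + 4 - e).toNat.Prime) :
    v ≤ e := by
  obtain ⟨k, hk⟩ := hs
  obtain ⟨j, hj⟩ : ∃ j : ℤ, j = |k| := ⟨_, rfl⟩
  have hj0 : 0 ≤ j := by rw [hj]; exact abs_nonneg k
  have hjk : 4 * e - 7 = j * j := by rw [hj, abs_mul_abs_self, hk]
  have hodd : j % 2 = 1 := by
    rcases Int.emod_two_eq_zero_or_one j with h | h
    · exfalso
      obtain ⟨t, ht⟩ : ∃ t, j = 2 * t := ⟨j / 2, by omega⟩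
      rw [ht] at hjk
      have : 4 * e - 7 = 4 * (t * t) := by rw [hjk]; ring
      omega
    · exact h
  obtain ⟨w, hw⟩ : ∃ w, j = 2 * w + 1 := ⟨j / 2, by omega⟩
  have hw0 : 0 ≤ w := by omega
  have hew : e = w * (w + 1) + 2 := by
    rw [hw] at hjk
    have : 4 * e = 4 * (w * (w + 1) + 2) := by linear_combination hjk
    omega
  by_contra hcon
  push Not at hcon
  have h1 : w ≤ e := by nlinarith
  have e1 : v ^ 2 + 3 * v + 4 - e = (v + 1 - w) * (v + 2 + w) := by rw [hew]; ring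
  rw [e1] at hp
  have h2 : w + 1 ≤ e := by
    rcases eq_or_lt_of_le hw0 with h | h
    · omega
    · nlinarith
  exact notprime_mul _ _ (by omega) (by omega) hp

/-- the family restricted to the `v` for which both values are prime -/
noncomputable def BP3 {ι : Type} (s : Finset ι) (v : ι → ℤ) (e : ℕ) : Finset ι :=
  s.filter fun i => 0 < v i ∧ (v i ^ 2 + 3 * v i + 2 - e).toNat.Prime ∧ (v i ^ 2 + 3 * v i + 4 - e).toNat.Prime

theorem quad_up3 (ε : ℝ) (hε : 0 < ε) : ∃ C : ℝ, 1 ≤ C ∧ ∃ T₀ : ℝ, ∀ T : ℝ, T₀ ≤ T → ∀ (ι : Type) (s : Finset ι) (v : ι → ℤ),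
    IF T s v → ∀ e : ℕ, 1 ≤ e → (e : ℝ) ≤ T ^ (1 / 16 : ℝ) →
    ((BP3 s v e).card : ℝ) ≤ C * (e : ℝ) ^ ε * (s.card / Real.log T ^ 2) := by
  obtain ⟨δ, hδ0, hδ8, T₁, H⟩ := up_sieve' 4
  obtain ⟨C₁, hC₁, h1⟩ := Q3_sum ε hε
  have hlim : ∀ᶠ T : ℝ in atTop, 1 ≤ T ∧ 1 ≤ Real.log T ∧ 2 ≤ T ^ (1 / 16 : ℝ) ∧ 24 * Real.log T ^ 2 ≤ T ^ (3 / 8 : ℝ) := by
    have h1 : (fun x : ℝ => Real.log x ^ 2) =o[atTop] (fun x : ℝ => x ^ (3 / 8 : ℝ)) := by
      have := isLittleO_log_rpow_rpow_atTop (s := 3 / 8) ((2 : ℕ) : ℝ) (by norm_num)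
      refine this.congr' ?_ (Eventually.of_forall fun _ => rfl)
      filter_upwards [eventually_ge_atTop (1 : ℝ)] with x hx
      rw [Real.rpow_natCast]
    have h2 := h1.def (show (0 : ℝ) < 1 / 24 by norm_num)
    filter_upwards [eventually_ge_atTop (1 : ℝ), Real.tendsto_log_atTop.eventually_ge_atTop 1,
      (tendsto_rpow_atTop (show (0 : ℝ) < 1 / 16 by norm_num)).eventually_ge_atTop 2, h2] with T g1 g2 g4 g3
    refine ⟨g1, g2, g4, ?_⟩
    rw [Real.norm_of_nonneg (by positivity), Real.norm_of_nonneg (by positivity)] at g3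
    linarith
  obtain ⟨T₂, hT₂⟩ := eventually_atTop.1 hlim
  refine ⟨2 * Real.exp C₁ * (2 / δ) ^ 2 + 2, by
    have : 0 < 2 * Real.exp C₁ * (2 / δ) ^ 2 := by positivity
    linarith, max T₁ T₂, fun T hT ι s v hv e he heT => ?_⟩
  obtain ⟨g1, g2, g4, g3⟩ := hT₂ T ((le_max_right _ _).trans hT)
  obtain ⟨z4, hlz, hup⟩ := H T ((le_max_left _ _).trans hT)
  have hT0 : 0 < T := by linarith
  have hs0 : (0 : ℝ) ≤ s.card := Nat.cast_nonneg _
  have her : (1 : ℝ) ≤ e := by exact_mod_cast he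
  have heε : 1 ≤ (e : ℝ) ^ ε := Real.one_le_rpow her hε.le
  have hl2 : 0 < Real.log T ^ 2 := by positivity
  have hsl : 0 ≤ (s.card : ℝ) / Real.log T ^ 2 := by positivity
  have hT16 : T ^ (1 / 16 : ℝ) * T ^ (1 / 16 : ℝ) = T ^ (1 / 8 : ℝ) := by
    rw [← Real.rpow_add hT0]; norm_num
  -- the small members
  obtain ⟨U, hU⟩ : ∃ U : ℕ, U = ⌈T ^ (1 / 8 : ℝ)⌉₊ := ⟨_, rfl⟩
  have hU1 : T ^ (1 / 8 : ℝ) ≤ U := by rw [hU]; exact Nat.le_ceil _
  have hT8 : 4 ≤ T ^ (1 / 8 : ℝ) := by rw [← hT16]; nlinarith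
  have hU2 : (U : ℝ) ≤ 2 * T ^ (1 / 8 : ℝ) := by
    have : (U : ℝ) < T ^ (1 / 8 : ℝ) + 1 := by rw [hU]; exact Nat.ceil_lt_add_one (by positivity)
    linarith
  have heU : (e : ℝ) ≤ U := by
    refine heT.trans (le_trans ?_ hU1)
    rw [← hT16]
    nlinarith
  have heU' : e ≤ U := by exact_mod_cast heU
  obtain ⟨m, hm⟩ : ∃ m : ℕ, m = ⌈T ^ (1 / 2 : ℝ)⌉₊ := ⟨_, rfl⟩
  have hT2 : 1 ≤ T ^ (1 / 2 : ℝ) := Real.one_le_rpow g1 (by norm_num)
  have hm1 : T ^ (1 / 2 : ℝ) ≤ m := by rw [hm]; exact Nat.le_ceil _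
  have hm2 : (m : ℝ) ≤ 2 * T ^ (1 / 2 : ℝ) := by
    have : (m : ℝ) < T ^ (1 / 2 : ℝ) + 1 := by rw [hm]; exact Nat.ceil_lt_add_one (by positivity)
    linarith
  have hm0 : 1 ≤ m := by exact_mod_cast hT2.trans hm1
  have h2 := IF_small hT0 hv m hm0 1 U
  have hsmall : ((s.filter (fun i => (1 : ℤ) ≤ v i ∧ v i < 1 + (U : ℕ))).card : ℝ) ≤ s.card / Real.log T ^ 2 := by
    refine h2.trans ?_
    have e1 : (T : ℝ) ^ (1 / 2 : ℝ) * T ^ (1 / 2 : ℝ) = T := by
      rw [← Real.rpow_add hT0]; norm_num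
    have hT20 : 0 < T ^ (1 / 2 : ℝ) := by positivity
    have e2 : (s.card : ℝ) / m ≤ s.card / T ^ (1 / 2 : ℝ) := div_le_div_of_nonneg_left hs0 hT20 hm1
    have e3 : (s.card : ℝ) * m / T ≤ 2 * (s.card / T ^ (1 / 2 : ℝ)) := by
      rw [mul_div_assoc', div_le_div_iff₀ hT0 hT20]
      calc (s.card : ℝ) * m * T ^ (1 / 2 : ℝ) ≤ s.card * (2 * T ^ (1 / 2 : ℝ)) * T ^ (1 / 2 : ℝ) := by
            apply mul_le_mul_of_nonneg_right _ hT20.le
            exact mul_le_mul_of_nonneg_left hm2 hs0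
        _ = 2 * s.card * (T ^ (1 / 2 : ℝ) * T ^ (1 / 2 : ℝ)) := by ring
        _ = 2 * s.card * T := by rw [e1]
    have e5 : (T : ℝ) ^ (1 / 8 : ℝ) * T ^ (3 / 8 : ℝ) = T ^ (1 / 2 : ℝ) := by
      rw [← Real.rpow_add hT0]; norm_num
    calc (U : ℝ) * (s.card / m + s.card * m / T) ≤
          (2 * T ^ (1 / 8 : ℝ)) * (s.card / T ^ (1 / 2 : ℝ) + 2 * (s.card / T ^ (1 / 2 : ℝ))) :=
          mul_le_mul hU2 (add_le_add e2 e3) (by positivity) (by positivity)
      _ = (s.card : ℝ) * (6 * T ^ (1 / 8 : ℝ)) / T ^ (1 / 2 : ℝ) := by ring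
      _ ≤ s.card / Real.log T ^ 2 := by
          rw [div_le_div_iff₀ hT20 hl2, ← e5]
          calc (s.card : ℝ) * (6 * T ^ (1 / 8 : ℝ)) * Real.log T ^ 2 ≤ s.card * (T ^ (1 / 8 : ℝ) * (24 * Real.log T ^ 2)) := by
                have : 0 ≤ (s.card : ℝ) * T ^ (1 / 8 : ℝ) * Real.log T ^ 2 := by positivity
                nlinarith
            _ ≤ s.card * (T ^ (1 / 8 : ℝ) * T ^ (3 / 8 : ℝ)) := by gcongr
  by_cases hsq : IsSquare (4 * (e : ℤ) + 1) ∨ IsSquare (4 * (e : ℤ) - 7)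
  · have hsub : BP3 s v e ⊆ s.filter (fun i => (1 : ℤ) ≤ v i ∧ v i < 1 + (U : ℕ)) := by
      intro i hi
      unfold BP3 at hi
      rw [mem_filter] at hi ⊢
      obtain ⟨hi1, hi2, hi3, hi4⟩ := hi
      have : v i ≤ e := by
        rcases hsq with h | h
        · exact sq_case31 e (v i) (by exact_mod_cast he) h hi2 hi3
        · exact sq_case32 e (v i) (by exact_mod_cast he) h hi2 hi4
      exact ⟨hi1, by omega, by omega⟩
    have e1 : ((BP3 s v e).card : ℝ) ≤ s.card / Real.log T ^ 2 := by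
      refine le_trans ?_ hsmall
      exact_mod_cast card_le_card hsub
    refine e1.trans ?_
    have e2 : 1 ≤ (2 * Real.exp C₁ * (2 / δ) ^ 2 + 2) * (e : ℝ) ^ ε := by
      have : 0 < 2 * Real.exp C₁ * (2 / δ) ^ 2 := by positivity
      nlinarith
    nlinarith
  · push Not at hsq
    obtain ⟨z, hz⟩ : ∃ z : ℕ, z = ⌊T ^ δ⌋₊ := ⟨_, rfl⟩
    rw [← hz] at z4 hlz hup
    have h5 := hup ι s v hv (Q3 e) (Q3_per e) (rq_Q3_le e)
    have h6 := h1 e he hsq.1 hsq.2 z (by omega)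
    have hlz0 : 0 < δ / 2 * Real.log T := by positivity
    have hlz1 : 0 < Real.log z := hlz0.trans_le hlz
    have h7 : Real.exp (-∑ p ∈ pz z, (rq (Q3 e) p : ℝ) / p) ≤ Real.exp C₁ * (2 / δ) ^ 2 * (e : ℝ) ^ ε / Real.log T ^ 2 := by
      have e1 : Real.exp (-∑ p ∈ pz z, (rq (Q3 e) p : ℝ) / p) ≤ Real.exp (-(2 * Real.log (Real.log z)) + (ε * Real.log e + C₁)) := by
        apply Real.exp_le_exp.2
        linarith
      refine e1.trans ?_
      have e2 : Real.exp (-(2 * Real.log (Real.log z)) + (ε * Real.log e + C₁)) = (Real.log z ^ 2)⁻¹ * ((e : ℝ) ^ ε * Real.exp C₁) := by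
        rw [Real.exp_add, Real.exp_add, Real.exp_neg]
        congr 2
        · congr 1
          have : 2 * Real.log (Real.log z) = Real.log (Real.log z ^ 2) := by
            rw [Real.log_pow]; norm_num
          rw [this, Real.exp_log (by positivity)]
        · rw [Real.rpow_def_of_pos (by linarith)]
          congr 1
          ring
      rw [e2]
      have e3 : (Real.log z ^ 2)⁻¹ ≤ ((δ / 2 * Real.log T) ^ 2)⁻¹ := by
        apply inv_anti₀ (by positivity)
        exact pow_le_pow_left₀ hlz0.le hlz 2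
      calc (Real.log z ^ 2)⁻¹ * ((e : ℝ) ^ ε * Real.exp C₁) ≤ ((δ / 2 * Real.log T) ^ 2)⁻¹ * ((e : ℝ) ^ ε * Real.exp C₁) :=
            mul_le_mul_of_nonneg_right e3 (by positivity)
        _ = _ := by
            rw [mul_pow, div_pow, div_pow]
            field_simp
    have hsub : BP3 s v e ⊆ (s.filter fun i => ∀ p : ℕ, p.Prime → (p : ℝ) ≤ T ^ δ → ¬ Q3 e p (v i)) ∪
        s.filter (fun i => (1 : ℤ) ≤ v i ∧ v i < 1 + (U : ℕ)) := by
      intro i hi
      unfold BP3 at hi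
      rw [mem_filter] at hi
      rw [mem_union, mem_filter, mem_filter]
      obtain ⟨hi1, hi2, hi3, hi4⟩ := hi
      by_cases hcase : ((v i ^ 2 + 3 * v i + 2 - e : ℤ) : ℝ) ≤ T ^ δ
      · right
        refine ⟨hi1, by omega, ?_⟩
        have e1 : T ^ δ ≤ T ^ (1 / 8 : ℝ) := Real.rpow_le_rpow_of_exponent_le g1 hδ8
        push_cast at hcase
        have hvr : (1 : ℝ) ≤ v i := by exact_mod_cast hi2
        have e2 : (v i : ℝ) ≤ T ^ (1 / 8 : ℝ) := by
          have e3 : (e : ℝ) ≤ T ^ (1 / 8 : ℝ) := by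
            refine heT.trans ?_
            rw [← hT16]
            nlinarith
          by_contra hcon
          push Not at hcon
          nlinarith
        have e3 : (v i : ℝ) < 1 + U := by linarith
        exact_mod_cast e3
      · left
        push Not at hcase
        refine ⟨hi1, fun p hp hpT hQ => ?_⟩
        have hval : ∀ w : ℤ, w.toNat.Prime → (p : ℤ) ∣ w → (w : ℝ) ≤ T ^ δ := by
          intro w hw hpw
          have e2 := hw.two_le
          have e3 : (w.toNat : ℤ) = w := Int.toNat_of_nonneg (by omega)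
          have e4 : p ∣ w.toNat := by
            rw [← Int.natCast_dvd_natCast, e3]
            exact hpw
          have e5 := (Nat.prime_dvd_prime_iff_eq hp hw).1 e4
          have e6 : (w : ℝ) = p := by
            rw [e5]
            exact_mod_cast e3.symm
          rw [e6]
          exact hpT
        rcases hQ with hQ | hQ
        · have := hval _ hi3 hQ
          linarith
        · have h8 := hval _ hi4 hQ
          have hvr : (0 : ℝ) < v i := by exact_mod_cast hi2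
          push_cast at h8 hcase
          linarith
    have hcard : ((BP3 s v e).card : ℝ) ≤
        ((s.filter fun i => ∀ p : ℕ, p.Prime → (p : ℝ) ≤ T ^ δ → ¬ Q3 e p (v i)).card : ℝ) +
          ((s.filter (fun i => (1 : ℤ) ≤ v i ∧ v i < 1 + (U : ℕ))).card : ℝ) := by
      exact_mod_cast (card_le_card hsub).trans (card_union_le _ _)
    have h9 : (s.card : ℝ) / Real.log T ^ 4 ≤ s.card / Real.log T ^ 2 :=
      div_le_div_of_nonneg_left hs0 hl2 (pow_le_pow_right₀ g2 (by norm_num))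
    calc ((BP3 s v e).card : ℝ) ≤ (2 * (s.card * Real.exp (-∑ p ∈ pz z, (rq (Q3 e) p : ℝ) / p)) + s.card / Real.log T ^ 4) +
          s.card / Real.log T ^ 2 := hcard.trans (add_le_add h5 hsmall)
      _ ≤ (2 * (s.card * (Real.exp C₁ * (2 / δ) ^ 2 * (e : ℝ) ^ ε / Real.log T ^ 2)) + s.card / Real.log T ^ 2) +
          s.card / Real.log T ^ 2 := by
          apply add_le_add _ le_rfl
          apply add_le_add _ h9
          apply mul_le_mul_of_nonneg_left _ (by norm_num)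
          exact mul_le_mul_of_nonneg_left h7 hs0
      _ = (2 * Real.exp C₁ * (2 / δ) ^ 2 * (e : ℝ) ^ ε + 2) * (s.card / Real.log T ^ 2) := by ring
      _ ≤ ((2 * Real.exp C₁ * (2 / δ) ^ 2 + 2) * (e : ℝ) ^ ε) * (s.card / Real.log T ^ 2) := by
          apply mul_le_mul_of_nonneg_right _ hsl
          nlinarith

end Run7.h914.IFm.RP
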