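import Pool.Agent.Run7.h914.IFm.T2
import Pool.Agent.H399R2.Abs

set_option autoImplicit false
set_option maxHeartbeats 4000000

/-!
The descent of the recursion `a(k) = |a(k-1) - gcd(a(k-1), k² - 1)|` from a zero at `n` to the next zero.
-/

namespace Run7.h914.IFm.RP

open Finset Filter
open Pool.Agent.H399R2
open scoped Classical

/-- the values at `n`, `n + 1`, ... of the recursion with the value `0` at `n` -/
noncomputable def ar (n : ℕ) : ℕ → ℤ
  | 0 => 0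
  | (j + 1) => |ar n j - ((Int.gcd (ar n j) (((n + j + 1 : ℕ) : ℤ) ^ 2 - 1) : ℕ) : ℤ)|

/-- the time to the next zero -/
noncomputable def tr (n : ℕ) : ℕ := sInf {j : ℕ | 1 ≤ j ∧ ar n j = 0}

lemma ar_rec (n j : ℕ) (hj : 2 ≤ j) :
    ar n j = |ar n (j - 1) - ((Int.gcd (ar n (j - 1)) (((n + j : ℕ) : ℤ) ^ 2 - 1) : ℕ) : ℤ)| := by
  obtain ⟨k, rfl⟩ : ∃ k, j = k + 1 := ⟨j - 1, by omega⟩
  rw [Nat.add_sub_cancel, ar]
  rfl

lemma ar_one (n : ℕ) : ar n 1 = (n : ℤ) ^ 2 + 2 * n := by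
  rw [ar, ar]
  have h1 : (((n + 0 + 1 : ℕ) : ℤ) ^ 2 - 1) = (((n ^ 2 + 2 * n : ℕ)) : ℤ) := by push_cast; ring
  rw [h1, Int.gcd_zero_left, Int.natAbs_natCast, zero_sub, abs_neg, Nat.abs_cast]
  push_cast
  ring

lemma tr_ne (n k : ℕ) (hk : 1 ≤ k) (hkz : k < tr n) : ar n k ≠ 0 := by
  intro h
  have := Nat.sInf_le (show k ∈ {j : ℕ | 1 ≤ j ∧ ar n j = 0} from ⟨hk, h⟩)
  unfold tr at hkz
  omega

lemma tr_mem (n : ℕ) (h : 0 < tr n) : 1 ≤ tr n ∧ ar n (tr n) = 0 := by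
  have hne : {j : ℕ | 1 ≤ j ∧ ar n j = 0}.Nonempty := Nat.nonempty_of_pos_sInf h
  exact Nat.sInf_mem hne

lemma seg_dec' {x : ℕ → ℕ} {V : ℕ → ℤ} {s e : ℕ} (h : Seg x V s e) (n : ℕ) (h1 : s ≤ n) (h2 : n ≤ e) :
    x n + n ≤ x s + s := by
  induction n, h1 using Nat.le_induction with
  | base => exact le_rfl
  | succ n hn ih =>
    have e1 := h.step n hn (by omega)
    have e2 := h.gcd_pos hn (by omega : n < e)
    have e3 := ih (by omega)
    omega

lemma tr_seg (n : ℕ) (h : 0 < tr n) :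
    Seg (fun k => (ar n k).natAbs) (fun j => ((n + j : ℕ) : ℤ) ^ 2 - 1) 1 (tr n) :=
  seg_of_zeros (V := fun j => ((n + j : ℕ) : ℤ) ^ 2 - 1) (by rw [ar_one]; positivity)
    (fun j hj => ar_rec n j hj) le_rfl (by omega) (fun k h1 h2 => tr_ne n k h1 h2)

lemma ar_abs (n : ℕ) : (ar n 1).natAbs = n ^ 2 + 2 * n := by
  rw [ar_one]
  have : (n : ℤ) ^ 2 + 2 * n = ((n ^ 2 + 2 * n : ℕ) : ℤ) := by push_cast; ring
  rw [this, Int.natAbs_natCast]

lemma tr_le (n : ℕ) (h : 0 < tr n) : tr n ≤ n ^ 2 + 2 * n + 1 := by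
  have hseg := tr_seg n h
  have e5 := seg_dec' hseg (tr n) (by omega) le_rfl
  try simp only at e5
  rw [ar_abs] at e5
  omega

/-- near the maximal value of the next zero both numbers are prime -/
lemma tr_primes (n : ℕ) (h : 0 < tr n) (hlong : 3 * (n ^ 2 + 2 * n) + 2 * Nat.sqrt (n + tr n + 2) + 1 < 5 * (tr n - 1)) :
    (n + tr n).Prime ∧ (n + tr n + 2).Prime := by
  have hseg := tr_seg n h
  have h1 := ar_abs n
  obtain ⟨n', hn'⟩ : ∃ n', n' = tr n := ⟨_, rfl⟩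
  have hz0 := (tr_mem n h).2
  rw [← hn'] at hseg hlong hz0 h ⊢
  obtain ⟨l, hsl, hle, hrun, hineq⟩ := hseg.final (by show (ar n n').natAbs = 0; rw [hz0]; rfl) 1 le_rfl
    (by
      intro p hp k hk h
      rw [one_mul] at h
      have h2 : ((n + (k + p) : ℕ) : ℤ) ^ 2 - 1 = (((n + k : ℕ) : ℤ) ^ 2 - 1) + (p : ℤ) * (2 * (n + k) + p) := by
        push_cast; ring
      try simp only at h
      rw [h2] at h
      exact (Int.dvd_add_left (Dvd.intro _ rfl)).mp h)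
    (by
      right
      refine ⟨n + 1, ?_⟩
      intro k hk
      try simp only
      have e0 : ((n + k : ℕ) : ℤ) ^ 2 - 1 = (((n + k : ℕ) : ℤ) - 1) * (((n + k : ℕ) : ℤ) + 1) := by ring
      rw [e0]
      constructor
      · intro h
        rcases (Int.prime_two.dvd_mul).mp h with h | h <;> omega
      · intro h
        exact Dvd.dvd.mul_right (by omega) _)
  try simp only at hineq hrun
  rw [h1] at hineq
  have key : ∀ p : ℕ, p.Prime → p ∣ (n + n') * (n + n' + 2) → p ≤ n' - 1 → n' - l < p := by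
    intro p hp hdvd hpn
    by_contra hcon
    push Not at hcon
    obtain ⟨h1, h2⟩ := hrun (n' - p) (by omega) (by have := hp.pos; omega)
    have h3 : (ar n (n' - p)).natAbs = p := by omega
    rw [h3] at h1
    have h4 : (p : ℤ) ∣ ((n + (n' - p + 1) : ℕ) : ℤ) ^ 2 - 1 := by
      have e1 : ((n + (n' - p + 1) : ℕ) : ℤ) ^ 2 - 1 = (((n + n') * (n + n' + 2) : ℕ) : ℤ)
          + (p : ℤ) * (p - 2 * (n + n') - 2) := by
        have : ((n + (n' - p + 1) : ℕ) : ℤ) = (n : ℤ) + n' - p + 1 := by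
          rw [Nat.cast_add, Nat.cast_add, Nat.cast_sub (by omega)]; push_cast; ring
        rw [this]; push_cast; ring
      rw [e1]
      exact dvd_add (Int.natCast_dvd_natCast.mpr hdvd) (Dvd.intro _ rfl)
    have h5 : (p : ℤ) ∣ (Int.gcd (p : ℤ) (((n + (n' - p + 1) : ℕ) : ℤ) ^ 2 - 1) : ℤ) :=
      Int.dvd_coe_gcd (dvd_refl _) h4
    rw [h1] at h5
    have h6 : p ∣ 1 := by exact_mod_cast h5
    exact hp.one_lt.ne' (Nat.dvd_one.mp h6)
  have fin : ∀ p : ℕ, p.Prime → p ∣ (n + n') * (n + n' + 2) → p ≤ Nat.sqrt (n + n' + 2) → False := by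
    intro p hp h1 h2
    by_cases hpn : p ≤ n' - 1
    · have h3 := key p hp h1 hpn
      omega
    · omega
  constructor
  · by_contra hp1
    apply fin (Nat.minFac (n + n')) (Nat.minFac_prime (by omega))
      (Dvd.dvd.mul_right (Nat.minFac_dvd _) _)
    rw [Nat.le_sqrt']
    exact (Nat.minFac_sq_le_self (by omega) hp1).trans (by omega)
  · by_contra hp2
    apply fin (Nat.minFac (n + n' + 2)) (Nat.minFac_prime (by omega))
      (Dvd.dvd.mul_left (Nat.minFac_dvd _) _)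
    rw [Nat.le_sqrt']
    exact Nat.minFac_sq_le_self (by omega) hp2

/-- the case used in the sieve -/
lemma tr_pair (n H : ℕ) (hn : H + 8 ≤ n) (h : (n + 1) ^ 2 < tr n + H) :
    ∃ e : ℕ, 1 ≤ e ∧ e ≤ H ∧ ((n : ℤ) ^ 2 + 3 * n + 2 - e).toNat.Prime ∧ ((n : ℤ) ^ 2 + 3 * n + 4 - e).toNat.Prime := by
  have e0 : (n + 1) ^ 2 = n ^ 2 + 2 * n + 1 := by ring
  rw [e0] at h
  have hm2 : n * (H + 8) ≤ n ^ 2 := by rw [sq]; exact Nat.mul_le_mul_left n hn
  have hm3 : n * (H + 8) = n * H + 8 * n := by ring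
  have hmH : H ≤ n * H := Nat.le_mul_of_pos_left H (by omega)
  have hz0 : 0 < tr n := by omega
  have h1 := tr_le n hz0
  have hsq : Nat.sqrt (n + tr n + 2) ≤ n + 2 := by
    have h3 : Nat.sqrt (n + tr n + 2) < n + 3 := by
      rw [Nat.sqrt_lt']
      have : (n + 3) ^ 2 = n ^ 2 + 6 * n + 9 := by ring
      omega
    omega
  have h2 := tr_primes n hz0 (by omega)
  refine ⟨n ^ 2 + 2 * n + 2 - tr n, by omega, by omega, ?_, ?_⟩
  · have e1 : ((n : ℤ) ^ 2 + 3 * n + 2 - ((n ^ 2 + 2 * n + 2 - tr n : ℕ) : ℤ)).toNat = n + tr n := by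
      have : ((n ^ 2 + 2 * n + 2 - tr n : ℕ) : ℤ) = (n : ℤ) ^ 2 + 2 * n + 2 - tr n := by
        rw [Nat.cast_sub (by omega)]
        push_cast
        ring
      rw [this]
      omega
    rw [e1]
    exact h2.1
  · have e1 : ((n : ℤ) ^ 2 + 3 * n + 4 - ((n ^ 2 + 2 * n + 2 - tr n : ℕ) : ℤ)).toNat = n + tr n + 2 := by
      have : ((n ^ 2 + 2 * n + 2 - tr n : ℕ) : ℤ) = (n : ℤ) ^ 2 + 2 * n + 2 - tr n := by
        rw [Nat.cast_sub (by omega)]
        push_cast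
        ring
      rw [this]
      omega
    rw [e1]
    exact h2.2

end Run7.h914.IFm.RP
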