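import Pool.Agent.Run7.h914.IFm.T4

set_option autoImplicit false
set_option maxHeartbeats 4000000

/-!
The number of the members `v` of a family of integers with small exponential sums for which
`((v + 1) ^ p + v + 1 - h) ^ p - 1` has no small prime factors.
-/

namespace Run7.h914.IFm.RP

open Finset Filter Polynomial
open Pool.Agent.H474R2.PG (rho Sg PR)
open Pool.Agent.H474R2.GE (mertens_rho)
open scoped Classical

/-- `(n + 1) ^ p + n - h` -/
noncomputable def P1 (p h : ℕ) : ℤ[X] := (X + 1) ^ p + (X - C (h : ℤ))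

/-- the product -/
noncomputable def GP (p h : ℕ) : ℤ[X] := (P1 p h + 1) ^ p - 1

/-- the second factor -/
noncomputable def P2 (p h : ℕ) : ℤ[X] := (cyclotomic p ℤ).comp (P1 p h + 1)

lemma P1_deg (p h : ℕ) (hp : 2 ≤ p) : (P1 p h).Monic ∧ (P1 p h).natDegree = p := by
  have h1 : ((X + 1 : ℤ[X]) ^ p).Monic := by
    have : (X + 1 : ℤ[X]) = X + C 1 := by rw [C_1]
    rw [this]
    exact (monic_X_add_C 1).pow p
  have h2 : ((X + 1 : ℤ[X]) ^ p).natDegree = p := by
    have h3 : (X + 1 : ℤ[X]) = X + C 1 := by rw [C_1]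
    rw [h3, (monic_X_add_C (1 : ℤ)).natDegree_pow, natDegree_X_add_C, mul_one]
  have h3 : (X - C (h : ℤ) : ℤ[X]).natDegree = 1 := natDegree_X_sub_C _
  have h4 : (X - C (h : ℤ) : ℤ[X]).degree < ((X + 1 : ℤ[X]) ^ p).degree := by
    apply degree_lt_degree
    rw [h2, h3]
    omega
  unfold P1
  refine ⟨h1.add_of_left h4, ?_⟩
  rw [natDegree_add_eq_left_of_degree_lt h4, h2]

lemma P1_one_deg (p h : ℕ) (hp : 2 ≤ p) : (P1 p h + 1).Monic ∧ (P1 p h + 1).natDegree = p := by
  obtain ⟨h1, h2⟩ := P1_deg p h hp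
  have h4 : (1 : ℤ[X]).degree < (P1 p h).degree := by
    apply degree_lt_degree
    rw [h2, natDegree_one]
    omega
  exact ⟨h1.add_of_left h4, by rw [natDegree_add_eq_left_of_degree_lt h4, h2]⟩

lemma P2_deg (p h : ℕ) (hp : p.Prime) : (P2 p h).Monic ∧ 0 < (P2 p h).natDegree := by
  obtain ⟨h1, h2⟩ := P1_one_deg p h hp.two_le
  have hp2 := hp.two_le
  unfold P2
  constructor
  · apply (cyclotomic.monic p ℤ).comp h1
    rw [h2]
    omega
  · rw [natDegree_comp, natDegree_cyclotomic, h2, Nat.totient_prime hp]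
    exact Nat.mul_pos (by omega) (by omega)

lemma GP_mul (p h : ℕ) (hp : p.Prime) : P2 p h * P1 p h = GP p h := by
  have := Fact.mk hp
  have h1 := congrArg (fun f : ℤ[X] => f.comp (P1 p h + 1)) (cyclotomic_prime_mul_X_sub_one ℤ p)
  simp only [mul_comp, sub_comp, X_comp, one_comp, pow_comp, add_sub_cancel_right] at h1
  unfold P2 GP
  exact h1

/-- a factor which is irreducible -/
lemma irr_factor (f : ℤ[X]) (hf : f.Monic) (hd : 0 < f.natDegree) : ∃ g : ℤ[X], Irreducible g ∧ 0 < g.natDegree ∧ g ∣ f := by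
  have h1 : ¬ IsUnit f := by
    intro hu
    have := natDegree_eq_zero_of_isUnit hu
    omega
  obtain ⟨g, hg, hgf⟩ := WfDvdMonoid.exists_irreducible_factor h1 hf.ne_zero
  refine ⟨g, hg, ?_, hgf⟩
  by_contra hcon
  have h2 : g.natDegree = 0 := by omega
  obtain ⟨c, hc⟩ := natDegree_eq_zero.1 h2
  obtain ⟨k, hk⟩ := hgf
  have h3 : f.leadingCoeff = 1 := hf
  rw [hk, leadingCoeff_mul, ← hc, leadingCoeff_C] at h3
  have h4 : IsUnit c := IsUnit.of_mul_eq_one _ h3
  exact hg.not_isUnit (by rw [← hc]; exact isUnit_C.2 h4)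

/-- one of the numbers `(n + 1) ^ p + n - h`, `q_p` of it, is divisible by `r` -/
def QP (p h : ℕ) (r : ℕ) (n : ℤ) : Prop := (r : ℤ) ∣ ((n + 1) ^ p + n + 1 - h) ^ p - 1

lemma GP_eval (p h : ℕ) (n : ℤ) : (GP p h).eval n = ((n + 1) ^ p + n + 1 - h) ^ p - 1 := by
  unfold GP P1
  simp only [eval_add, eval_sub, eval_pow, eval_X, eval_one, eval_C]
  congr 2
  ring

lemma P1_eval (p h : ℕ) (n : ℤ) : (P1 p h).eval n = (n + 1) ^ p + n - h := by
  unfold P1
  simp only [eval_add, eval_sub, eval_pow, eval_X, eval_one, eval_C]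
  ring

lemma QP_per (p h : ℕ) (r : ℕ) (n : ℤ) : QP p h r (n + r) ↔ QP p h r n := by
  unfold QP
  rw [← GP_eval, ← GP_eval]
  have h1 := sub_dvd_eval_sub (n + r : ℤ) n (GP p h)
  have h2 : (n + (r : ℤ) - n) = r := by ring
  rw [h2] at h1
  exact (Int.dvd_iff_dvd_of_dvd_sub h1)

lemma rq_QP (p h r : ℕ) : rq (QP p h) r = rho (GP p h) r := by
  unfold rq rho
  congr 1
  ext n
  constructor
  · intro h1
    have h2 := Finset.mem_filter.1 h1
    exact Finset.mem_filter.2 ⟨h2.1, by rw [GP_eval]; exact h2.2⟩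
  · intro h1
    have h2 := Finset.mem_filter.1 h1
    refine Finset.mem_filter.2 ⟨h2.1, ?_⟩
    have h3 := h2.2
    rw [GP_eval] at h3
    exact h3

lemma rq_QP_le (p h : ℕ) (hp : p.Prime) : ∃ k : ℕ, 2 ≤ k ∧ ∀ r : ℕ, r.Prime → rq (QP p h) r ≤ k := by
  have hne : GP p h ≠ 0 := by
    rw [← GP_mul p h hp]
    exact mul_ne_zero (P2_deg p h hp).1.ne_zero (P1_deg p h hp.two_le).1.ne_zero
  obtain ⟨B, hB⟩ := Pool.Agent.H474R2.PG.rho_le (GP p h) hne
  refine ⟨B + (GP p h).natDegree + 2, by omega, fun r hr => ?_⟩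
  rw [rq_QP]
  rcases le_or_gt r B with h1 | h1
  · have := Pool.Agent.H474R2.PG.rho_le_self (GP p h) r
    omega
  · have := hB r hr h1
    omega

/-- the sieve product -/
lemma QP_sum (p h : ℕ) (hp : p.Prime) : ∃ C : ℝ, 0 ≤ C ∧ ∀ N : ℕ, 3 ≤ N →
    2 * Real.log (Real.log N) - C ≤ ∑ r ∈ pz N, (rq (QP p h) r : ℝ) / r := by
  have hpF := Fact.mk hp
  obtain ⟨f₁, i1, d1, v1⟩ := irr_factor (P1 p h) (P1_deg p h hp.two_le).1 (by rw [(P1_deg p h hp.two_le).2]; exact hp.pos)
  obtain ⟨f₂, i2, d2, v2⟩ := irr_factor (P2 p h) (P2_deg p h hp).1 (P2_deg p h hp).2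
  obtain ⟨C₁, hC₁, h1⟩ := mertens_rho f₁ i1 d1
  obtain ⟨C₂, hC₂, h2⟩ := mertens_rho f₂ i2 d2
  refine ⟨C₁ + C₂ + 2, by positivity, fun N hN => ?_⟩
  have hN3 : (3 : ℝ) ≤ N := by exact_mod_cast hN
  have a1 := (abs_le.1 (h1 N hN3)).1
  have a2 := (abs_le.1 (h2 N hN3)).1
  have hp0 : (0 : ℝ) < p := by exact_mod_cast hp.pos
  have hterm : ∀ r ∈ pz N, (rho f₁ r : ℝ) / r + (rho f₂ r : ℝ) / r ≤ (rq (QP p h) r : ℝ) / r + (if r = p then 2 else 0) := by
    intro r hr
    have hrp := (mem_pz.1 hr).2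
    have hr0 : (0 : ℝ) < r := by exact_mod_cast hrp.pos
    by_cases hc : r = p
    · rw [if_pos hc]
      have e1 : (rho f₁ r : ℝ) / r ≤ 1 := by
        rw [div_le_one hr0]
        exact_mod_cast Pool.Agent.H474R2.PG.rho_le_self f₁ r
      have e2 : (rho f₂ r : ℝ) / r ≤ 1 := by
        rw [div_le_one hr0]
        exact_mod_cast Pool.Agent.H474R2.PG.rho_le_self f₂ r
      have e3 : 0 ≤ (rq (QP p h) r : ℝ) / r := by positivity
      linarith
    · rw [if_neg hc, add_zero, ← add_div]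
      apply div_le_div_of_nonneg_right _ hr0.le
      have e1 : rho f₁ r + rho f₂ r ≤ rq (QP p h) r := by
        rw [rq_QP]
        unfold rho
        rw [← card_union_of_disjoint]
        · apply card_le_card
          intro a ha
          rw [mem_union, mem_filter, mem_filter] at ha
          rw [mem_filter]
          rw [← GP_mul p h hp, eval_mul]
          rcases ha with ha | ha
          · refine ⟨ha.1, Dvd.dvd.mul_left (ha.2.trans ?_) _⟩
            exact eval_dvd v1
          · refine ⟨ha.1, Dvd.dvd.mul_right (ha.2.trans ?_) _⟩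
            exact eval_dvd v2
        · rw [disjoint_left]
          intro a ha ha'
          rw [mem_filter] at ha ha'
          have g1 : (r : ℤ) ∣ (P1 p h).eval (a : ℤ) := ha.2.trans (eval_dvd v1)
          have g2 : (r : ℤ) ∣ (P2 p h).eval (a : ℤ) := ha'.2.trans (eval_dvd v2)
          unfold P2 at g2
          rw [eval_comp, eval_add, eval_one] at g2
          have g3 := sub_dvd_eval_sub ((P1 p h).eval (a : ℤ) + 1) 1 (cyclotomic p ℤ)
          rw [add_sub_cancel_right, eval_one_cyclotomic_prime] at g3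
          have g4 : (r : ℤ) ∣ (p : ℤ) := by
            have := dvd_sub g2 (g1.trans g3)
            rwa [sub_sub_cancel] at this
          have g5 : r ∣ p := by exact_mod_cast g4
          exact hc ((Nat.prime_dvd_prime_iff_eq hrp hp).1 g5)
      exact_mod_cast e1
  have hsum := sum_le_sum hterm
  rw [sum_add_distrib, sum_add_distrib, ← sum_filter, sum_const, nsmul_eq_mul] at hsum
  have hcard : (((pz N).filter (fun r => r = p)).card : ℝ) ≤ 1 := by
    have hsub : (pz N).filter (fun r => r = p) ⊆ {p} := by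
      intro r hr
      rw [mem_singleton]
      exact (mem_filter.1 hr).2
    have := card_le_card hsub
    rw [card_singleton] at this
    exact_mod_cast this
  unfold Sg at a1 a2
  rw [← pz_PR] at a1 a2
  linarith

end Run7.h914.IFm.RP
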