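import Pool.Agent.N39.RG.Pairs
import Pool.Agent.H807R2.Dav1

/-! Twisted exponential sums over the points of a family of vectors modulo a prime in a box.
`wcount` is the weighted form of `Pool.Agent.N647.FG.count`. -/

set_option autoImplicit false
set_option linter.all false

namespace Run7.h914.IFm

open Finset
open Pool.Agent.H807R2.Dav (ee ee_add ee_int ee_add_int norm_ee dd dd_nonneg dd_add_int dd_ge dd_le dd_neg ee_zero)

section
variable {p : ℕ} [Fact p.Prime]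

theorem psi_ee (x : ℤ) : (ZMod.stdAddChar (N := p) ((x : ℤ) : ZMod p) : ℂ) = ee (x / p) := by
  rw [ZMod.stdAddChar_coe]
  unfold ee
  congr 1
  push_cast
  ring

/-- the twisted exponential sum -/
noncomputable def Fw (w : ℤ → ℂ) (X : Finset ℤ) (α : ZMod p) : ℂ :=
  ∑ x ∈ X, w x * (ZMod.stdAddChar (-(α * (x : ZMod p))) : ℂ)

theorem Fw_zero (w : ℤ → ℂ) (X : Finset ℤ) : Fw w X (0 : ZMod p) = ∑ x ∈ X, w x := by
  unfold Fw
  simp

/-- the mean of the absolute values of the exponential sums -/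
noncomputable def Ww (p : ℕ) [Fact p.Prime] (w : ℤ → ℂ) (X : Finset ℤ) : ℝ :=
  (1 / (p : ℝ)) * ∑ α : ZMod p, ‖Fw w X α‖

theorem Ww_nonneg (w : ℤ → ℂ) (X : Finset ℤ) : 0 ≤ Ww p w X := by
  unfold Ww
  positivity

theorem wsum_eq (w : ℤ → ℂ) (X : Finset ℤ) (R : ZMod p) :
    ∑ x ∈ X.filter (fun x : ℤ => (x : ZMod p) = R), w x =
      ∑ α : ZMod p, (1 / (p : ℂ)) * (ZMod.stdAddChar (α * R) * Fw w X α) := by
  have hp : (p : ℂ) ≠ 0 := by exact_mod_cast (Fact.out : p.Prime).ne_zero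
  have h1 : ∀ x : ℤ, (if (x : ZMod p) = R then w x else 0) =
      (1 / (p : ℂ)) * ∑ α : ZMod p, w x * ZMod.stdAddChar (α * (R - (x : ZMod p))) := by
    intro x
    rw [← mul_sum, AddChar.sum_mulShift (R - (x : ZMod p)) (ZMod.isPrimitive_stdAddChar p), ZMod.card]
    by_cases h : (x : ZMod p) = R
    · rw [if_pos h, if_pos (sub_eq_zero.mpr h.symm)]
      field_simp
    · rw [if_neg h, if_neg]
      · simp
      · intro h2
        exact h (sub_eq_zero.mp h2).symm
  rw [sum_filter, sum_congr rfl fun x _ => h1 x, ← mul_sum, ← mul_sum, sum_comm]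
  congr 1
  refine sum_congr rfl fun α _ => ?_
  unfold Fw
  rw [mul_sum]
  refine sum_congr rfl fun x _ => ?_
  have e : α * (R - (x : ZMod p)) = α * R + -(α * (x : ZMod p)) := by ring
  rw [e, AddChar.map_add_eq_mul]
  ring

/-- **the weighted count** -/
theorem wcount {ι : Type} (S : Finset ι) {r : ℕ} (R : ι → Fin r → ZMod p) (X : Fin r → Finset ℤ) (w : Fin r → ℤ → ℂ)
    (E : ℝ) (hE0 : 0 ≤ E) (hE : ∀ α : Fin r → ZMod p, α ≠ 0 →
      ‖∑ i ∈ S, (ZMod.stdAddChar (∑ j, α j * R i j) : ℂ)‖ ≤ E) :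
    ‖(∑ i ∈ S, ∏ j, ∑ x ∈ (X j).filter (fun x : ℤ => (x : ZMod p) = R i j), w j x) -
        S.card * ∏ j, ((∑ x ∈ X j, w j x) / (p : ℂ))‖ ≤ E * ∏ j, Ww p (w j) (X j) := by
  classical
  have hp0 : (0 : ℝ) < p := by exact_mod_cast (Fact.out : p.Prime).pos
  have hpC : (p : ℂ) ≠ 0 := by exact_mod_cast (Fact.out : p.Prime).ne_zero
  set G : (Fin r → ZMod p) → ℂ := fun α => ∏ j, ((1 / (p : ℂ)) * Fw (w j) (X j) (α j)) with hG
  have h1 : ∀ i, (∏ j, ∑ x ∈ (X j).filter (fun x : ℤ => (x : ZMod p) = R i j), w j x) =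
      ∑ α : Fin r → ZMod p, ZMod.stdAddChar (∑ j, α j * R i j) * G α := by
    intro i
    rw [prod_congr rfl fun j _ => wsum_eq (w j) (X j) (R i j)]
    rw [prod_univ_sum]
    rw [Fintype.piFinset_univ]
    refine sum_congr rfl fun α _ => ?_
    rw [Pool.Agent.N647.FG.psi_sum, hG, ← prod_mul_distrib]
    refine prod_congr rfl fun j _ => ?_
    ring
  have h2 : (∑ i ∈ S, ∏ j, ∑ x ∈ (X j).filter (fun x : ℤ => (x : ZMod p) = R i j), w j x) =
      ∑ α : Fin r → ZMod p, G α * ∑ i ∈ S, ZMod.stdAddChar (∑ j, α j * R i j) := by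
    rw [sum_congr rfl fun i _ => h1 i, sum_comm]
    refine sum_congr rfl fun α _ => ?_
    rw [mul_sum]
    refine sum_congr rfl fun i _ => ?_
    ring
  have h3 : G 0 * ∑ i ∈ S, (ZMod.stdAddChar (∑ j, (0 : Fin r → ZMod p) j * R i j) : ℂ) =
      S.card * ∏ j, ((∑ x ∈ X j, w j x) / (p : ℂ)) := by
    have e1 : G 0 = ∏ j, ((∑ x ∈ X j, w j x) / (p : ℂ)) := by
      rw [hG]
      refine prod_congr rfl fun j _ => ?_
      rw [Pi.zero_apply, Fw_zero]
      ring
    rw [e1]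
    simp
    ring
  rw [← add_sum_erase univ _ (mem_univ (0 : Fin r → ZMod p)), h3] at h2
  have h4 : ‖∑ α ∈ univ.erase (0 : Fin r → ZMod p),
      G α * ∑ i ∈ S, (ZMod.stdAddChar (∑ j, α j * R i j) : ℂ)‖ ≤ E * ∏ j, Ww p (w j) (X j) := by
    have h5 : ∏ j, Ww p (w j) (X j) = ∑ α : Fin r → ZMod p, ‖G α‖ := by
      unfold Ww
      rw [prod_congr rfl fun j _ => mul_sum _ _ _, prod_univ_sum, Fintype.piFinset_univ]
      refine sum_congr rfl fun α _ => ?_
      rw [hG]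
      simp only [norm_prod]
      refine prod_congr rfl fun j _ => ?_
      rw [norm_mul, norm_div, norm_one, Complex.norm_natCast]
    rw [h5, mul_sum]
    refine (norm_sum_le _ _).trans ?_
    refine (sum_le_sum (g := fun α => E * ‖G α‖) fun α hα => ?_).trans ?_
    · rw [norm_mul, mul_comm]
      exact mul_le_mul_of_nonneg_right (hE α (ne_of_mem_erase hα)) (norm_nonneg _)
    · exact sum_le_sum_of_subset_of_nonneg (erase_subset _ _) fun α _ _ =>
        mul_nonneg hE0 (norm_nonneg _)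
  rw [h2, add_sub_cancel_left]
  exact h4

/-- geometric sums over intervals -/
theorem geo_le (θ : ℝ) (A : ℤ) (N : ℕ) : dd θ * ‖∑ k ∈ Ioc A (A + N), ee (θ * k)‖ ≤ 2 := by
  have hz : ∀ k : ℤ, ee (θ * k) = ee θ ^ k := by
    intro k
    unfold Pool.Agent.H807R2.Dav.ee
    rw [← Complex.exp_int_mul]
    congr 1
    push_cast
    ring
  have hne : ee θ ≠ 0 := by
    intro h
    have := norm_ee θ
    rw [h, norm_zero] at this
    exact zero_ne_one this
  have h5 := Pool.Agent.N647.FG.geo (ee θ) hne A N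
  rw [sum_congr rfl fun k _ => hz k]
  unfold Pool.Agent.H807R2.Dav.dd
  rw [← norm_mul, h5]
  refine (norm_sub_le _ _).trans ?_
  rw [norm_zpow, norm_zpow, norm_ee, one_zpow, one_zpow]
  norm_num

/-- the distances to the nearest multiple of `1 / p` -/
theorem dd_low (θ : ℝ) (h : ZMod p) (hne : h ≠ ((round (θ * p) : ℤ) : ZMod p)) :
    ‖(1 : ℂ) - ZMod.stdAddChar (h - ((round (θ * p) : ℤ) : ZMod p))‖ ≤ Real.pi * dd (θ - h.val / p) := by
  have hp : p.Prime := Fact.out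
  have hp2 : (2 : ℝ) ≤ p := by exact_mod_cast hp.two_le
  have hp0 : (0 : ℝ) < p := by linarith
  obtain ⟨k, hk⟩ : ∃ k : ℤ, k = round (θ * p) := ⟨_, rfl⟩
  rw [← hk] at hne ⊢
  obtain ⟨φ, hφ⟩ : ∃ φ : ℝ, φ = θ * p - k := ⟨_, rfl⟩
  have hφ2 : |φ| ≤ 1 / 2 := by rw [hφ, hk]; exact abs_sub_round _
  obtain ⟨u, hu⟩ : ∃ u : ℤ, u = (h - (k : ZMod p)).valMinAbs := ⟨_, rfl⟩
  have huc : ((u : ℤ) : ZMod p) = h - (k : ZMod p) := by rw [hu]; exact ZMod.coe_valMinAbs _
  have hu0 : u ≠ 0 := by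
    intro h0
    rw [h0, Int.cast_zero] at huc
    exact hne (sub_eq_zero.1 huc.symm)
  have hu1 : (1 : ℝ) ≤ |(u : ℝ)| := by
    have := Int.one_le_abs hu0
    exact_mod_cast this
  have hu2 : |(u : ℝ)| ≤ p / 2 := by
    have h1 := ZMod.natAbs_valMinAbs_le (h - (k : ZMod p))
    rw [← hu] at h1
    have h2 : 2 * u.natAbs ≤ p := by omega
    have h3 : (2 : ℝ) * |(u : ℝ)| ≤ p := by
      rw [← Int.cast_abs, ← Nat.cast_natAbs]
      exact_mod_cast h2
    linarith
  -- the residue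
  have hmod : ((p : ℕ) : ℤ) ∣ (h.val : ℤ) - (k + u) := by
    rw [← ZMod.intCast_zmod_eq_zero_iff_dvd]
    push_cast
    rw [huc, ZMod.natCast_zmod_val]
    ring
  obtain ⟨n, hn⟩ := hmod
  have e1 : θ - h.val / p = (φ - u) / p + ((-n : ℤ) : ℝ) := by
    have h1 : (h.val : ℝ) = k + u + p * n := by
      have : (h.val : ℤ) = k + u + p * n := by linarith
      exact_mod_cast this
    rw [h1, hφ]
    field_simp
    push_cast
    ring
  rw [e1, dd_add_int]
  rw [← huc, psi_ee]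
  change dd (u / p) ≤ _
  have e2 := dd_le ((u : ℝ) / p)
  rw [abs_div, abs_of_pos hp0] at e2
  -- the lower bound
  have e3 : 4 * (|(u : ℝ)| / (2 * p)) ≤ dd ((φ - u) / p) := by
    have h1 : dd ((φ - u) / p) = dd |(φ - u) / p| := by
      rcases abs_choice ((φ - u) / p) with h | h
      · rw [h]
      · rw [h, dd_neg]
    rw [h1, abs_div, abs_of_pos hp0]
    have h2 : |(u : ℝ)| - 1 / 2 ≤ |φ - u| := by
      have := abs_sub_abs_le_abs_sub (u : ℝ) φ
      rw [abs_sub_comm (u : ℝ) φ] at this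
      linarith
    have h3 : |φ - u| ≤ |(u : ℝ)| + 1 / 2 := by
      have := abs_sub φ (u : ℝ)
      linarith
    have h4 : |φ - u| / p ≤ 1 := by
      rw [div_le_one hp0]
      linarith
    refine le_trans ?_ (dd_ge (by positivity) h4)
    apply mul_le_mul_of_nonneg_left _ (by norm_num)
    apply le_min
    · rw [div_le_div_iff₀ (by positivity) hp0]
      nlinarith
    · rw [le_sub_iff_add_le, div_add_div _ _ (by positivity) hp0.ne', div_le_one (by positivity)]
      nlinarith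
  have e4 : 4 * (|(u : ℝ)| / (2 * p)) = 2 * (|(u : ℝ)| / p) := by field_simp; ring
  rw [e4] at e3
  have hpi := Real.pi_pos
  have e5 := mul_le_mul_of_nonneg_left e3 hpi.le
  linarith

theorem Fw_eq (θ : ℝ) (X : Finset ℤ) (h : ZMod p) :
    Fw (fun x => ee (θ * x)) X h = ∑ x ∈ X, ee ((θ - h.val / p) * x) := by
  unfold Fw
  refine sum_congr rfl fun x _ => ?_
  have e : -(h * (x : ZMod p)) = (((-((h.val : ℤ) * x)) : ℤ) : ZMod p) := by
    push_cast
    rw [ZMod.natCast_zmod_val]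
  rw [e, psi_ee, ← ee_add]
  congr 1
  push_cast
  ring

/-- the mean of the twisted exponential sums of an interval -/
theorem Ww_le (θ : ℝ) (M : ℤ) (L : ℕ) (hL : L ≤ p) :
    Ww p (fun x => ee (θ * x)) (Ioc M (M + L)) ≤ 4 * (Real.log p + 3) := by
  classical
  have hp : p.Prime := Fact.out
  have hp2 : (2 : ℝ) ≤ p := by exact_mod_cast hp.two_le
  have hp0 : (0 : ℝ) < p := by linarith
  have hlog : 0 ≤ Real.log p := Real.log_nonneg (by linarith)
  obtain ⟨k, hk⟩ : ∃ k : ZMod p, k = ((round (θ * p) : ℤ) : ZMod p) := ⟨_, rfl⟩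
  unfold Ww
  rw [← add_sum_erase univ _ (mem_univ k)]
  have h1 : ‖Fw (fun x => ee (θ * x)) (Ioc M (M + L)) k‖ ≤ p := by
    rw [Fw_eq]
    refine (norm_sum_le _ _).trans ?_
    rw [sum_congr rfl fun x _ => norm_ee _, sum_const, Pool.Agent.N647.FG.card_Ioc_nat, nsmul_eq_mul, mul_one]
    exact_mod_cast hL
  have h2 : ∑ h ∈ univ.erase k, ‖Fw (fun x => ee (θ * x)) (Ioc M (M + L)) h‖ ≤
      ∑ h ∈ univ.erase k, 2 * Real.pi * (1 / ‖(1 : ℂ) - ZMod.stdAddChar (h - k)‖) := by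
    refine sum_le_sum fun h hh => ?_
    have hne := ne_of_mem_erase hh
    rw [Fw_eq]
    have g1 := dd_low θ h (by rw [← hk]; exact hne)
    rw [← hk] at g1
    have g2 := geo_le (θ - h.val / p) M L
    have g3 : 0 < ‖(1 : ℂ) - ZMod.stdAddChar (h - k)‖ := by
      rw [norm_pos_iff, sub_ne_zero]
      intro h0
      rw [← AddChar.map_zero_eq_one (ZMod.stdAddChar (N := p))] at h0
      exact hne (sub_eq_zero.1 (ZMod.injective_stdAddChar h0.symm))
    rw [mul_one_div, le_div_iff₀ g3]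
    have g4 : 0 ≤ ‖∑ x ∈ Ioc M (M + L), ee ((θ - h.val / p) * x)‖ := norm_nonneg _
    calc _ ≤ ‖∑ x ∈ Ioc M (M + L), ee ((θ - h.val / p) * x)‖ * (Real.pi * dd (θ - h.val / p)) :=
          mul_le_mul_of_nonneg_left g1 g4
      _ = Real.pi * (dd (θ - h.val / p) * ‖∑ x ∈ Ioc M (M + L), ee ((θ - h.val / p) * x)‖) := by ring
      _ ≤ Real.pi * 2 := mul_le_mul_of_nonneg_left g2 Real.pi_pos.le
      _ = _ := by ring
  have h3 : ∑ h ∈ univ.erase k, 2 * Real.pi * (1 / ‖(1 : ℂ) - ZMod.stdAddChar (h - k)‖) =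
      2 * Real.pi * ∑ h ∈ univ.erase (0 : ZMod p), 1 / ‖(1 : ℂ) - ZMod.stdAddChar h‖ := by
    rw [← mul_sum]
    congr 1
    refine sum_bij' (fun h _ => h - k) (fun h _ => h + k) ?_ ?_ ?_ ?_ ?_
    · intro h hh
      rw [mem_erase]
      exact ⟨sub_ne_zero.2 (ne_of_mem_erase hh), mem_univ _⟩
    · intro h hh
      rw [mem_erase]
      refine ⟨fun h0 => ne_of_mem_erase hh ?_, mem_univ _⟩
      exact add_eq_right.1 h0
    · intro h _; ring
    · intro h _; ring
    · intro h _; rfl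
  have h4 := Pool.Agent.H693R3.SpecDir.sum_inv_le (p := p)
  have hpi : Real.pi ≤ 4 := Real.pi_le_four
  have hpi0 := Real.pi_pos
  calc 1 / (p : ℝ) * (‖Fw (fun x => ee (θ * x)) (Ioc M (M + L)) k‖ +
        ∑ h ∈ univ.erase k, ‖Fw (fun x => ee (θ * x)) (Ioc M (M + L)) h‖)
      ≤ 1 / (p : ℝ) * (p + 2 * Real.pi * (p / 2 * (1 + Real.log p))) := by
        apply mul_le_mul_of_nonneg_left _ (by positivity)
        refine add_le_add h1 (h2.trans ?_)
        rw [h3]
        exact mul_le_mul_of_nonneg_left h4 (by positivity)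
    _ = 1 + Real.pi * (1 + Real.log p) := by field_simp
    _ ≤ 4 * (Real.log p + 3) := by nlinarith

end

end Run7.h914.IFm
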